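import Pool.Agent.NI.Core

/-!
# Cod: basic facts on Turing functionals

* `ofNat_surj`: define `OCode.toNat` (`zero ↦ 0, ..., oracle ↦ 4`, `pair f g ↦ 4 * Nat.pair f g + 5`,
  `comp ↦ 4 * _ + 1 + 5`, `prec ↦ 4 * _ + 2 + 5`, `rfind f ↦ 4 * f + 3 + 5`), `ofNat (toNat c) = c` by
  induction on `c` (unfold `OCode.ofNat` with `rw [OCode.ofNat]`).
* `eval_use` (use principle): induction on `c`. For `prec` an inner induction on the second component of
  `n`; for `rfind`: `Nat.mem_rfind`, finitely many computations (all `k < m` and `m`), take the maximum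
  of the finitely many uses.
* `smn_exists`: `Phi y (S i e) n = Phi y i (Nat.pair e n)`: the code
  `comp (ofNat i) (pair (const e) id)`, with `const e` built from `zero` and `succ`, `id = pair left right`;
  then `ofNat_surj` and choice.
* `TRed_trans`: substitute the code of the reduction for `oracle` (recursion on the code), the eval of
  the substituted code equals the eval of the original code.
* `exists_join`: `d k = c k.unpair.1 k.unpair.2`; `c n` is reducible to `d` by the code
  `comp oracle (pair (const n) id)`; then `TRed_trans`.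
-/

namespace Pool.Agent.NI

theorem ofNat_surj (c : OCode) : ∃ i, OCode.ofNat i = c := by
  induction c with
  | zero => exact ⟨0, by rw [OCode.ofNat]⟩
  | succ => exact ⟨1, by rw [OCode.ofNat]⟩
  | left => exact ⟨2, by rw [OCode.ofNat]⟩
  | right => exact ⟨3, by rw [OCode.ofNat]⟩
  | oracle => exact ⟨4, by rw [OCode.ofNat]⟩
  | pair f g hf hg =>
    obtain ⟨i, hi⟩ := hf
    obtain ⟨j, hj⟩ := hg
    refine ⟨4 * Nat.pair i j + 5, ?_⟩
    have h1 : 4 * Nat.pair i j % 4 = 0 := by omega
    have h2 : 4 * Nat.pair i j / 4 = Nat.pair i j := by omega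
    rw [OCode.ofNat, if_pos h1, h2, Nat.unpair_pair, hi, hj]
  | comp f g hf hg =>
    obtain ⟨i, hi⟩ := hf
    obtain ⟨j, hj⟩ := hg
    refine ⟨4 * Nat.pair i j + 1 + 5, ?_⟩
    have h0 : ¬ (4 * Nat.pair i j + 1) % 4 = 0 := by omega
    have h1 : (4 * Nat.pair i j + 1) % 4 = 1 := by omega
    have h2 : (4 * Nat.pair i j + 1) / 4 = Nat.pair i j := by omega
    rw [OCode.ofNat, if_neg h0, if_pos h1, h2, Nat.unpair_pair, hi, hj]
  | prec f g hf hg =>
    obtain ⟨i, hi⟩ := hf
    obtain ⟨j, hj⟩ := hg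
    refine ⟨4 * Nat.pair i j + 2 + 5, ?_⟩
    have h0 : ¬ (4 * Nat.pair i j + 2) % 4 = 0 := by omega
    have h1 : ¬ (4 * Nat.pair i j + 2) % 4 = 1 := by omega
    have h3 : (4 * Nat.pair i j + 2) % 4 = 2 := by omega
    have h2 : (4 * Nat.pair i j + 2) / 4 = Nat.pair i j := by omega
    rw [OCode.ofNat, if_neg h0, if_neg h1, if_pos h3, h2, Nat.unpair_pair, hi, hj]
  | rfind f hf =>
    obtain ⟨i, hi⟩ := hf
    refine ⟨4 * i + 3 + 5, ?_⟩
    have h0 : ¬ (4 * i + 3) % 4 = 0 := by omega
    have h1 : ¬ (4 * i + 3) % 4 = 1 := by omega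
    have h3 : ¬ (4 * i + 3) % 4 = 2 := by omega
    have h2 : (4 * i + 3) / 4 = i := by omega
    rw [OCode.ofNat, if_neg h0, if_neg h1, if_neg h3, h2, hi]

theorem eval_use (c : OCode) (y : Rl) (n m : ℕ) (h : m ∈ c.eval y n) :
    ∃ t, ∀ y' : Rl, (∀ i < t, y' i = y i) → m ∈ c.eval y' n := by
  induction c generalizing n m with
  | zero => exact ⟨0, fun y' _ => h⟩
  | succ => exact ⟨0, fun y' _ => h⟩
  | left => exact ⟨0, fun y' _ => h⟩
  | right => exact ⟨0, fun y' _ => h⟩
  | oracle =>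
    refine ⟨n + 1, fun y' hy => ?_⟩
    show m ∈ Part.some (y' n).toNat
    rw [hy n (Nat.lt_succ_self n)]
    exact h
  | pair f g hf hg =>
    have h1 : m ∈ (f.eval y n).bind fun a => (g.eval y n).map fun b => Nat.pair a b := h
    obtain ⟨a, ha, h2⟩ := Part.mem_bind_iff.1 h1
    obtain ⟨b, hb, h3⟩ := (Part.mem_map_iff _).1 h2
    obtain ⟨t1, ht1⟩ := hf n a ha
    obtain ⟨t2, ht2⟩ := hg n b hb
    refine ⟨max t1 t2, fun y' hy => ?_⟩
    show m ∈ (f.eval y' n).bind fun a => (g.eval y' n).map fun b => Nat.pair a b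
    refine Part.mem_bind_iff.2 ⟨a, ht1 y' fun i hi => hy i (lt_of_lt_of_le hi (le_max_left _ _)), ?_⟩
    exact (Part.mem_map_iff _).2 ⟨b, ht2 y' fun i hi => hy i (lt_of_lt_of_le hi (le_max_right _ _)), h3⟩
  | comp f g hf hg =>
    have h1 : m ∈ (g.eval y n).bind (f.eval y) := h
    obtain ⟨a, ha, h2⟩ := Part.mem_bind_iff.1 h1
    obtain ⟨t1, ht1⟩ := hg n a ha
    obtain ⟨t2, ht2⟩ := hf a m h2
    refine ⟨max t1 t2, fun y' hy => ?_⟩
    show m ∈ (g.eval y' n).bind (f.eval y')
    exact Part.mem_bind_iff.2 ⟨a, ht1 y' fun i hi => hy i (lt_of_lt_of_le hi (le_max_left _ _)),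
      ht2 y' fun i hi => hy i (lt_of_lt_of_le hi (le_max_right _ _))⟩
  | prec f g hf hg =>
    have key : ∀ (a k r : ℕ), r ∈ (Nat.rec (f.eval y a)
        (fun m IH => IH.bind fun i => g.eval y (Nat.pair a (Nat.pair m i))) k : Part ℕ) →
        ∃ t, ∀ y' : Rl, (∀ i < t, y' i = y i) → r ∈ (Nat.rec (f.eval y' a)
          (fun m IH => IH.bind fun i => g.eval y' (Nat.pair a (Nat.pair m i))) k : Part ℕ) := by
      intro a k
      induction k with
      | zero => exact fun r hr => hf a r hr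
      | succ k ih =>
        intro r hr
        obtain ⟨i, hi, h2⟩ := Part.mem_bind_iff.1 hr
        obtain ⟨t1, ht1⟩ := ih i hi
        obtain ⟨t2, ht2⟩ := hg _ r h2
        refine ⟨max t1 t2, fun y' hy => ?_⟩
        exact Part.mem_bind_iff.2 ⟨i, ht1 y' fun i hi => hy i (lt_of_lt_of_le hi (le_max_left _ _)),
          ht2 y' fun i hi => hy i (lt_of_lt_of_le hi (le_max_right _ _))⟩
    exact key _ _ m h
  | rfind f hf =>
    have h1 : m ∈ Nat.rfind fun m => (f.eval y (Nat.pair n m)).map fun i => decide (i = 0) := h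
    obtain ⟨h2, h3⟩ := Nat.mem_rfind.1 h1
    obtain ⟨a, ha, ha2⟩ := (Part.mem_map_iff _).1 h2
    obtain ⟨t0, ht0⟩ := hf _ a ha
    have hex : ∀ k : ℕ, ∃ t, k < m → ∀ y' : Rl, (∀ i < t, y' i = y i) →
        false ∈ (f.eval y' (Nat.pair n k)).map fun i => decide (i = 0) := by
      intro k
      by_cases hk : k < m
      · obtain ⟨b, hb, hb2⟩ := (Part.mem_map_iff _).1 (h3 hk)
        obtain ⟨t, ht⟩ := hf _ b hb
        exact ⟨t, fun _ y' hy => (Part.mem_map_iff _).2 ⟨b, ht y' hy, hb2⟩⟩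
      · exact ⟨0, fun hk' => absurd hk' hk⟩
    choose t ht using hex
    refine ⟨max t0 ((Finset.range m).sup t), fun y' hy => ?_⟩
    show m ∈ Nat.rfind fun m => (f.eval y' (Nat.pair n m)).map fun i => decide (i = 0)
    refine Nat.mem_rfind.2 ⟨?_, fun {k} hk => ?_⟩
    · exact (Part.mem_map_iff _).2 ⟨a, ht0 y' fun i hi => hy i (lt_of_lt_of_le hi (le_max_left _ _)), ha2⟩
    · refine ht k hk y' fun i hi => hy i (lt_of_lt_of_le hi ((Finset.le_sup (f := t) ?_).trans
        (le_max_right _ _)))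
      exact Finset.mem_range.2 hk

theorem Phi_use (i : ℕ) (y : Rl) (n m : ℕ) (h : m ∈ Phi y i n) :
    ∃ t, ∀ y' : Rl, (∀ j < t, y' j = y j) → m ∈ Phi y' i n :=
  eval_use _ y n m h

/-- code of a constant function -/
def Cod_const : ℕ → OCode
  | 0 => OCode.zero
  | e + 1 => OCode.comp OCode.succ (Cod_const e)

theorem Cod_const_eval (y : Rl) (e n : ℕ) : (Cod_const e).eval y n = Part.some e := by
  induction e with
  | zero => rfl
  | succ e ih =>
    show ((Cod_const e).eval y n).bind (OCode.succ.eval y) = Part.some (e + 1)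
    rw [ih]
    exact Part.bind_some e (OCode.succ.eval y)

/-- code of `n ↦ Nat.pair e n` -/
def Cod_pr (e : ℕ) : OCode := OCode.pair (Cod_const e) (OCode.pair OCode.left OCode.right)

theorem Cod_pr_eval (y : Rl) (e n : ℕ) : (Cod_pr e).eval y n = Part.some (Nat.pair e n) := by
  show ((Cod_const e).eval y n).bind (fun a =>
    (((OCode.left).eval y n).bind fun a => ((OCode.right).eval y n).map fun b => Nat.pair a b).map
      fun b => Nat.pair a b) = Part.some (Nat.pair e n)
  rw [Cod_const_eval, Part.bind_some]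
  show ((Part.some n.unpair.1).bind fun a => (Part.some n.unpair.2).map fun b => Nat.pair a b).map
    (fun b => Nat.pair e b) = Part.some (Nat.pair e n)
  rw [Part.bind_some, Part.map_some, Part.map_some, Nat.pair_unpair]

theorem Cod_comp_pr (y : Rl) (c : OCode) (e n : ℕ) :
    (OCode.comp c (Cod_pr e)).eval y n = c.eval y (Nat.pair e n) := by
  show ((Cod_pr e).eval y n).bind (c.eval y) = c.eval y (Nat.pair e n)
  rw [Cod_pr_eval]
  exact Part.bind_some _ _

theorem smn_exists : ∃ S : ℕ → ℕ → ℕ, ∀ y i e n, Phi y (S i e) n = Phi y i (Nat.pair e n) := by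
  have hex : ∀ i e : ℕ, ∃ s, OCode.ofNat s = OCode.comp (OCode.ofNat i) (Cod_pr e) :=
    fun i e => ofNat_surj _
  choose S hS using hex
  refine ⟨S, fun y i e n => ?_⟩
  show (OCode.ofNat (S i e)).eval y n = (OCode.ofNat i).eval y (Nat.pair e n)
  rw [hS, Cod_comp_pr]

/-- The function of the `s-m-n` theorem. -/
noncomputable def smn : ℕ → ℕ → ℕ := Classical.choose smn_exists

theorem smn_spec (y : Rl) (i e n : ℕ) : Phi y (smn i e) n = Phi y i (Nat.pair e n) :=
  Classical.choose_spec smn_exists y i e n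

/-- substitution for the oracle -/
def Cod_sub (d : OCode) : OCode → OCode
  | OCode.zero => OCode.zero
  | OCode.succ => OCode.succ
  | OCode.left => OCode.left
  | OCode.right => OCode.right
  | OCode.oracle => d
  | OCode.pair f g => OCode.pair (Cod_sub d f) (Cod_sub d g)
  | OCode.comp f g => OCode.comp (Cod_sub d f) (Cod_sub d g)
  | OCode.prec f g => OCode.prec (Cod_sub d f) (Cod_sub d g)
  | OCode.rfind f => OCode.rfind (Cod_sub d f)

theorem Cod_sub_eval {b c : Rl} {d : OCode} (hd : ∀ n, d.eval c n = Part.some (b n).toNat) (e : OCode) :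
    (Cod_sub d e).eval c = e.eval b := by
  induction e with
  | zero => rfl
  | succ => rfl
  | left => rfl
  | right => rfl
  | oracle => exact funext hd
  | pair f g hf hg =>
    funext n
    show (((Cod_sub d f).eval c n).bind fun a => ((Cod_sub d g).eval c n).map fun b => Nat.pair a b) =
      (f.eval b n).bind fun a => (g.eval b n).map fun b => Nat.pair a b
    rw [hf, hg]
  | comp f g hf hg =>
    funext n
    show ((Cod_sub d g).eval c n).bind ((Cod_sub d f).eval c) = (g.eval b n).bind (f.eval b)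
    rw [hf, hg]
  | prec f g hf hg =>
    funext n
    show (Nat.rec ((Cod_sub d f).eval c n.unpair.1)
        (fun m IH => IH.bind fun i => (Cod_sub d g).eval c (Nat.pair n.unpair.1 (Nat.pair m i)))
          n.unpair.2 : Part ℕ) =
      (Nat.rec (f.eval b n.unpair.1)
        (fun m IH => IH.bind fun i => g.eval b (Nat.pair n.unpair.1 (Nat.pair m i))) n.unpair.2 : Part ℕ)
    rw [hf, hg]
  | rfind f hf =>
    funext n
    show (Nat.rfind fun m => ((Cod_sub d f).eval c (Nat.pair n m)).map fun i => decide (i = 0)) =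
      Nat.rfind fun m => (f.eval b (Nat.pair n m)).map fun i => decide (i = 0)
    rw [hf]

theorem TRed_refl (x : Rl) : TRed x x := by
  refine ⟨4, fun n => ?_⟩
  show (OCode.ofNat 4).eval x n = Part.some (x n).toNat
  rw [OCode.ofNat]
  rfl

theorem TRed_trans (a b c : Rl) (h1 : TRed a b) (h2 : TRed b c) : TRed a c := by
  obtain ⟨i, hi⟩ := h1
  obtain ⟨j, hj⟩ := h2
  obtain ⟨k, hk⟩ := ofNat_surj (Cod_sub (OCode.ofNat j) (OCode.ofNat i))
  refine ⟨k, fun n => ?_⟩
  show (OCode.ofNat k).eval c n = Part.some (a n).toNat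
  rw [hk, Cod_sub_eval hj]
  exact hi n

theorem exists_join (c : ℕ → Rl) : ∃ d : Rl, ∀ y, TRed d y → ∀ n, TRed (c n) y := by
  refine ⟨fun k => c k.unpair.1 k.unpair.2, fun y hy n => TRed_trans _ _ _ ?_ hy⟩
  obtain ⟨i, hi⟩ := ofNat_surj (OCode.comp OCode.oracle (Cod_pr n))
  refine ⟨i, fun k => ?_⟩
  show (OCode.ofNat i).eval _ k = Part.some (c n k).toNat
  rw [hi, Cod_comp_pr]
  show Part.some (c (Nat.pair n k).unpair.1 (Nat.pair n k).unpair.2).toNat = Part.some (c n k).toNat
  rw [Nat.unpair_pair]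

end Pool.Agent.NI
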