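import Pool.Agent.NI.Defs

/-!
# MP_053ed5_lc: the objects of the proof
-/

namespace Pool.Agent.NI

open Cardinal

/-- The initial segment of length `n`. -/
def pre {α : Type} (f : ℕ → α) (n : ℕ) : List α := (List.range n).map f

/-- The rank of `p` with respect to the relation `R` (`R q p`: `q` is below `p`) is at least `b`. -/
def Rk {α : Type} (R : α → α → Prop) (b : Ordinal.{0}) (p : α) : Prop :=
  ∀ c : Ordinal.{0}, (h : c < b) → ∃ q, R q p ∧ Rk R c q
termination_by b
decreasing_by exact h

/-! ### Inverse systems and torsor towers -/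

/-- The group of finite subsets of `ℕ`. -/
abbrev V : Type := ℕ →₀ ZMod 2

/-- The parity. -/
noncomputable def ep (v : V) : ZMod 2 := v.sum fun _ a => a

/-- The map of groups induced by the `n`-th map of the inverse system `F`. -/
noncomputable def push (F : ℕ → ℕ → ℕ) (n : ℕ) (v : V) : V := v.mapDomain (F n)

/-- The inverse system has a thread. -/
def Thread (F : ℕ → ℕ → ℕ) : Prop := ∃ i : ℕ → ℕ, ∀ n, F n (i (n + 1)) = i n

/-- `q` is a child of `p` in the tree of the inverse system. -/
def ChF (F : ℕ → ℕ → ℕ) (q p : ℕ × ℕ) : Prop := q.1 = p.1 + 1 ∧ F p.1 q.2 = p.2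

/-- `q` is a child of `p` in the group tree. -/
def ChG (F : ℕ → ℕ → ℕ) (q p : ℕ × V) : Prop :=
  q.1 = p.1 + 1 ∧ ep q.2 = 0 ∧ p.2 = push F p.1 q.2

/-- `q` is a child of `p` in the torsor tree given by the cocycle `ξ`. -/
def ChT (F : ℕ → ℕ → ℕ) (ξ : ℕ → V) (q p : ℕ × V) : Prop :=
  q.1 = p.1 + 1 ∧ ep q.2 = 0 ∧ p.2 = push F p.1 q.2 + ξ p.1

/-- The cocycle `ξ` is trivial. -/
def Triv (F : ℕ → ℕ → ℕ) (ξ : ℕ → V) : Prop :=
  ∃ g : ℕ → V, ∀ n, ep (g n) = 0 ∧ g n = push F n (g (n + 1)) + ξ n

instance : Countable V := by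
  have : Countable (ZMod 2) := inferInstance
  infer_instance

instance : Infinite V := inferInstance

/-- A fixed numbering of the group `V`. -/
noncomputable def dec : ℕ ≃ V := (nonempty_equiv_of_countable (α := ℕ) (β := V)).some

/-- A fixed numbering of `ℕ × V`. -/
noncomputable def thz : ℕ ≃ ℕ × V := (nonempty_equiv_of_countable (α := ℕ) (β := ℕ × V)).some

/-- The vocabulary: `4 p`: the real; `4 p + 1`: the levels with parity; `4 p + 2`: the action of
`dec p`; `4 p + 3`: the map from level `p + 1` to level `p`. -/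
def VT : Voc := fun k => if k % 4 < 2 then 1 else 2

/-- The structure of the real `x` and the torsor tower over `F` with cocycle `κ`, with universe
identified with `ℕ × V` (level, coordinate) by `θ`. -/
noncomputable def Std (x : Rl) (F : ℕ → ℕ → ℕ) (κ : ℕ → V) (θ : ℕ ≃ ℕ × V) : Str VT where
  rel k l :=
    (∃ p z, k = 4 * p ∧ l = [z] ∧ x p = true) ∨
    (∃ p z, k = 4 * p + 1 ∧ l = [z] ∧ (θ z).1 = p / 2 ∧ ep (θ z).2 = ((p % 2 : ℕ) : ZMod 2)) ∨
    (∃ p z z', k = 4 * p + 2 ∧ l = [z, z'] ∧ (θ z').1 = (θ z).1 ∧ (θ z').2 = (θ z).2 + dec p) ∨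
    (∃ p z z', k = 4 * p + 3 ∧ l = [z, z'] ∧ (θ z).1 = p + 1 ∧ (θ z').1 = p ∧
      (θ z').2 = push F p (θ z).2 + κ p)
  len := by
    intro k l h
    unfold VT
    rcases h with ⟨p, z, hk, hl, -⟩ | ⟨p, z, hk, hl, -⟩ | ⟨p, z, z', hk, hl, -⟩ |
      ⟨p, z, z', hk, hl, -⟩
    · subst hk hl
      rw [if_pos (by omega)]
      rfl
    · subst hk hl
      rw [if_pos (by omega)]
      rfl
    · subst hk hl
      rw [if_neg (by omega)]
      rfl
    · subst hk hl
      rw [if_neg (by omega)]
      rfl

/-! ### Data coded by a real -/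

/-- The bit which says that the `n`-th map of the inverse system maps `k` to `j`. -/
def cF (n k j : ℕ) : ℕ := Nat.pair 0 (Nat.pair n (Nat.pair k j))

/-- `x` codes an inverse system. -/
def IsSys (x : Rl) : Prop := ∀ n k, ∃! j, x (cF n k j) = true

/-- The inverse system coded by `x`. -/
noncomputable def sysF (x : Rl) (n k : ℕ) : ℕ := sInf {j | x (cF n k j) = true}

/-- The first relation coded by `x`. -/
def Lr (x : Rl) (a b : ℕ) : Prop := x (Nat.pair 1 (Nat.pair a b)) = true

/-- The second relation coded by `x`. -/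
def Lr' (x : Rl) (a b : ℕ) : Prop := x (Nat.pair 2 (Nat.pair a b)) = true

/-- The sets of nodes coded by `x`. -/
def tS (x : Rl) (b c : ℕ) (u : List (Bool × ℕ)) : Prop :=
  x (Nat.pair 3 (Nat.pair b (Nat.pair c (Encodable.encode u)))) = true

/-- The sequence of reals coded by `x`. -/
def cY (x : Rl) (j : ℕ) : Rl := fun n => x (Nat.pair 4 (Nat.pair j n))

/-- The last real coded by `x`. -/
def cW (x : Rl) : Rl := fun n => x (Nat.pair 5 n)

open Classical in
/-- The inverse system of a tree of finite sequences: level `n` consists of all natural numbers; the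
codes of the sequences of length `n` in the tree are the nodes of the tree, the other numbers are
dead nodes (the children of a dead node `k` are dead nodes and smaller than `k`). -/
noncomputable def FV (T : List ℕ → Prop) (n k : ℕ) : ℕ :=
  if (Denumerable.ofNat (List ℕ) k).length = n + 1 ∧ T (Denumerable.ofNat (List ℕ) k) then
    Encodable.encode (Denumerable.ofNat (List ℕ) k).dropLast
  else k + 1

/-- The finite `R`-descending sequences. -/
def Desc (R : ℕ → ℕ → Prop) (s : List ℕ) : Prop := s.IsChain fun a b => R b a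

/-- The structures of the real `x ∈ D` and a torsor tower over the inverse system of `x`. -/
def KD (D : Set Rl) : Set (Str VT) :=
  {M | ∃ x ∈ D, ∃ κ : ℕ → V, ∃ θ : ℕ ≃ ℕ × V, (∀ n, ep (κ n) = 0) ∧ M = Std x (sysF x) κ θ}

/-- The reals which code an inverse system. -/
def DAll : Set Rl := {x | IsSys x}

/-! ### The coanalytic set `P` and the certificates

`B` is a set of pairs of finite sequences, `P` is the set of the reals `y` such that the tree
`{s | B s (y restricted to the length of s)}` has no infinite branch. -/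

/-- `B` is closed under initial segments. -/
def PC (B : List ℕ → List Bool → Prop) : Prop :=
  ∀ (s : List ℕ) (a : ℕ) (t : List Bool) (b : Bool), B (s ++ [a]) (t ++ [b]) → B s t

/-- The coanalytic set given by `B`. -/
def PB (B : List ℕ → List Bool → Prop) : Set Rl :=
  {y | ¬ ∃ z : ℕ → ℕ, ∀ n, B (pre z n) (pre y n)}

/-- The child relation of the tree of `y`. -/
def ChR (B : List ℕ → List Bool → Prop) (y : Rl) (q p : List ℕ) : Prop :=
  ∃ a, q = p ++ [a] ∧ B q (pre y q.length)

/-- `f` is a decreasing map from the tree of `y` to the `L`-predecessors of `b`. -/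
def Gd (B : List ℕ → List Bool → Prop) (L : ℕ → ℕ → Prop) (b : ℕ) (y : Rl) (f : ℕ → ℕ) : Prop :=
  ∀ s : List ℕ, B s (pre y s.length) →
    (s = [] → L (f (Encodable.encode s)) b) ∧
    ∀ s' a, s = s' ++ [a] → L (f (Encodable.encode s)) (f (Encodable.encode s'))

/-- The tree of the finite approximations of pairs `(y, f)` with `Gd B L b y f`. -/
def TB (B : List ℕ → List Bool → Prop) (L : ℕ → ℕ → Prop) (b : ℕ) (u : List (Bool × ℕ)) : Prop :=
  ∀ s : List ℕ, Encodable.encode s < u.length → s.length ≤ u.length →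
    B s ((u.map Prod.fst).take s.length) →
    (s = [] → L (u.getD (Encodable.encode s) (false, 0)).2 b) ∧
    ∀ s' a, s = s' ++ [a] → Encodable.encode s' < u.length →
      L (u.getD (Encodable.encode s) (false, 0)).2 (u.getD (Encodable.encode s') (false, 0)).2

/-- `u` has two extensions in `T` with incompatible first parts. -/
def Split (T : List (Bool × ℕ) → Prop) (u : List (Bool × ℕ)) : Prop :=
  ∃ u₀ u₁, T u₀ ∧ T u₁ ∧ u <+: u₀ ∧ u <+: u₁ ∧
    ¬ u₀.map Prod.fst <+: u₁.map Prod.fst ∧ ¬ u₁.map Prod.fst <+: u₀.map Prod.fst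

/-- `x` codes a certificate: derivatives of the trees `TB B (Lr x) b` along the relation `Lr' x`
which reach the empty set, a list of all reals isolated in this process, and a real which is not
computable from any real of the list. -/
structure Cert (B : List ℕ → List Bool → Prop) (x : Rl) : Prop where
  der : ∀ b c u, tS x b c u ↔
    (TB B (Lr x) b u ∧ ∀ c', Lr' x c' c → Split (tS x b c') u)
  van : ∀ b, ∃ c₀, (∀ u, ¬ tS x b c₀ u) ∧ ∀ c, Lr' x c c₀ → ∃ u, tS x b c u
  iso : ∀ b c u, tS x b c u → ¬ Split (tS x b c) u →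
    ∃ j, ∀ v, u <+: v → tS x b c v → v.map Prod.fst = pre (cY x j) v.length
  out : ∀ j, ¬ TRed (cW x) (cY x j)

/-- The reals which code the inverse system of descending sequences of a relation, together with a
certificate. -/
def DB (B : List ℕ → List Bool → Prop) : Set Rl :=
  {x | IsSys x ∧ sysF x = FV (Desc (Lr x)) ∧ Cert B x}

/-- The relation `E` on `ℕ`: on top of `ω` the tree of `y`, and on top of it `ω * ω`. -/
def ER (B : List ℕ → List Bool → Prop) (y : Rl) (q p : ℕ) : Prop :=
  (∃ m m', p = Nat.pair 0 m ∧ q = Nat.pair 0 m' ∧ m' < m) ∨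
  (∃ s m', p = Nat.pair 1 (Encodable.encode (s : List ℕ)) ∧ q = Nat.pair 0 m') ∨
  (∃ s a, p = Nat.pair 1 (Encodable.encode (s : List ℕ)) ∧
    q = Nat.pair 1 (Encodable.encode (s ++ [a])) ∧ B (s ++ [a]) (pre y (s.length + 1))) ∨
  (∃ c m', p = Nat.pair 2 c ∧ q = Nat.pair 0 m') ∨
  (∃ c s, p = Nat.pair 2 c ∧ q = Nat.pair 1 (Encodable.encode (s : List ℕ)) ∧
    B s (pre y s.length)) ∨
  (∃ c c', p = Nat.pair 2 c ∧ q = Nat.pair 2 c' ∧
    (c'.unpair.1 < c.unpair.1 ∨ (c'.unpair.1 = c.unpair.1 ∧ c'.unpair.2 < c.unpair.2)))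

/-! ### Continuous functionals -/

/-- The relation `H y n m` depends only on finitely many bits of `y`. -/
def Ct (H : Rl → ℕ → ℕ → Prop) : Prop :=
  ∀ y n m, H y n m → ∃ t, ∀ y' : Rl, (∀ i < t, y' i = y i) → H y' n m

/-- `H y` is single valued. -/
def Sv (H : Rl → ℕ → ℕ → Prop) : Prop := ∀ y n m m', H y n m → H y n m' → m = m'

end Pool.Agent.NI
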