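import Pool.Agent.NI.Cod

/-!
# Fun: every continuous functional is computable above some oracle

Let `pc y t` be a code of the first `t` bits: `pc y 0 = 0`, `pc y (t + 1) = Nat.pair (pc y t) (y t).toNat`
(for fixed `t` it determines the first `t` bits). Let `h n t p = m + 1` if
`∃ y', pc y' t = p` and `∀ y', pc y' t = p → H y' n m` (`m` is unique by `Sv`), `h n t p = 0` if there is no
such `m`. Let `c : Rl` be (a coding of) the graph of `h`:
`c (Nat.pair (Nat.pair n (Nat.pair t p)) v) = true ↔ h n t p = v`.
If `TRed c y`: the partial function `n ↦ (the least t with h n t (pc y t) ≠ 0; output h n t (pc y t) - 1)` is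
computed by a code: `pc y` by `prec` with the oracle, `h` by `rfind` over the values `v` from `c`, which is
computed by the code of the reduction; combine with `rfind`, `comp`. It is `H y n`: if `m` is an output then
`H y n m`; if `H y n m` then by `Ct` for all large `t` `h n t (pc y t) = m + 1`, and the least `t` with a
nonzero value gives a value `m'` with `H y n m'`, so `m' = m`. Use `ofNat_surj` to get the index.
A convenient way to organize it: the class of total functions `f : ℕ → ℕ` which have a code with oracle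
`y` (`∃ c, ∀ n, c.eval y n = Part.some (f n)`) is closed under composition, pairing, primitive recursion and
total minimization, and contains the successor, the projections and the oracle.
-/

namespace Pool.Agent.NI

/-- the code of the first `t` bits -/
def Fun_pc (y : Rl) : ℕ → ℕ
  | 0 => 0
  | t + 1 => Nat.pair (Fun_pc y t) (y t).toNat

theorem Fun_pc_inj (y y' : Rl) (t : ℕ) (h : Fun_pc y' t = Fun_pc y t) : ∀ i < t, y' i = y i := by
  induction t with
  | zero => intro i hi; omega
  | succ t ih =>
    simp only [Fun_pc] at h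
    have h1 := Nat.pair_eq_pair.1 h
    intro i hi
    rcases Nat.lt_succ_iff_lt_or_eq.1 hi with h2 | h2
    · exact ih h1.1 i h2
    · subst h2
      have := h1.2
      revert this
      cases y' i <;> cases y i <;> simp

theorem Fun_comp (y : Rl) (f g : OCode) (n : ℕ) :
    (OCode.comp f g).eval y n = (g.eval y n).bind (fun a => f.eval y a) := rfl

theorem Fun_pair (y : Rl) (f g : OCode) (n : ℕ) :
    (OCode.pair f g).eval y n =
      (f.eval y n).bind fun a => (g.eval y n).map fun b => Nat.pair a b := rfl

theorem Fun_rfind (y : Rl) (f : OCode) (n : ℕ) :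
    (OCode.rfind f).eval y n =
      Nat.rfind fun m => (f.eval y (Nat.pair n m)).map fun i => i = 0 := rfl

/-- the code of the identity -/
def Fun_id : OCode := OCode.pair OCode.left OCode.right

theorem Fun_id_eval (y : Rl) (n : ℕ) : Fun_id.eval y n = Part.some n := by
  simp [Fun_id, OCode.eval, Part.bind_some, Part.map_some, Nat.pair_unpair]

/-- the code which computes the codes of the initial segments -/
def Fun_pcc : OCode :=
  OCode.comp
    (OCode.prec OCode.zero (OCode.pair (OCode.comp OCode.right OCode.right)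
      (OCode.comp OCode.oracle (OCode.comp OCode.left OCode.right))))
    (OCode.pair OCode.zero Fun_id)

theorem Fun_pcc_eval (y : Rl) (t : ℕ) : Fun_pcc.eval y t = Part.some (Fun_pc y t) := by
  have h : ∀ a s : ℕ, (OCode.prec OCode.zero (OCode.pair (OCode.comp OCode.right OCode.right)
      (OCode.comp OCode.oracle (OCode.comp OCode.left OCode.right)))).eval y (Nat.pair a s) =
      Part.some (Fun_pc y s) := by
    intro a s
    induction s with
    | zero => simp [OCode.eval, Fun_pc]
    | succ s ih =>
      simp only [OCode.eval, Nat.unpair_pair] at ih ⊢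
      rw [ih]
      simp [Part.bind_some, Part.map_some, Nat.unpair_pair, Fun_pc]
  have h2 : (OCode.pair OCode.zero Fun_id).eval y t = Part.some (Nat.pair 0 t) := by
    simp [OCode.eval, Fun_id_eval]
  rw [Fun_pcc, Fun_comp, h2, Part.bind_some, h]

/-- the code of the argument of the table -/
def Fun_K : OCode := OCode.pair Fun_id (OCode.comp Fun_pcc (OCode.comp OCode.left OCode.right))

theorem Fun_K_eval (y : Rl) (x : ℕ) :
    Fun_K.eval y x = Part.some (Nat.pair x (Fun_pc y x.unpair.2.unpair.1)) := by
  have h2 : (OCode.comp OCode.left OCode.right).eval y x = Part.some x.unpair.2.unpair.1 := by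
    simp [OCode.eval]
  rw [Fun_K, Fun_pair, Fun_id_eval, Fun_comp, h2, Part.bind_some, Part.bind_some, Fun_pcc_eval,
    Part.map_some]

/-- the table -/
def Fun_P (H : Rl → ℕ → ℕ → Prop) (n t m p : ℕ) : Prop :=
  ∀ y', Fun_pc y' t = p → H y' n m

open Classical in
/-- the oracle which codes the table -/
noncomputable def Fun_c (H : Rl → ℕ → ℕ → Prop) : Rl := fun z =>
  decide (¬ Fun_P H z.unpair.1.unpair.1 z.unpair.1.unpair.2.unpair.1 z.unpair.1.unpair.2.unpair.2
    z.unpair.2)

open Classical in
theorem Fun_c_app (H : Rl → ℕ → ℕ → Prop) (z : ℕ) : Fun_c H z =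
    decide (¬ Fun_P H z.unpair.1.unpair.1 z.unpair.1.unpair.2.unpair.1
      z.unpair.1.unpair.2.unpair.2 z.unpair.2) := rfl

theorem Fun_c_eq (H : Rl → ℕ → ℕ → Prop) (n t m p : ℕ) :
    (Fun_c H (Nat.pair (Nat.pair n (Nat.pair t m)) p)).toNat = 0 ↔ Fun_P H n t m p := by
  rw [Fun_c_app]
  by_cases h : Fun_P H n t m p <;> simp [h]

theorem ct_index (H : Rl → ℕ → ℕ → Prop) (hc : Ct H) (hs : Sv H) :
    ∃ c : Rl, ∀ y, TRed c y → ∃ i, ∀ n m, m ∈ Phi y i n ↔ H y n m := by
  refine ⟨Fun_c H, fun y hy => ?_⟩
  obtain ⟨j, hj⟩ := hy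
  obtain ⟨i, hi⟩ := ofNat_surj (OCode.comp OCode.right (OCode.rfind
    (OCode.comp (OCode.ofNat j) Fun_K)))
  refine ⟨i, fun n m => ?_⟩
  have hE : ∀ x, (OCode.comp (OCode.ofNat j) Fun_K).eval y x =
      Part.some (Fun_c H (Nat.pair x (Fun_pc y x.unpair.2.unpair.1))).toNat := by
    intro x
    rw [Fun_comp, Fun_K_eval, Part.bind_some]
    exact hj _
  have hR : ∀ u, u ∈ (OCode.rfind (OCode.comp (OCode.ofNat j) Fun_K)).eval y n →
      H y n u.unpair.2 := by
    intro u hu
    rw [Fun_rfind] at hu
    have h1 := (Nat.mem_rfind.1 hu).1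
    rw [hE, Part.map_some, Part.mem_some_iff] at h1
    have h2 : (Fun_c H (Nat.pair (Nat.pair n u) (Fun_pc y (Nat.pair n u).unpair.2.unpair.1))).toNat
        = 0 := by
      simpa using h1.symm
    have h3 : u = Nat.pair u.unpair.1 u.unpair.2 := (Nat.pair_unpair u).symm
    rw [Nat.unpair_pair] at h2
    have h4 : Fun_P H n u.unpair.1 u.unpair.2 (Fun_pc y u.unpair.1) := by
      rw [← Fun_c_eq, ← h3]
      exact h2
    exact h4 y rfl
  have hPhi : Phi y i n = ((OCode.rfind (OCode.comp (OCode.ofNat j) Fun_K)).eval y n).bind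
      (fun a => OCode.right.eval y a) := by
    rw [Phi, hi, Fun_comp]
  rw [hPhi]
  constructor
  · intro hm
    obtain ⟨u, hu, hu'⟩ := Part.mem_bind_iff.1 hm
    have h1 : m = u.unpair.2 := by
      simpa [OCode.eval] using hu'
    rw [h1]
    exact hR u hu
  · intro hH
    obtain ⟨t, ht⟩ := hc y n m hH
    have hP : Fun_P H n t m (Fun_pc y t) := fun y' hy' => ht y' (Fun_pc_inj y y' t hy')
    have hdom : ((OCode.rfind (OCode.comp (OCode.ofNat j) Fun_K)).eval y n).Dom := by
      rw [Fun_rfind]
      refine Nat.rfind_dom.2 ⟨Nat.pair t m, ?_, ?_⟩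
      · rw [hE, Part.map_some, Part.mem_some_iff]
        have := (Fun_c_eq H n t m (Fun_pc y t)).2 hP
        simp [Nat.unpair_pair, this]
      · intro k hk
        rw [hE, Part.map_some]
        trivial
    obtain ⟨u, hu⟩ := Part.dom_iff_mem.1 hdom
    have h1 := hR u hu
    have h2 : u.unpair.2 = m := hs y n _ _ h1 hH
    refine Part.mem_bind_iff.2 ⟨u, hu, ?_⟩
    simp [OCode.eval, h2]

end Pool.Agent.NI
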