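import Pool.Agent.NI.Cod

/-!
# Adq: the Turing functionals `Phi y i` are exactly the partial functions recursive in `y`
-/

namespace Pool.Agent.NI

/-- The oracle `y` as a partial function. -/
def orc (y : Rl) : ℕ →. ℕ := fun n => Part.some (y n).toNat

theorem adq_code (y : Rl) (c : OCode) : Nat.RecursiveIn {orc y} (c.eval y) := by
  induction c with
  | zero => exact Nat.RecursiveIn.zero
  | succ => exact Nat.RecursiveIn.succ
  | left => exact Nat.RecursiveIn.left
  | right => exact Nat.RecursiveIn.right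
  | oracle => exact Nat.RecursiveIn.oracle _ rfl
  | pair f g hf hg =>
    refine (Nat.RecursiveIn.pair hf hg).of_eq fun n => ?_
    simp only [OCode.eval]
    simp [Seq.seq, Part.bind_map, Functor.map]
  | comp f g hf hg => exact Nat.RecursiveIn.comp hf hg
  | prec f g hf hg =>
    refine (Nat.RecursiveIn.prec hf hg).of_eq fun n => ?_
    simp only [OCode.eval]
    rfl
  | rfind f hf =>
    refine (Nat.RecursiveIn.rfind hf).of_eq fun n => ?_
    simp only [OCode.eval]
    rfl

theorem adq_rec (y : Rl) (f : ℕ →. ℕ) (hf : Nat.RecursiveIn {orc y} f) : ∃ c : OCode, c.eval y = f := by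
  induction hf with
  | zero => exact ⟨OCode.zero, rfl⟩
  | succ => exact ⟨OCode.succ, rfl⟩
  | left => exact ⟨OCode.left, rfl⟩
  | right => exact ⟨OCode.right, rfl⟩
  | oracle g hg =>
    rw [Set.mem_singleton_iff] at hg
    exact ⟨OCode.oracle, hg.symm⟩
  | pair _ _ hf hh =>
    obtain ⟨a, rfl⟩ := hf
    obtain ⟨b, rfl⟩ := hh
    refine ⟨OCode.pair a b, ?_⟩
    funext n
    simp only [OCode.eval]
    simp [Seq.seq, Part.bind_map, Functor.map]
  | comp _ _ hf hh =>
    obtain ⟨a, rfl⟩ := hf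
    obtain ⟨b, rfl⟩ := hh
    exact ⟨OCode.comp a b, rfl⟩
  | prec _ _ hf hh =>
    obtain ⟨a, rfl⟩ := hf
    obtain ⟨b, rfl⟩ := hh
    refine ⟨OCode.prec a b, ?_⟩
    funext n
    simp only [OCode.eval]
    rfl
  | rfind _ hf =>
    obtain ⟨a, rfl⟩ := hf
    refine ⟨OCode.rfind a, ?_⟩
    funext n
    simp only [OCode.eval]
    rfl

/-- The functionals `Phi y i` are exactly the partial functions recursive in `y`. -/
theorem phi_adequate (y : Rl) (f : ℕ →. ℕ) :
    (∃ i, Phi y i = f) ↔ Nat.RecursiveIn {orc y} f := by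
  constructor
  · rintro ⟨i, rfl⟩
    exact adq_code y _
  · intro hf
    obtain ⟨c, hc⟩ := adq_rec y f hf
    obtain ⟨i, hi⟩ := ofNat_surj c
    exact ⟨i, by simp only [Phi, hi]; exact hc⟩

/-- Turing reducibility. -/
theorem tred_adequate (c y : Rl) : TRed c y ↔ Nat.RecursiveIn {orc y} (orc c) := by
  rw [← phi_adequate]
  constructor
  · rintro ⟨i, hi⟩
    exact ⟨i, funext hi⟩
  · rintro ⟨i, hi⟩
    exact ⟨i, fun n => congrFun hi n⟩

end Pool.Agent.NI
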