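import Pool.Agent.NI.Defs

/-!
# CHv: the continuum hypothesis implies Vaught's conjecture as stated

`numModels f = #(Quot (isoRel f)) ≤ #(Mod f) ≤ #(Str L) ≤ #(ℕ → List ℕ → Prop) = 2 ^ ℵ₀`
(`Cardinal.mk_quot_le` or `Cardinal.mk_le_of_surjective`; `Str L` embeds into `ℕ → List ℕ → Prop`, i.e. into the
sets of `ℕ × List ℕ`). If it is not `≤ ℵ₀` then `ℵ₁ ≤ numModels f` (`Cardinal.aleph_succ`,
`Order.succ_le_of_lt`), so it is `2 ^ ℵ₀` by the hypothesis.
-/

namespace Pool.Agent.NI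

open Cardinal

theorem CHv_str (L : Voc) : #(Str L) ≤ 2 ^ ℵ₀ := by
  have h1 : Function.Injective (fun M : Str L => {p : ℕ × List ℕ | M.rel p.1 p.2}) := by
    intro M N h
    have h2 : M.rel = N.rel := by
      funext k l
      apply propext
      have h3 : (k, l) ∈ {p : ℕ × List ℕ | M.rel p.1 p.2} ↔ (k, l) ∈ {p : ℕ × List ℕ | N.rel p.1 p.2} := by
        have h4 : {p : ℕ × List ℕ | M.rel p.1 p.2} = {p : ℕ × List ℕ | N.rel p.1 p.2} := h
        rw [h4]
      exact h3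
    cases M
    cases N
    cases h2
    rfl
  have h5 := Cardinal.mk_le_of_injective h1
  rw [Cardinal.mk_set] at h5
  have h6 : #(ℕ × List ℕ) = ℵ₀ := Cardinal.mk_eq_aleph0 _
  rwa [h6] at h5

theorem VC_of_CH (h : (2 : Cardinal.{0}) ^ (ℵ₀ : Cardinal.{0}) = Cardinal.aleph 1) : VC := by
  intro L f
  have h1 : numModels f ≤ 2 ^ ℵ₀ :=
    (Cardinal.mk_quot_le).trans ((Cardinal.mk_subtype_le _).trans (CHv_str L))
  by_cases h2 : numModels f ≤ ℵ₀
  · exact Or.inl h2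
  · right
    refine le_antisymm h1 ?_
    rw [h, ← Cardinal.succ_aleph0]
    exact Order.succ_le_of_lt (not_le.1 h2)

end Pool.Agent.NI
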