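import Pool.Agent.NI.TBl

/-!
# Cnt: Cantor schemes

Choose `U : List Bool → List (Bool × ℕ)` by recursion on the length with `T (length t) (U t)`, and for
`i = false, true` `U (t ++ [i])` the two nodes `u₀, u₁` of `Split (T (n + 1)) (U t)`. They are proper extensions
of `U t` (their first parts are incompatible, so none of them is `U t`), so the length of `U (pre z n)` is
at least `n`, and there is a unique `g_z : ℕ → Bool × ℕ` such that all `U (pre z n)` are initial segments of
`g_z`. By `TB_pre`, `TB_branch` and `Gd_mem_PB` the real `f z = fun n => (g_z n).1` is in `PB B`. `f` is injective: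
if `n` is the first difference of `z, z'`, then the first parts of `U (pre z (n + 1))` and
`U (pre z' (n + 1))` are incompatible. `f` is continuous: `(f z) n` depends only on `pre z (n + 1)`
(`continuous_pi`, locally constant).
-/

namespace Pool.Agent.NI

theorem Cnt_pre_mono {α : Type} (g : ℕ → α) {m n : ℕ} (h : m ≤ n) : pre g m <+: pre g n := by
  obtain ⟨k, rfl⟩ := Nat.exists_eq_add_of_le h
  unfold pre
  rw [List.range_add, List.map_append]
  exact List.prefix_append _ _

theorem Cnt_eq_pre {α : Type} (g : ℕ → α) (l : List α)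
    (h : ∀ k (hk : k < l.length), l[k] = g k) : l = pre g l.length := by
  apply List.ext_getElem
  · simp [pre]
  · intro k h1 h2
    rw [h k h1]
    simp [pre]

theorem cantor_scheme (B : List ℕ → List Bool → Prop) (L : ℕ → ℕ → Prop) (b : ℕ) (hb : Acc L b)
    (T : ℕ → List (Bool × ℕ) → Prop) (h0 : ∃ u, T 0 u) (hs : ∀ n u, T n u → Split (T (n + 1)) u)
    (hT : ∀ n u, T n u → TB B L b u) :
    ∃ f : Rl → Rl, Continuous f ∧ Function.Injective f ∧ ∀ z, f z ∈ PB B := by
  classical
  obtain ⟨u₀, hu₀⟩ := h0
  have hstep : ∀ n (u : {u // T n u}), ∃ w : Bool → {u // T (n + 1) u},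
      (∀ i, u.1 <+: (w i).1) ∧
      ∀ i, ¬ (w i).1.map Prod.fst <+: (w (!i)).1.map Prod.fst := by
    intro n u
    obtain ⟨u1, u2, a1, a2, a3, a4, a5, a6⟩ := hs n u.1 u.2
    refine ⟨fun i => if i then ⟨u2, a2⟩ else ⟨u1, a1⟩, ?_, ?_⟩
    · intro i
      cases i
      · exact a3
      · exact a4
    · intro i
      cases i
      · exact a5
      · exact a6
  choose nx h1 h2 using hstep
  let W : Rl → (n : ℕ) → {u // T n u} := fun z n => Nat.rec ⟨u₀, hu₀⟩ (fun n u => nx n u (z n)) n
  have hW : ∀ z n, W z (n + 1) = nx n (W z n) (z n) := fun z n => rfl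
  have hW0 : ∀ z, W z 0 = ⟨u₀, hu₀⟩ := fun z => rfl
  -- monotone
  have hp : ∀ z n, (W z n).1 <+: (W z (n + 1)).1 := fun z n => by
    rw [hW]
    exact h1 n _ _
  have hpm : ∀ z m n, m ≤ n → (W z m).1 <+: (W z n).1 := by
    intro z m n hmn
    induction hmn with
    | refl => exact List.prefix_rfl
    | step _ ih => exact ih.trans (hp z _)
  have hlen : ∀ z n, n ≤ (W z n).1.length := by
    intro z n
    induction n with
    | zero => exact Nat.zero_le _
    | succ n ih =>
      have h3 := (hp z n).length_le
      by_contra hc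
      have h4 : (W z n).1.length = (W z (n + 1)).1.length := by omega
      have h5 : (W z n).1 = (W z (n + 1)).1 := (hp z n).eq_of_length h4
      have h6 : (W z n).1 <+: (nx n (W z n) (!(z n))).1 := h1 n _ _
      rw [h5, hW] at h6
      exact h2 n _ _ (h6.map Prod.fst)
  -- the branch
  let g : Rl → ℕ → Bool × ℕ := fun z k => (W z (k + 1)).1.getD k (false, 0)
  have hg : ∀ z n, (W z n).1 = pre (g z) (W z n).1.length := by
    intro z n
    apply Cnt_eq_pre
    intro k hk
    have hk' : k < (W z (k + 1)).1.length := by
      have := hlen z (k + 1)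
      omega
    have h3 : g z k = (W z (k + 1)).1[k] := List.getD_eq_getElem _ _ hk'
    rw [h3]
    rcases le_total n (k + 1) with h4 | h4
    · exact (hpm z _ _ h4).getElem hk
    · exact ((hpm z _ _ h4).getElem hk').symm
  have hmem : ∀ z, (fun n => (g z n).1) ∈ PB B := by
    intro z
    refine Gd_mem_PB B L b hb _ (fun n => (g z n).2) ((TB_branch B L b (g z)).1 fun n => ?_)
    refine TB_pre B L b _ (W z n).1 ?_ (hT n _ (W z n).2)
    rw [hg z n]
    exact Cnt_pre_mono _ (hlen z n)
  -- locality
  have hloc : ∀ n z z', (∀ i < n, z i = z' i) → W z n = W z' n := by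
    intro n
    induction n with
    | zero => intro z z' _; rfl
    | succ n ih =>
      intro z z' h
      rw [hW, hW, ih z z' (fun i hi => h i (by omega)), h n (by omega)]
  refine ⟨fun z n => (g z n).1, ?_, ?_, hmem⟩
  · refine continuous_pi fun k => ?_
    let ext : (Fin (k + 1) → Bool) → Rl := fun s n => if h : n < k + 1 then s ⟨n, h⟩ else false
    have h3 : (fun z : Rl => (g z k).1) =
        (fun s : Fin (k + 1) → Bool => (g (ext s) k).1) ∘ fun (z : Rl) (i : Fin (k + 1)) => z i.1 := by
      funext z
      have h4 : W z (k + 1) = W (ext fun i : Fin (k + 1) => z i.1) (k + 1) := by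
        refine hloc (k + 1) _ _ fun i hi => ?_
        simp only [ext, dif_pos hi]
      change ((W z (k + 1)).1.getD k (false, 0)).1 =
        ((W (ext fun i : Fin (k + 1) => z i.1) (k + 1)).1.getD k (false, 0)).1
      rw [← h4]
    rw [h3]
    exact continuous_of_discreteTopology.comp (continuous_pi fun i => continuous_apply i.1)
  · intro z z' he
    by_contra hne
    have hex : ∃ n, z n ≠ z' n := by
      by_contra hc
      push Not at hc
      exact hne (funext hc)
    have h3 := Nat.find_spec hex
    have h4 : ∀ i < Nat.find hex, z i = z' i := by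
      intro i hi
      by_contra hc
      exact Nat.find_min hex hi hc
    set n := Nat.find hex
    have h5 := hloc n z z' h4
    have h6 : z' n = !(z n) := Bool.eq_not.2 (Ne.symm h3)
    have h7 : (W z (n + 1)).1.map Prod.fst = pre (fun k => (g z k).1) (W z (n + 1)).1.length := by
      conv_lhs => rw [hg z (n + 1)]
      unfold pre
      rw [List.map_map]
      rfl
    have h8 : (W z' (n + 1)).1.map Prod.fst = pre (fun k => (g z k).1) (W z' (n + 1)).1.length := by
      have h9 : (fun k => (g z k).1) = fun k => (g z' k).1 := he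
      rw [h9]
      conv_lhs => rw [hg z' (n + 1)]
      unfold pre
      rw [List.map_map]
      rfl
    have h10 := h2 n (W z n) (z n)
    have h11 := h2 n (W z n) (!(z n))
    rw [Bool.not_not] at h11
    have e1 : nx n (W z n) (z n) = W z (n + 1) := (hW z n).symm
    have e2 : nx n (W z n) (!(z n)) = W z' (n + 1) := by
      rw [← h6, h5]
    rw [e1, e2, h7, h8] at h10 h11
    rcases le_total (W z (n + 1)).1.length (W z' (n + 1)).1.length with h12 | h12
    · exact h10 (Cnt_pre_mono _ h12)
    · exact h11 (Cnt_pre_mono _ h12)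

end Pool.Agent.NI
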