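import Mathlib

/-!
# MP_053ed5_lc: the notions of the problem

Reals are elements of `ℕ → Bool`. Turing functionals are given by codes (`OCode`), numbered by
`OCode.ofNat`. Vocabularies are relational and countable, structures have universe `ℕ`.
-/

namespace Pool.Agent.NI

open Cardinal

/-- Reals (elements of `2^ω`). -/
abbrev Rl : Type := ℕ → Bool

/-! ### Turing functionals -/

/-- Codes of Turing functionals: the partial recursive functions with an additional oracle. -/
inductive OCode : Type
  | zero : OCode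
  | succ : OCode
  | left : OCode
  | right : OCode
  | oracle : OCode
  | pair : OCode → OCode → OCode
  | comp : OCode → OCode → OCode
  | prec : OCode → OCode → OCode
  | rfind : OCode → OCode

/-- The partial function computed by the code `c` with oracle `y`. -/
def OCode.eval (y : Rl) : OCode → ℕ →. ℕ
  | OCode.zero => fun _ => Part.some 0
  | OCode.succ => fun n => Part.some (n + 1)
  | OCode.left => fun n => Part.some n.unpair.1
  | OCode.right => fun n => Part.some n.unpair.2
  | OCode.oracle => fun n => Part.some (y n).toNat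
  | OCode.pair f g => fun n => (f.eval y n).bind fun a => (g.eval y n).map fun b => Nat.pair a b
  | OCode.comp f g => fun n => (g.eval y n).bind (f.eval y)
  | OCode.prec f g => fun n =>
      Nat.rec (f.eval y n.unpair.1)
        (fun m IH => IH.bind fun i => g.eval y (Nat.pair n.unpair.1 (Nat.pair m i))) n.unpair.2
  | OCode.rfind f => fun n => Nat.rfind fun m => (f.eval y (Nat.pair n m)).map fun i => i = 0

/-- The numbering of the codes. -/
def OCode.ofNat : ℕ → OCode
  | 0 => OCode.zero
  | 1 => OCode.succ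
  | 2 => OCode.left
  | 3 => OCode.right
  | 4 => OCode.oracle
  | n + 5 =>
    if n % 4 = 0 then OCode.pair (OCode.ofNat (n / 4).unpair.1) (OCode.ofNat (n / 4).unpair.2)
    else if n % 4 = 1 then
      OCode.comp (OCode.ofNat (n / 4).unpair.1) (OCode.ofNat (n / 4).unpair.2)
    else if n % 4 = 2 then
      OCode.prec (OCode.ofNat (n / 4).unpair.1) (OCode.ofNat (n / 4).unpair.2)
    else OCode.rfind (OCode.ofNat (n / 4))
decreasing_by
  all_goals
    have h1 := Nat.unpair_left_le (n / 4)
    have h2 := Nat.unpair_right_le (n / 4)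
    have h3 := Nat.div_le_self n 4
    omega

/-- `Phi y i` is the `i`-th Turing functional with oracle `y`. -/
def Phi (y : Rl) (i : ℕ) : ℕ →. ℕ := (OCode.ofNat i).eval y

/-- `c` is Turing reducible to `y`. -/
def TRed (c y : Rl) : Prop := ∃ i, ∀ n, Phi y i n = Part.some (c n).toNat

/-! ### Structures and infinitary sentences -/

/-- A countable relational vocabulary: `L k` is the arity of the `k`-th relation symbol. -/
abbrev Voc : Type := ℕ → ℕ

/-- A structure with universe `ℕ`. -/
structure Str (L : Voc) where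
  rel : ℕ → List ℕ → Prop
  len : ∀ k l, rel k l → l.length = L k

/-- Isomorphism of structures. -/
def Iso {L : Voc} (M N : Str L) : Prop :=
  ∃ s : ℕ ≃ ℕ, ∀ k l, M.rel k l ↔ N.rel k (l.map s)

/-- The formulas of `L_{ω₁ω}` with free variables among `n` variables. -/
inductive Fml (L : Voc) : ℕ → Type
  | rel {n : ℕ} (k : ℕ) (v : List (Fin n)) (h : v.length = L k) : Fml L n
  | eq {n : ℕ} (i j : Fin n) : Fml L n
  | neg {n : ℕ} (f : Fml L n) : Fml L n
  | conj {n : ℕ} (f : ℕ → Fml L n) : Fml L n
  | all {n : ℕ} (f : Fml L (n + 1)) : Fml L n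

/-- Satisfaction. -/
def Sat {L : Voc} (M : Str L) : {n : ℕ} → Fml L n → (Fin n → ℕ) → Prop
  | _, Fml.rel k v _, a => M.rel k (v.map a)
  | _, Fml.eq i j, a => a i = a j
  | _, Fml.neg f, a => ¬ Sat M f a
  | _, Fml.conj f, a => ∀ m, Sat M (f m) a
  | _, Fml.all f, a => ∀ z : ℕ, Sat M f (Fin.snoc a z)

/-- The class of the (countably infinite) models of a sentence. -/
def Mod {L : Voc} (f : Fml L 0) : Set (Str L) := {M | Sat M f Fin.elim0}

/-! ### Scott rank -/

/-- The tuples `a`, `b` satisfy the same atomic formulas in `M`. -/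
def AtEq {L : Voc} (M : Str L) (a b : List ℕ) : Prop :=
  a.length = b.length ∧
  (∀ i j, i < a.length → j < a.length → (a.getD i 0 = a.getD j 0 ↔ b.getD i 0 = b.getD j 0)) ∧
  ∀ k (v : List ℕ), (∀ i ∈ v, i < a.length) →
    (M.rel k (v.map fun i => a.getD i 0) ↔ M.rel k (v.map fun i => b.getD i 0))

/-- The back-and-forth relations. -/
def BF {L : Voc} (M : Str L) (α : Ordinal.{0}) (a b : List ℕ) : Prop :=
  AtEq M a b ∧ ∀ β : Ordinal.{0}, (h : β < α) →
    (∀ c : ℕ, ∃ d : ℕ, BF M β (a ++ [c]) (b ++ [d])) ∧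
    (∀ d : ℕ, ∃ c : ℕ, BF M β (a ++ [c]) (b ++ [d]))
termination_by α
decreasing_by all_goals exact h

/-- The Scott rank of `M` is at most `α`: the `α`-th back-and-forth relation is the orbit relation
of the automorphism group. -/
def SRle {L : Voc} (M : Str L) (α : Ordinal.{0}) : Prop :=
  ∀ a b : List ℕ, BF M α a b →
    ∃ s : ℕ ≃ ℕ, (∀ k l, M.rel k l ↔ M.rel k (l.map s)) ∧ a.map s = b

/-- The class of models of `f` has bounded Scott rank. -/
def BoundedSR {L : Voc} (f : Fml L 0) : Prop :=
  ∃ α : Ordinal.{0}, α < Ordinal.omega 1 ∧ ∀ M ∈ Mod f, SRle M α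

/-! ### Index reducibility on a cone -/

open Classical in
/-- `i` is an index, relative to the oracle `y`, of the atomic diagram of `M`: `w_i^y = M`. -/
def IsIdx {L : Voc} (y : Rl) (i : ℕ) (M : Str L) : Prop :=
  ∀ k l, l.length = L k →
    Phi y i (Nat.pair k (Encodable.encode l)) = Part.some (if M.rel k l then 1 else 0)

/-- Index reducibility on a cone. -/
def Red {L L' : Voc} (A : Set (Str L)) (B : Set (Str L')) : Prop :=
  ∃ c : Rl, ∀ y : Rl, TRed c y → ∃ e : ℕ, ∀ (i j : ℕ) (M N : Str L),
    IsIdx y i M → IsIdx y j N → M ∈ A → N ∈ A →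
    ∃ i' ∈ Phi y e i, ∃ j' ∈ Phi y e j, ∃ M' ∈ B, ∃ N' ∈ B,
      IsIdx y i' M' ∧ IsIdx y j' N' ∧ (Iso M N ↔ Iso M' N')

/-- The class of models of `f` is universal. -/
def Universal {L : Voc} (f : Fml L 0) : Prop :=
  ∀ (L' : Voc) (g : Fml L' 0), Red (Mod g) (Mod f)

/-- Statement S. -/
def StatementS : Prop := ∀ (L : Voc) (f : Fml L 0), BoundedSR f ∨ Universal f

/-! ### Vaught's conjecture -/

/-- Isomorphism on the class of models of `f`. -/
def isoRel {L : Voc} (f : Fml L 0) (M N : Mod f) : Prop := Iso M.1 N.1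

/-- The number of models of `f` up to isomorphism (`Quot` by the isomorphism relation). -/
noncomputable def numModels {L : Voc} (f : Fml L 0) : Cardinal.{0} := #(Quot (isoRel f))

/-- Vaught's conjecture: at most `ℵ₀` or exactly `2^ℵ₀` countable models up to isomorphism. -/
def VC : Prop := ∀ (L : Voc) (f : Fml L 0), numModels f ≤ ℵ₀ ∨ numModels f = 2 ^ ℵ₀

end Pool.Agent.NI
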