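import Pool.Agent.NI.Cnt

/-!
# Der: the derivatives vanish at a countable stage

For an ordinal `c` let `T b c u ↔ TB B L b u ∧ ∀ c' < c, Split (T b c') u` (well-founded recursion), decreasing
in `c`. Claim: for every `b` there is a countable `c_b` (`< Ordinal.omega 1`) with `T b c_b` empty. Otherwise
let for every `u` (a countable type) `c_u` be a countable ordinal with `¬ T b c_u u`, if there is one, and
`c* < Ordinal.omega 1` an upper bound of the `c_u` (countable suprema of countable ordinals are countable: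
e.g. `Ordinal.iSup_lt_ord` / `Ordinal.lsub_lt_ord` with the cofinality of `ω₁`); then `T b c* u` implies
`T b (c* + 1) u`, i.e. `Split (T b c*) u`, and `T b c*` is not empty: `cantor_scheme` with the constant
sequence `T b c*` contradicts `hthin`.
Let `λ` be a countable infinite ordinal larger than all `c_b` (`b : ℕ`), `en : ℕ ≃ λ.ToType` (or a bijection
with `Set.Iio λ`), `L' m n ↔ en m < en n`, `t b c u ↔ T b (en c) u`. For `b` take `c₀` with `en c₀` = the least
ordinal `c` with `T b c` empty (it is `≤ c_b < λ`).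
-/

namespace Pool.Agent.NI

/-- The derivatives of `X` along the ordinals. -/
def Der_T (X : List (Bool × ℕ) → Prop) (c : Ordinal.{0}) (u : List (Bool × ℕ)) : Prop :=
  X u ∧ ∀ c' : Ordinal.{0}, (h : c' < c) → Split (fun v => Der_T X c' v) u
termination_by c
decreasing_by exact h

theorem Der_T_iff (X : List (Bool × ℕ) → Prop) (c : Ordinal.{0}) (u : List (Bool × ℕ)) :
    Der_T X c u ↔ X u ∧ ∀ c' : Ordinal.{0}, c' < c → Split (Der_T X c') u := by
  rw [Der_T]

theorem Der_T_mono (X : List (Bool × ℕ) → Prop) {c c' : Ordinal.{0}} (h : c' ≤ c)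
    (u : List (Bool × ℕ)) (hu : Der_T X c u) : Der_T X c' u := by
  rw [Der_T_iff] at hu ⊢
  exact ⟨hu.1, fun d hd => hu.2 d (hd.trans_le h)⟩

theorem Der_T_sub (X : List (Bool × ℕ) → Prop) {c : Ordinal.{0}}
    (u : List (Bool × ℕ)) (hu : Der_T X c u) : X u := by
  rw [Der_T_iff] at hu
  exact hu.1

theorem Der_limit : Order.IsSuccLimit (Ordinal.omega 1 : Ordinal.{0}) := by
  rw [← Cardinal.ord_aleph]
  exact Cardinal.isSuccLimit_ord (Cardinal.aleph0_le_aleph 1)

theorem Der_vanish (B : List ℕ → List Bool → Prop)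
    (hthin : ¬ ∃ f : Rl → Rl, Continuous f ∧ Function.Injective f ∧ ∀ z, f z ∈ PB B)
    (L : ℕ → ℕ → Prop) (hL : WellFounded L) (b : ℕ) :
    ∃ c : Ordinal.{0}, c < Ordinal.omega 1 ∧ ∀ u, ¬ Der_T (TB B L b) c u := by
  by_contra hcon
  push Not at hcon
  set X := TB B L b with hX
  have hsel : ∀ u : List (Bool × ℕ), ∃ c : Ordinal.{0}, c < Ordinal.omega 1 ∧
      ((∃ d : Ordinal.{0}, d < Ordinal.omega 1 ∧ ¬ Der_T X d u) → ¬ Der_T X c u) := by
    intro u
    by_cases h : ∃ d : Ordinal.{0}, d < Ordinal.omega 1 ∧ ¬ Der_T X d u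
    · obtain ⟨d, hd, hd'⟩ := h
      exact ⟨d, hd, fun _ => hd'⟩
    · exact ⟨0, Ordinal.omega_pos 1, fun h' => absurd h' h⟩
  choose g hg1 hg2 using hsel
  have hs : (⨆ u, g u) < Ordinal.omega 1 := Ordinal.iSup_lt_omega_one hg1
  have hle : ∀ u, g u ≤ ⨆ u, g u := fun u => Ordinal.le_iSup g u
  set s := ⨆ u, g u with hs_def
  have hstab : ∀ u, Der_T X s u → ∀ d : Ordinal.{0}, d < Ordinal.omega 1 → Der_T X d u := by
    intro u hu d hd
    by_contra hc
    exact hg2 u ⟨d, hd, hc⟩ (Der_T_mono X (hle u) u hu)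
  have hs1 : s + 1 < Ordinal.omega 1 := Der_limit.add_one_lt hs
  have hsplit : ∀ u, Der_T X s u → Split (Der_T X s) u := by
    intro u hu
    have := hstab u hu (s + 1) hs1
    rw [Der_T_iff] at this
    exact this.2 s (lt_add_one s)
  exact hthin (cantor_scheme B L b (hL.apply b) (fun _ => Der_T X s) (hcon s hs)
    (fun _ u hu => hsplit u hu) (fun _ u hu => Der_T_sub X u hu))

theorem exists_der (B : List ℕ → List Bool → Prop)
    (hthin : ¬ ∃ f : Rl → Rl, Continuous f ∧ Function.Injective f ∧ ∀ z, f z ∈ PB B)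
    (L : ℕ → ℕ → Prop) (hL : WellFounded L) :
    ∃ (L' : ℕ → ℕ → Prop) (t : ℕ → ℕ → List (Bool × ℕ) → Prop),
      (∀ b c u, t b c u ↔ (TB B L b u ∧ ∀ c', L' c' c → Split (t b c') u)) ∧
      ∀ b, ∃ c₀, (∀ u, ¬ t b c₀ u) ∧ ∀ c, L' c c₀ → ∃ u, t b c u := by
  choose v hv1 hv2 using Der_vanish B hthin L hL
  set m : Ordinal.{0} := max Ordinal.omega0 ((⨆ b, v b) + 1) with hm
  have hm1 : m < Ordinal.omega 1 :=
    max_lt Ordinal.omega0_lt_omega_one
      (Der_limit.add_one_lt (Ordinal.iSup_lt_omega_one hv1))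
  have hvm : ∀ b, v b < m := fun b =>
    ((Ordinal.le_iSup v b).trans_lt (lt_add_one _)).trans_le (le_max_right _ _)
  have hcount : Countable (Set.Iio m) := by
    rw [← Cardinal.mk_le_aleph0_iff, Cardinal.mk_Iio_ordinal]
    have h1 : m.card < Cardinal.aleph 1 := by
      rw [← Cardinal.lt_ord, Cardinal.ord_aleph]
      exact hm1
    have h2 : m.card ≤ Cardinal.aleph0 := by
      rw [← Order.lt_succ_iff, Cardinal.succ_aleph0]
      exact h1
    rw [← Cardinal.lift_aleph0.{1, 0}, Cardinal.lift_le]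
    exact h2
  have hinf : Infinite (Set.Iio m) := by
    rw [← Cardinal.aleph0_le_mk_iff, Cardinal.mk_Iio_ordinal]
    have h1 : Cardinal.aleph0 ≤ m.card := by
      rw [← Cardinal.ord_le, Cardinal.ord_aleph0]
      exact le_max_left _ _
    rw [← Cardinal.lift_aleph0.{1, 0}, Cardinal.lift_le]
    exact h1
  obtain ⟨en⟩ := nonempty_equiv_of_countable (α := ℕ) (β := Set.Iio m)
  refine ⟨fun a b => (en a).1 < (en b).1, fun b c u => Der_T (TB B L b) (en c).1 u, ?_, ?_⟩
  · intro b c u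
    refine (Der_T_iff _ _ _).trans ?_
    constructor
    · rintro ⟨h1, h2⟩
      exact ⟨h1, fun c' hc' => h2 _ hc'⟩
    · rintro ⟨h1, h2⟩
      refine ⟨h1, fun d hd => ?_⟩
      have hdm : d < m := hd.trans (en c).2
      have := h2 (en.symm ⟨d, hdm⟩) (by simpa using hd)
      simpa using this
  · intro b
    have hwf : WellFounded ((· < ·) : Ordinal.{0} → Ordinal.{0} → Prop) := Ordinal.lt_wf
    have hne : {c : Ordinal.{0} | ∀ u, ¬ Der_T (TB B L b) c u}.Nonempty := ⟨v b, hv2 b⟩
    set c := hwf.min _ hne with hc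
    have hc1 : ∀ u, ¬ Der_T (TB B L b) c u := hwf.min_mem _ hne
    have hc2 : ∀ d, d < c → ∃ u, Der_T (TB B L b) d u := by
      intro d hd
      by_contra hcon
      push Not at hcon
      exact hwf.not_lt_min {c : Ordinal.{0} | ∀ u, ¬ Der_T (TB B L b) c u} (x := d) hcon hd
    have hcm : c < m := by
      refine lt_of_le_of_lt ?_ (hvm b)
      by_contra hcon
      push Not at hcon
      exact hwf.not_lt_min {c : Ordinal.{0} | ∀ u, ¬ Der_T (TB B L b) c u} (x := v b) (hv2 b) hcon
    refine ⟨en.symm ⟨c, hcm⟩, ?_, ?_⟩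
    · intro u
      simpa using hc1 u
    · intro d hd
      refine hc2 _ ?_
      simpa using hd

end Pool.Agent.NI
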