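import Pool.Agent.NI.Grd

/-!
# FVl: inverse systems of trees

* `FV_thread`: `→`: let `i` be a thread. If some node `i n` is dead (`(ofNat (i n)).length ≠ n` or
  `¬ T (ofNat (i n))`), then all later nodes are dead: a node of the tree is mapped to its restriction,
  which is a node of the tree by `hT`; and `i (m + 1) + 1 = i m` for dead `i (m + 1)`: impossible for all
  `m ≥ n`. So all `i n`, `n ≥ 1` (and hence `n ≥ 0`) are nodes of the tree, each the restriction of the next
  one: they are the initial segments of some `G`. `←`: `i n = encode (pre G n)`.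
* `FV_rank_ge`: induction on `b`: the child `encode (s ++ [l'])` for `l'` below the last element.
* `FV_rank_bd`: a dead node `(n, k)` satisfies `¬ Rk (ChF _) ω (n, k)` (induction: `Rk (ChF _) (m : ℕ) (n, k)`
  implies `m ≤ k`). For a node `s` of the tree with last element `l`: `Rk (ChF _) (ω + c) (s.length, encode s)`
  implies `Rk R c l` (induction on `c`; children of rank at least `ω + c' ≥ ω` are not dead). So if
  `Rk (ChF _) (ω + (β + 2)) p`, then `p` is a node `s` of the tree; if `s = []` it has a child `[l]` of rank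
  at least `ω + (β + 1)`, so `Rk R (β + 1) l`, `l` is not accessible; if the last element of `s` is `l` then
  `l` is not accessible either. A node whose last element is not accessible has a child with this
  property, so it has all ranks (`Rk_not_acc`).
-/

namespace Pool.Agent.NI

theorem Desc_append (R : ℕ → ℕ → Prop) (s : List ℕ) (l l' : ℕ) :
    Desc R (s ++ [l] ++ [l']) ↔ (Desc R (s ++ [l]) ∧ R l' l) := by
  unfold Desc
  rw [List.isChain_append]
  simp

theorem FVl_ofNat (s : List ℕ) : Denumerable.ofNat (List ℕ) (Encodable.encode s) = s :=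
  Denumerable.ofNat_encode s

theorem FVl_encode (k : ℕ) : Encodable.encode (Denumerable.ofNat (List ℕ) k) = k :=
  Denumerable.encode_ofNat k

theorem FVl_pos (T : List ℕ → Prop) (n : ℕ) (s : List ℕ) (a : ℕ) (hs : s.length = n)
    (h : T (s ++ [a])) : FV T n (Encodable.encode (s ++ [a])) = Encodable.encode s := by
  unfold FV
  rw [FVl_ofNat, if_pos ⟨by simp [hs], h⟩]
  simp

theorem FVl_neg (T : List ℕ → Prop) (n k : ℕ)
    (h : ¬ ((Denumerable.ofNat (List ℕ) k).length = n + 1 ∧ T (Denumerable.ofNat (List ℕ) k))) :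
    FV T n k = k + 1 := by
  unfold FV
  rw [if_neg h]

/-- a node of the tree -/
def FVlAl (T : List ℕ → Prop) (n k : ℕ) : Prop :=
  (Denumerable.ofNat (List ℕ) k).length = n ∧ T (Denumerable.ofNat (List ℕ) k)

theorem FVl_al (T : List ℕ → Prop) (n k : ℕ) (h : FVlAl T (n + 1) k) :
    ∃ s a, s.length = n ∧ T (s ++ [a]) ∧ k = Encodable.encode (s ++ [a]) ∧
      FV T n k = Encodable.encode s := by
  obtain ⟨h1, h2⟩ := h
  have hne : Denumerable.ofNat (List ℕ) k ≠ [] := by
    intro h
    rw [h] at h1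
    simp at h1
  have e : (Denumerable.ofNat (List ℕ) k).dropLast ++
      [(Denumerable.ofNat (List ℕ) k).getLast hne] = Denumerable.ofNat (List ℕ) k :=
    List.dropLast_append_getLast hne
  refine ⟨(Denumerable.ofNat (List ℕ) k).dropLast,
    (Denumerable.ofNat (List ℕ) k).getLast hne, by simp [h1], by rw [e]; exact h2,
    by rw [e, FVl_encode], ?_⟩
  unfold FV
  rw [if_pos ⟨h1, h2⟩]

theorem FVl_al_down (T : List ℕ → Prop) (hT : ∀ s a, T (s ++ [a]) → T s) (n k : ℕ)
    (h : FVlAl T (n + 1) k) : FVlAl T n (FV T n k) := by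
  obtain ⟨s, a, h1, h2, h3, h4⟩ := FVl_al T n k h
  rw [h4]
  unfold FVlAl
  rw [FVl_ofNat]
  exact ⟨h1, hT _ _ h2⟩

theorem FVl_pre_succ (G : ℕ → ℕ) (n : ℕ) : pre G (n + 1) = pre G n ++ [G n] := by
  unfold pre
  rw [List.range_succ, List.map_append]
  rfl

theorem FVl_pre_length (G : ℕ → ℕ) (n : ℕ) : (pre G n).length = n := by
  unfold pre
  simp

theorem FV_thread (T : List ℕ → Prop) (hT : ∀ s a, T (s ++ [a]) → T s) :
    Thread (FV T) ↔ ∃ G : ℕ → ℕ, ∀ n, T (pre G n) := by
  constructor
  · rintro ⟨i, hi⟩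
    have hal : ∀ n, FVlAl T n (i n) := by
      intro n
      by_contra hn
      have hd : ∀ m, ¬ FVlAl T (n + m) (i (n + m)) := by
        intro m
        induction m with
        | zero => exact hn
        | succ m ih =>
          intro h
          apply ih
          have := FVl_al_down T hT (n + m) (i (n + m + 1)) h
          rwa [hi] at this
      have hs : ∀ m, i (n + m) + m = i n := by
        intro m
        induction m with
        | zero => rfl
        | succ m ih =>
          have h1 := hi (n + m)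
          rw [FVl_neg T (n + m) (i (n + m + 1)) (hd (m + 1))] at h1
          rw [← ih, ← h1]
          show i (n + m + 1) + (m + 1) = i (n + m + 1) + 1 + m
          omega
      have := hs (i n + 1)
      omega
    have hs : ∀ n, ∃ a, i (n + 1) = Encodable.encode (Denumerable.ofNat (List ℕ) (i n) ++ [a]) := by
      intro n
      obtain ⟨s, a, h1, h2, h3, h4⟩ := FVl_al T n (i (n + 1)) (hal (n + 1))
      rw [hi] at h4
      refine ⟨a, ?_⟩
      rw [h4, FVl_ofNat]
      exact h3
    choose G hG using hs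
    have hp : ∀ n, Denumerable.ofNat (List ℕ) (i n) = pre G n := by
      intro n
      induction n with
      | zero =>
        have := (hal 0).1
        rw [List.length_eq_zero_iff] at this
        rw [this]
        rfl
      | succ n ih =>
        rw [hG n, FVl_ofNat, ih, FVl_pre_succ]
    refine ⟨G, fun n => ?_⟩
    rw [← hp]
    exact (hal n).2
  · rintro ⟨G, hG⟩
    refine ⟨fun n => Encodable.encode (pre G n), fun n => ?_⟩
    show FV T n (Encodable.encode (pre G (n + 1))) = Encodable.encode (pre G n)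
    rw [FVl_pre_succ]
    apply FVl_pos T n (pre G n) (G n) (FVl_pre_length G n)
    rw [← FVl_pre_succ]
    exact hG _

theorem FV_rank_ge (R : ℕ → ℕ → Prop) (b : Ordinal.{0}) (s : List ℕ) (l : ℕ)
    (hs : Desc R (s ++ [l])) (h : Rk R b l) :
    Rk (ChF (FV (Desc R))) b (s.length + 1, Encodable.encode (s ++ [l])) := by
  induction b using WellFoundedLT.induction generalizing s l with
  | ind b ih =>
    rw [Rk] at h ⊢
    intro c hc
    obtain ⟨l', h1, h2⟩ := h c hc
    have hd : Desc R (s ++ [l] ++ [l']) := (Desc_append R s l l').2 ⟨hs, h1⟩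
    refine ⟨((s ++ [l]).length + 1, Encodable.encode (s ++ [l] ++ [l'])), ⟨by simp, ?_⟩,
      ih c hc (s ++ [l]) l' hd h2⟩
    exact FVl_pos (Desc R) (s.length + 1) (s ++ [l]) l' (by simp) hd

theorem FVl_Desc_down (R : ℕ → ℕ → Prop) (s : List ℕ) (a : ℕ) (h : Desc R (s ++ [a])) :
    Desc R s := by
  unfold Desc at h ⊢
  rw [List.isChain_append] at h
  exact h.1

theorem FVl_dead_nat (R : ℕ → ℕ → Prop) (m : ℕ) (p : ℕ × ℕ) (hd : ¬ FVlAl (Desc R) p.1 p.2)
    (h : Rk (ChF (FV (Desc R))) (m : Ordinal.{0}) p) : m ≤ p.2 := by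
  induction m generalizing p with
  | zero => exact Nat.zero_le _
  | succ m ih =>
    rw [Nat.cast_succ, Rk_succ] at h
    obtain ⟨q, ⟨hq1, hq2⟩, hq⟩ := h
    have hdq : ¬ FVlAl (Desc R) (p.1 + 1) q.2 := by
      intro h
      apply hd
      have := FVl_al_down (Desc R) (FVl_Desc_down R) p.1 q.2 h
      rwa [hq2] at this
    have h2 := ih q (by rw [hq1]; exact hdq) hq
    rw [FVl_neg (Desc R) p.1 q.2 hdq] at hq2
    omega

open Ordinal in
theorem FVl_alive (R : ℕ → ℕ → Prop) (p : ℕ × ℕ) (c : Ordinal.{0})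
    (h : Rk (ChF (FV (Desc R))) (ω + c) p) : FVlAl (Desc R) p.1 p.2 := by
  by_contra hd
  have h1 : ((p.2 + 1 : ℕ) : Ordinal.{0}) ≤ ω + c :=
    (Ordinal.natCast_lt_omega0 _).le.trans (le_self_add)
  have := FVl_dead_nat R (p.2 + 1) p hd (Rk_mono _ h1 h)
  omega

open Ordinal in
theorem FVl_le (R : ℕ → ℕ → Prop) (c : Ordinal.{0}) (s : List ℕ) (l : ℕ)
    (h : Rk (ChF (FV (Desc R))) (ω + c) (s.length + 1, Encodable.encode (s ++ [l]))) :
    Rk R c l := by
  induction c using WellFoundedLT.induction generalizing s l with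
  | ind c ih =>
    rw [Rk]
    intro c' hc'
    rw [Rk] at h
    obtain ⟨q, ⟨hq1, hq2⟩, hq⟩ := h (ω + c') (by simpa using hc')
    have ha := FVl_alive R q c' hq
    rw [hq1] at ha
    obtain ⟨s', a, h1, h2, h3, h4⟩ := FVl_al (Desc R) (s.length + 1) q.2 ha
    have h5 : s' = s ++ [l] := by
      have h6 : Encodable.encode s' = Encodable.encode (s ++ [l]) := by
        rw [← h4]
        exact hq2
      exact Encodable.encode_injective h6
    subst h5
    refine ⟨a, ((Desc_append R s l a).1 h2).2, ih c' hc' (s ++ [l]) a ?_⟩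
    have h7 : q = ((s ++ [l]).length + 1, Encodable.encode (s ++ [l] ++ [a])) := by
      apply Prod.ext
      · rw [hq1]
        simp
      · exact h3
    rw [← h7]
    exact hq

open Ordinal in
theorem FV_rank_bd (R : ℕ → ℕ → Prop) (β : Ordinal.{0}) (h : ∀ b, Acc R b → ¬ Rk R (β + 1) b)
    (p : ℕ × ℕ) (hp : Rk (ChF (FV (Desc R))) (ω + (β + 2)) p) (b : Ordinal.{0}) :
    Rk (ChF (FV (Desc R))) b p := by
  have hnode : ∀ (s : List ℕ) (l : ℕ), Desc R (s ++ [l]) →
      Rk (ChF (FV (Desc R))) (ω + (β + 1)) (s.length + 1, Encodable.encode (s ++ [l])) →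
      ∀ b, Rk (ChF (FV (Desc R))) b (s.length + 1, Encodable.encode (s ++ [l])) := by
    intro s l hs h1 b
    have h2 := FVl_le R (β + 1) s l h1
    have h3 : ¬ Acc R l := fun h4 => h l h4 h2
    exact FV_rank_ge R b s l hs (Rk_not_acc R l h3 b)
  have hlt : (β + 1 : Ordinal.{0}) < β + 2 := by
    have : (β + 2 : Ordinal.{0}) = β + 1 + 1 := by
      rw [add_assoc, one_add_one_eq_two]
    rw [this]
    exact lt_add_one _
  have ha := FVl_alive R p (β + 2) hp
  obtain ⟨n, k⟩ := p
  rcases Nat.eq_zero_or_pos n with hn | hn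
  · subst hn
    rw [Rk] at hp
    obtain ⟨q, ⟨hq1, hq2⟩, hq⟩ := hp (ω + (β + 1)) (by simpa using hlt)
    have haq := FVl_alive R q (β + 1) hq
    rw [hq1] at haq
    obtain ⟨s', a, h1, h2, h3, h4⟩ := FVl_al (Desc R) 0 q.2 haq
    have h7 : q = (s'.length + 1, Encodable.encode (s' ++ [a])) := by
      apply Prod.ext
      · rw [hq1, h1]
      · exact h3
    rw [Rk]
    intro c hc
    refine ⟨q, ⟨hq1, hq2⟩, ?_⟩
    rw [h7] at hq ⊢
    exact hnode s' a h2 hq c
  · obtain ⟨m, rfl⟩ : ∃ m, n = m + 1 := ⟨n - 1, by omega⟩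
    obtain ⟨s', a, h1, h2, h3, h4⟩ := FVl_al (Desc R) m k ha
    subst h1
    subst h3
    apply hnode s' a h2
    apply Rk_mono _ _ hp
    simpa using hlt.le

end Pool.Agent.NI
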