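import Pool.Agent.NI.Fun

/-!
# Rec: the recursion theorem for continuous functionals

Apply `ct_index` to the functional `K` with `K y (pair a (pair u n)) m ↔ H y (pair a (pair (smn u u) n)) m`
(use `Nat.unpair`; `K` is continuous and single valued as `H` is). Let `i` be its index,
`i_a = smn i a`, `e = smn i_a i_a`. Then `Phi y e n = Phi y i_a (pair i_a n) = Phi y i (pair a (pair i_a n))`, so
`m ∈ Phi y e n ↔ K y (pair a (pair i_a n)) m ↔ H y (pair a (pair (smn i_a i_a) n)) m = H y (pair a (pair e n)) m`.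
-/

namespace Pool.Agent.NI

theorem rec_index (H : Rl → ℕ → ℕ → Prop) (hc : Ct H) (hs : Sv H) :
    ∃ c : Rl, ∀ y, TRed c y → ∀ a, ∃ e, ∀ n m,
      m ∈ Phi y e n ↔ H y (Nat.pair a (Nat.pair e n)) m := by
  let K : Rl → ℕ → ℕ → Prop := fun y q m =>
    H y (Nat.pair q.unpair.1
      (Nat.pair (smn q.unpair.2.unpair.1 q.unpair.2.unpair.1) q.unpair.2.unpair.2)) m
  have hKc : Ct K := fun y n m h => hc y _ m h
  have hKs : Sv K := fun y n m m' h h' => hs y _ m m' h h'
  obtain ⟨c, hcc⟩ := ct_index K hKc hKs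
  refine ⟨c, fun y hy a => ?_⟩
  obtain ⟨i, hi⟩ := hcc y hy
  refine ⟨smn (smn i a) (smn i a), fun n m => ?_⟩
  rw [smn_spec, smn_spec, hi]
  simp [K]

end Pool.Agent.NI
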