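import Pool.Agent.NI.Wit
import Pool.Agent.NI.Rec
import Pool.Agent.NI.FVl

/-!
# Dgl: the inverse system of attempts to find a witness

`a = pair ef (pair d1 d2)`: `ef` an index of the reduction, `smn d1 e`, `smn d2 e` indices of two structures.
`TF B a e y s`: with oracle `y` the finite sequence `s` is seen to fail. `Vl B a e y s`: it is not true that
all `y'` which agree with `y` below `s.length` see that `s` fails; this depends only on
`y` below `s.length`.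
* `Fail_mono`: `Fail` is monotone in `K1`, `K2`, `g` and antitone in `E` (only the conditions used are
  existential, `¬ E q p` is the only occurrence of `E`).
* `TF_mono`: by `Fail_mono`, `s[i]?` is kept in extensions.
* `TF_open`: `TF` is an existential statement over finitely many conditions of the form
  `j ∈ Phi y ef i`, `b ∈ Phi y j q` (`Phi_use`), `gS s i m` (no oracle), `¬ ER B y q p`, where the truth value of
  `ER B y q p` depends only on finitely many bits of `y` (for `p = pair 1 (encode s)` the first `s.length + 1`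
  bits, for `q = pair 1 (encode s)` the first `s.length` bits; all other conditions do not contain `y`).
* `Vl_pre`: if `s` is not `Vl` then by `TF_mono` `s ++ [b]` is not.
* `Vl_branch`: `→`: suppose `Fail ... (fun i m => G i = m)`; finitely many values of `G` are used, so
  `TF B a e y (pre G n)` for some `n`; take `t` from `TF_open` and `n' = max n t`: all `y'` which agree with `y`
  below `n'` satisfy `TF B a e y' (pre G n)`, so `TF B a e y' (pre G n')`: `¬ Vl (pre G n')`. `←`: if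
  `¬ Vl (pre G n)` then `TF B a e y (pre G n)` (take `y' = y`), so `Fail` by `Fail_mono`.
* `index_FV`: `rec_index` for `H y (pair a (pair e q)) m ↔ m = FV (Vl B a e y) q.unpair.1 q.unpair.2`; it is
  continuous with `t = q.unpair.1 + 1`, because `FV T n k` uses `T` only at a list of length `n + 1`.
-/

namespace Pool.Agent.NI

/-- The known bits of the structure whose index is the output of the functional `ef` at `i`. -/
def Kn (y : Rl) (ef i : ℕ) (k : ℕ) (l : List ℕ) (b : ℕ) : Prop :=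
  l.length = VT k ∧ ∃ j ∈ Phi y ef i, b ∈ Phi y j (Nat.pair k (Encodable.encode l))

/-- The known values of a finite sequence. -/
def gS (s : List ℕ) (i m : ℕ) : Prop := s[i]? = some m

/-- With oracle `y` it is seen that `s` is not an initial segment of a witness. -/
def TF (B : List ℕ → List Bool → Prop) (a e : ℕ) (y : Rl) (s : List ℕ) : Prop :=
  Fail (Kn y a.unpair.1 (smn a.unpair.2.unpair.1 e)) (Kn y a.unpair.1 (smn a.unpair.2.unpair.2 e))
    (ER B y) (gS s)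

/-- The tree of attempts. -/
def Vl (B : List ℕ → List Bool → Prop) (a e : ℕ) (y : Rl) (s : List ℕ) : Prop :=
  ¬ ∀ y' : Rl, (∀ i < s.length, y' i = y i) → TF B a e y' s

theorem Fail_mono {K1 K2 K1' K2' : ℕ → List ℕ → ℕ → Prop} {E E' : ℕ → ℕ → Prop}
    {g g' : ℕ → ℕ → Prop} (h1 : ∀ k l b, K1 k l b → K1' k l b) (h2 : ∀ k l b, K2 k l b → K2' k l b)
    (hE : ∀ q p, E' q p → E q p) (hg : ∀ i m, g i m → g' i m) (h : Fail K1 K2 E g) :
    Fail K1' K2' E' g' := by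
  rcases h with ⟨k, b, a1, a2, a3⟩ | ⟨a0, n, z, a1, a2⟩ | ⟨a0, n, z, a, a1, a2, a3⟩ |
    ⟨a0, n, z, a, v, a1, a2, a3, a4⟩ | ⟨a0, n, z, a, w, v, p, q, a1, a2, a3, a4, a5, a6, a7⟩
  · exact Or.inl ⟨k, b, hg _ _ a1, h1 _ _ _ a2, h2 _ _ _ a3⟩
  · exact Or.inr (Or.inl ⟨hg _ _ a0, n, z, hg _ _ a1, h1 _ _ _ a2⟩)
  · exact Or.inr (Or.inr (Or.inl ⟨hg _ _ a0, n, z, a, hg _ _ a1, hg _ _ a2, h1 _ _ _ a3⟩))
  · exact Or.inr (Or.inr (Or.inr (Or.inl ⟨hg _ _ a0, n, z, a, v, hg _ _ a1, hg _ _ a2, hg _ _ a3,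
      h1 _ _ _ a4⟩)))
  · exact Or.inr (Or.inr (Or.inr (Or.inr ⟨hg _ _ a0, n, z, a, w, v, p, q, hg _ _ a1, h2 _ _ _ a2,
      h2 _ _ _ a3, h2 _ _ _ a4, hg _ _ a5, hg _ _ a6, fun hq => a7 (hE _ _ hq)⟩)))

/-- open predicates -/
def Dgl_Op (p : Rl → Prop) : Prop := ∀ y, p y → ∃ t, ∀ y' : Rl, (∀ i < t, y' i = y i) → p y'

theorem Dgl_const (p : Prop) : Dgl_Op (fun _ => p) := fun _ h => ⟨0, fun _ _ => h⟩

theorem Dgl_and {p q : Rl → Prop} (hp : Dgl_Op p) (hq : Dgl_Op q) : Dgl_Op (fun y => p y ∧ q y) := by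
  rintro y ⟨h1, h2⟩
  obtain ⟨t1, ht1⟩ := hp y h1
  obtain ⟨t2, ht2⟩ := hq y h2
  refine ⟨max t1 t2, fun y' hy' => ⟨ht1 y' fun i hi => hy' i (lt_max_of_lt_left hi),
    ht2 y' fun i hi => hy' i (lt_max_of_lt_right hi)⟩⟩

theorem Dgl_or {p q : Rl → Prop} (hp : Dgl_Op p) (hq : Dgl_Op q) : Dgl_Op (fun y => p y ∨ q y) := by
  rintro y (h | h)
  · obtain ⟨t, ht⟩ := hp y h
    exact ⟨t, fun y' hy' => Or.inl (ht y' hy')⟩
  · obtain ⟨t, ht⟩ := hq y h
    exact ⟨t, fun y' hy' => Or.inr (ht y' hy')⟩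

theorem Dgl_ex {ι : Type} {p : ι → Rl → Prop} (hp : ∀ i, Dgl_Op (p i)) : Dgl_Op (fun y => ∃ i, p i y) := by
  rintro y ⟨i, h⟩
  obtain ⟨t, ht⟩ := hp i y h
  exact ⟨t, fun y' hy' => ⟨i, ht y' hy'⟩⟩

theorem Dgl_Phi (i n m : ℕ) : Dgl_Op (fun y => m ∈ Phi y i n) := fun y h => Phi_use i y n m h

theorem Dgl_Kn (ef i k : ℕ) (l : List ℕ) (b : ℕ) : Dgl_Op (fun y => Kn y ef i k l b) :=
  Dgl_and (Dgl_const _) (Dgl_ex fun j => Dgl_and (Dgl_Phi ef i j) (Dgl_Phi j _ b))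

theorem Dgl_pre {f g : Rl} {n : ℕ} (h : ∀ i < n, f i = g i) : pre f n = pre g n := by
  unfold pre
  rw [List.map_inj_left]
  intro i hi
  exact h i (List.mem_range.1 hi)

theorem Dgl_ER (B : List ℕ → List Bool → Prop) (q p : ℕ) : Dgl_Op (fun y => ¬ ER B y q p) := by
  intro y hy
  refine ⟨(Denumerable.ofNat (List ℕ) p.unpair.2).length +
    (Denumerable.ofNat (List ℕ) q.unpair.2).length + 2, ?_⟩
  intro y' hy' h
  apply hy
  rcases h with ⟨m, m', h1, h2, h3⟩ | ⟨s, m', h1, h2⟩ | ⟨s, a, h1, h2, h3⟩ | ⟨c, m', h1, h2⟩ |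
    ⟨c, s, h1, h2, h3⟩ | ⟨c, c', h1, h2, h3⟩
  · exact Or.inl ⟨m, m', h1, h2, h3⟩
  · exact Or.inr (Or.inl ⟨s, m', h1, h2⟩)
  · refine Or.inr (Or.inr (Or.inl ⟨s, a, h1, h2, ?_⟩))
    have hs : Denumerable.ofNat (List ℕ) p.unpair.2 = s := by
      rw [h1, Nat.unpair_pair]
      exact Denumerable.ofNat_encode s
    rw [hs] at hy'
    have e : pre y' (s.length + 1) = pre y (s.length + 1) := Dgl_pre fun i hi => hy' i (by omega)
    rwa [e] at h3
  · exact Or.inr (Or.inr (Or.inr (Or.inl ⟨c, m', h1, h2⟩)))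
  · refine Or.inr (Or.inr (Or.inr (Or.inr (Or.inl ⟨c, s, h1, h2, ?_⟩))))
    have hs : Denumerable.ofNat (List ℕ) q.unpair.2 = s := by
      rw [h2, Nat.unpair_pair]
      exact Denumerable.ofNat_encode s
    rw [hs] at hy'
    have e : pre y' s.length = pre y s.length := Dgl_pre fun i hi => hy' i (by omega)
    rwa [e] at h3
  · exact Or.inr (Or.inr (Or.inr (Or.inr (Or.inr ⟨c, c', h1, h2, h3⟩))))

theorem TF_open (B : List ℕ → List Bool → Prop) (a e : ℕ) (y : Rl) (s : List ℕ)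
    (h : TF B a e y s) : ∃ t, ∀ y' : Rl, (∀ i < t, y' i = y i) → TF B a e y' s := by
  have key : Dgl_Op (fun y => TF B a e y s) := by
    unfold TF Fail
    refine Dgl_or ?_ (Dgl_or ?_ (Dgl_or ?_ (Dgl_or ?_ ?_)))
    · exact Dgl_ex fun k => Dgl_ex fun b => Dgl_and (Dgl_const _) (Dgl_and (Dgl_Kn _ _ _ _ _)
        (Dgl_Kn _ _ _ _ _))
    · exact Dgl_and (Dgl_const _) (Dgl_ex fun n => Dgl_ex fun z => Dgl_and (Dgl_const _)
        (Dgl_Kn _ _ _ _ _))
    · exact Dgl_and (Dgl_const _) (Dgl_ex fun n => Dgl_ex fun z => Dgl_ex fun a =>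
        Dgl_and (Dgl_const _) (Dgl_and (Dgl_const _) (Dgl_Kn _ _ _ _ _)))
    · exact Dgl_and (Dgl_const _) (Dgl_ex fun n => Dgl_ex fun z => Dgl_ex fun a => Dgl_ex fun v =>
        Dgl_and (Dgl_const _) (Dgl_and (Dgl_const _) (Dgl_and (Dgl_const _) (Dgl_Kn _ _ _ _ _))))
    · exact Dgl_and (Dgl_const _) (Dgl_ex fun n => Dgl_ex fun z => Dgl_ex fun a => Dgl_ex fun w =>
        Dgl_ex fun v => Dgl_ex fun p => Dgl_ex fun q => Dgl_and (Dgl_const _)
        (Dgl_and (Dgl_Kn _ _ _ _ _) (Dgl_and (Dgl_Kn _ _ _ _ _) (Dgl_and (Dgl_Kn _ _ _ _ _)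
        (Dgl_and (Dgl_const _) (Dgl_and (Dgl_const _) (Dgl_ER B q p)))))))
  exact key y h

theorem Dgl_mono (B : List ℕ → List Bool → Prop) (a e : ℕ) (y : Rl) (s s' : List ℕ)
    (hs : ∀ i m, gS s i m → gS s' i m) (h : TF B a e y s) : TF B a e y s' :=
  Fail_mono (fun _ _ _ h => h) (fun _ _ _ h => h) (fun _ _ h => h) hs h

theorem Vl_pre (B : List ℕ → List Bool → Prop) (a e : ℕ) (y : Rl) (s : List ℕ) (b : ℕ)
    (h : Vl B a e y (s ++ [b])) : Vl B a e y s := by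
  intro hs
  apply h
  intro y' hy'
  refine Dgl_mono B a e y' s (s ++ [b]) ?_ (hs y' fun i hi => hy' i ?_)
  · intro i m him
    unfold gS at him ⊢
    obtain ⟨hi, -⟩ := List.getElem?_eq_some_iff.1 him
    rw [List.getElem?_append_left hi]
    exact him
  · rw [List.length_append]
    omega

theorem Dgl_gS (G : ℕ → ℕ) (N i m : ℕ) : gS (pre G N) i m ↔ i < N ∧ G i = m := by
  unfold gS pre
  rw [List.getElem?_map]
  by_cases hi : i < N
  · rw [List.getElem?_range hi]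
    simp [hi]
  · rw [List.getElem?_eq_none (by rw [List.length_range]; omega)]
    simp [hi]

theorem Dgl_len (G : ℕ → ℕ) (n : ℕ) : (pre G n).length = n := by
  unfold pre
  rw [List.length_map, List.length_range]

theorem Dgl_fin {K1 K2 : ℕ → List ℕ → ℕ → Prop} {E : ℕ → ℕ → Prop} (G : ℕ → ℕ)
    (h : Fail K1 K2 E (fun i m => G i = m)) : ∃ N, Fail K1 K2 E (gS (pre G N)) := by
  rcases h with ⟨k, b, a1, a2, a3⟩ | ⟨a0, n, z, a1, a2⟩ | ⟨a0, n, z, a, a1, a2, a3⟩ |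
    ⟨a0, n, z, a, v, a1, a2, a3, a4⟩ | ⟨a0, n, z, a, w, v, p, q, a1, a2, a3, a4, a5, a6, a7⟩
  · exact ⟨1, Or.inl ⟨k, b, (Dgl_gS G _ _ _).2 ⟨by omega, a1⟩, a2, a3⟩⟩
  · exact ⟨Nat.pair 1 n + 1, Or.inr (Or.inl ⟨(Dgl_gS G _ _ _).2 ⟨by omega, a0⟩, n, z,
      (Dgl_gS G _ _ _).2 ⟨by omega, a1⟩, a2⟩)⟩
  · exact ⟨Nat.pair 1 (n + 1) + Nat.pair 2 n + 1, Or.inr (Or.inr (Or.inl
      ⟨(Dgl_gS G _ _ _).2 ⟨by omega, a0⟩, n, z, a, (Dgl_gS G _ _ _).2 ⟨by omega, a1⟩,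
      (Dgl_gS G _ _ _).2 ⟨by omega, a2⟩, a3⟩))⟩
  · exact ⟨Nat.pair 1 n + Nat.pair 2 n + Nat.pair 3 n + 1, Or.inr (Or.inr (Or.inr (Or.inl
      ⟨(Dgl_gS G _ _ _).2 ⟨by omega, a0⟩, n, z, a, v, (Dgl_gS G _ _ _).2 ⟨by omega, a1⟩,
      (Dgl_gS G _ _ _).2 ⟨by omega, a2⟩, (Dgl_gS G _ _ _).2 ⟨by omega, a3⟩, a4⟩)))⟩
  · exact ⟨Nat.pair 3 n + Nat.pair 4 z + Nat.pair 4 w + 1, Or.inr (Or.inr (Or.inr (Or.inr
      ⟨(Dgl_gS G _ _ _).2 ⟨by omega, a0⟩, n, z, a, w, v, p, q, (Dgl_gS G _ _ _).2 ⟨by omega, a1⟩,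
      a2, a3, a4, (Dgl_gS G _ _ _).2 ⟨by omega, a5⟩, (Dgl_gS G _ _ _).2 ⟨by omega, a6⟩, a7⟩)))⟩

theorem Vl_branch (B : List ℕ → List Bool → Prop) (a e : ℕ) (y : Rl) (G : ℕ → ℕ) :
    (∀ n, Vl B a e y (pre G n)) ↔
      ¬ Fail (Kn y a.unpair.1 (smn a.unpair.2.unpair.1 e))
        (Kn y a.unpair.1 (smn a.unpair.2.unpair.2 e)) (ER B y) (fun i m => G i = m) := by
  constructor
  · intro hV hF
    obtain ⟨N, hN⟩ := Dgl_fin G hF
    obtain ⟨t, ht⟩ := TF_open B a e y (pre G N) hN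
    apply hV (max N t)
    intro y' hy'
    rw [Dgl_len] at hy'
    refine Dgl_mono B a e y' (pre G N) _ ?_ (ht y' fun i hi => hy' i (lt_max_of_lt_right hi))
    intro i m him
    rw [Dgl_gS] at him ⊢
    exact ⟨lt_max_of_lt_left him.1, him.2⟩
  · intro hF n hV
    apply hF
    refine Fail_mono (fun _ _ _ h => h) (fun _ _ _ h => h) (fun _ _ h => h) ?_ (hV y fun _ _ => rfl)
    intro i m him
    exact ((Dgl_gS G _ _ _).1 him).2

theorem Dgl_Vl_congr (B : List ℕ → List Bool → Prop) (a e : ℕ) (y y' : Rl) (s : List ℕ)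
    (h : ∀ i < s.length, y' i = y i) : Vl B a e y s ↔ Vl B a e y' s := by
  unfold Vl
  apply not_congr
  constructor
  · intro h1 z hz
    exact h1 z fun i hi => (hz i hi).trans (h i hi)
  · intro h1 z hz
    exact h1 z fun i hi => (hz i hi).trans (h i hi).symm

theorem Dgl_FV (B : List ℕ → List Bool → Prop) (a e : ℕ) (y y' : Rl) (n k : ℕ)
    (h : ∀ i < n + 1, y' i = y i) : FV (Vl B a e y) n k = FV (Vl B a e y') n k := by
  unfold FV
  have h1 : ((Denumerable.ofNat (List ℕ) k).length = n + 1 ∧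
      Vl B a e y (Denumerable.ofNat (List ℕ) k)) ↔
      ((Denumerable.ofNat (List ℕ) k).length = n + 1 ∧
      Vl B a e y' (Denumerable.ofNat (List ℕ) k)) := by
    apply and_congr_right
    intro hl
    apply Dgl_Vl_congr
    rw [hl]
    exact h
  by_cases hc : (Denumerable.ofNat (List ℕ) k).length = n + 1 ∧
      Vl B a e y (Denumerable.ofNat (List ℕ) k)
  · rw [if_pos hc, if_pos (h1.1 hc)]
  · rw [if_neg hc, if_neg (fun h2 => hc (h1.2 h2))]

theorem index_FV (B : List ℕ → List Bool → Prop) :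
    ∃ c : Rl, ∀ y, TRed c y → ∀ a, ∃ e, ∀ n k,
      Phi y e (Nat.pair n k) = Part.some (FV (Vl B a e y) n k) := by
  let H : Rl → ℕ → ℕ → Prop := fun y z m =>
    m = FV (Vl B z.unpair.1 z.unpair.2.unpair.1 y) z.unpair.2.unpair.2.unpair.1
      z.unpair.2.unpair.2.unpair.2
  have hct : Ct H := by
    intro y z m h
    refine ⟨z.unpair.2.unpair.2.unpair.1 + 1, fun y' hy' => ?_⟩
    have h1 : m = FV (Vl B z.unpair.1 z.unpair.2.unpair.1 y) z.unpair.2.unpair.2.unpair.1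
      z.unpair.2.unpair.2.unpair.2 := h
    show m = FV (Vl B z.unpair.1 z.unpair.2.unpair.1 y') z.unpair.2.unpair.2.unpair.1
      z.unpair.2.unpair.2.unpair.2
    rw [h1]
    exact Dgl_FV B _ _ y y' _ _ hy'
  have hsv : Sv H := by
    intro y z m m' h h'
    have h1 : m = FV (Vl B z.unpair.1 z.unpair.2.unpair.1 y) z.unpair.2.unpair.2.unpair.1
      z.unpair.2.unpair.2.unpair.2 := h
    have h2 : m' = FV (Vl B z.unpair.1 z.unpair.2.unpair.1 y) z.unpair.2.unpair.2.unpair.1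
      z.unpair.2.unpair.2.unpair.2 := h'
    rw [h1, h2]
  obtain ⟨c, hc⟩ := rec_index H hct hsv
  refine ⟨c, fun y hy a => ?_⟩
  obtain ⟨e, he⟩ := hc y hy a
  refine ⟨e, fun n k => ?_⟩
  rw [Part.eq_some_iff, he]
  show FV (Vl B a e y) n k = FV (Vl B (Nat.pair a (Nat.pair e (Nat.pair n k))).unpair.1
    (Nat.pair a (Nat.pair e (Nat.pair n k))).unpair.2.unpair.1 y)
    (Nat.pair a (Nat.pair e (Nat.pair n k))).unpair.2.unpair.2.unpair.1
    (Nat.pair a (Nat.pair e (Nat.pair n k))).unpair.2.unpair.2.unpair.2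
  simp only [Nat.unpair_pair]

theorem index_cW : ∃ c : Rl, ∀ y, TRed c y → ∀ (j : ℕ) (M : Str VT), IsIdx y j M →
    TRed (cW (xof M)) y := by
  let H : Rl → ℕ → ℕ → Prop := fun y z m =>
    m ∈ Phi y z.unpair.1 (Nat.pair (4 * Nat.pair 5 z.unpair.2) (Encodable.encode ([0] : List ℕ)))
  have hct : Ct H := fun y z m h => Phi_use _ y _ m h
  have hsv : Sv H := fun y z m m' h h' => Part.mem_unique h h'
  obtain ⟨c, hc⟩ := ct_index H hct hsv
  refine ⟨c, fun y hy j M hM => ?_⟩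
  obtain ⟨i, hi⟩ := hc y hy
  refine ⟨smn i j, fun n => ?_⟩
  rw [smn_spec, Part.eq_some_iff, hi]
  show (cW (xof M) n).toNat ∈ Phi y (Nat.pair j n).unpair.1
    (Nat.pair (4 * Nat.pair 5 (Nat.pair j n).unpair.2) (Encodable.encode ([0] : List ℕ)))
  simp only [Nat.unpair_pair]
  have hV : ([0] : List ℕ).length = VT (4 * Nat.pair 5 n) := by
    unfold VT
    rw [if_pos (by omega)]
    rfl
  rw [hM _ _ hV, Part.mem_some_iff]
  show (xof M (Nat.pair 5 n)).toNat = _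
  unfold xof
  by_cases h : M.rel (4 * Nat.pair 5 n) [0]
  · simp [h]
  · simp [h]

end Pool.Agent.NI
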