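import Pool.Agent.NI.Hrd
import Pool.Agent.NI.Fun

/-!
# Dia: indices of the two structures, uniformly in an index of `F`

* `loc_A`: the truth value of `(SA F).rel k l` depends on finitely many values of `F`: for `k = 4 p` on the
  single value `F n k'`, where `p = cF n k' j` (if `p` has this form; `cF` is injective); for `k = 4 p + 1`,
  `4 p + 2` on nothing; for `k = 4 p + 3` on the values `F p i` for `i` in the support of `(thz z).2`
  (`l = [z, z']`; `Finsupp.mapDomain` depends only on the values on the support: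
  `Finsupp.mapDomain_congr`). `loc_B`: the same, with `thf` and in addition the value `F p 0`.
* `dia_A`: let `N k l` be a bound as in `loc_A` (choice). Define `H y (pair e q) m` (with
  `q = pair k (encode l)`, decoded with `Nat.unpair` and `Denumerable.ofNat (List ℕ)`) by: there is
  `G : ℕ → ℕ → ℕ` with `∀ n < N, ∀ i < N, G n i ∈ Phi y e (pair n i)` and `m = if (SA G).rel k l then 1 else 0`.
  It is continuous (finitely many computations, `Phi_use`, maximum of the uses) and single valued (two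
  such `G` agree below `N`). Let `d` be the index given by `ct_index`. If `Phi y e (pair n i) = some (F n i)` for
  all `n, i`, then by `smn_spec` `Phi y (smn d e) (pair k (encode l)) = some (if (SA F).rel k l then 1 else 0)`.
-/

namespace Pool.Agent.NI

theorem Dia_xF (F F' : ℕ → ℕ → ℕ) (N p : ℕ) (hp : p < N)
    (h : ∀ n < N, ∀ i < N, F n i = F' n i) (hx : xF F p = true) : xF F' p = true := by
  classical
  obtain ⟨n, k, hnk⟩ := of_decide_eq_true hx
  refine decide_eq_true ⟨n, k, ?_⟩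
  have h1 : n ≤ p := by
    rw [hnk]
    unfold cF
    exact (Nat.left_le_pair _ _).trans (Nat.right_le_pair _ _)
  have h2 : k ≤ p := by
    rw [hnk]
    unfold cF
    exact (Nat.left_le_pair _ _).trans ((Nat.right_le_pair _ _).trans (Nat.right_le_pair _ _))
  rw [← h n (by omega) k (by omega)]
  exact hnk

theorem Dia_push (F F' : ℕ → ℕ → ℕ) (N p : ℕ) (v : V) (hp : p < N)
    (hv : ∀ i ∈ v.support, i < N)
    (h : ∀ n < N, ∀ i < N, F n i = F' n i) : push F p v = push F' p v := by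
  unfold push
  apply Finsupp.mapDomain_congr
  intro i hi
  exact h p hp i (hv i hi)

theorem Dia_one (θ : ℕ ≃ ℕ × V) (K : (ℕ → ℕ → ℕ) → ℕ → V)
    (hK : ∀ (N p : ℕ) (F F' : ℕ → ℕ → ℕ), p < N → (∀ n < N, ∀ i < N, F n i = F' n i) →
      K F p = K F' p) (N k : ℕ) (l : List ℕ) (hk : k < N)
    (hN : ∀ i ∈ (θ (l.getD 0 0)).2.support, i < N) (F F' : ℕ → ℕ → ℕ)
    (h : ∀ n < N, ∀ i < N, F n i = F' n i) (hr : (Std (xF F) F (K F) θ).rel k l) :
    (Std (xF F') F' (K F') θ).rel k l := by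
  rcases hr with ⟨p, z, hk', hl, hx⟩ | hr | hr | ⟨p, z, z', hk', hl, h1, h2, h3⟩
  · exact Or.inl ⟨p, z, hk', hl, Dia_xF F F' N p (by omega) h hx⟩
  · exact Or.inr (Or.inl hr)
  · exact Or.inr (Or.inr (Or.inl hr))
  · refine Or.inr (Or.inr (Or.inr ⟨p, z, z', hk', hl, h1, h2, ?_⟩))
    have hz : l.getD 0 0 = z := by rw [hl]; rfl
    rw [hz] at hN
    rw [h3, Dia_push F F' N p _ (by omega) hN h, hK N p F F' (by omega) h]

theorem Dia_loc (θ : ℕ ≃ ℕ × V) (K : (ℕ → ℕ → ℕ) → ℕ → V)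
    (hK : ∀ (N p : ℕ) (F F' : ℕ → ℕ → ℕ), p < N → (∀ n < N, ∀ i < N, F n i = F' n i) →
      K F p = K F' p) (k : ℕ) (l : List ℕ) : ∃ N, ∀ F F' : ℕ → ℕ → ℕ,
    (∀ n < N, ∀ i < N, F n i = F' n i) →
      ((Std (xF F) F (K F) θ).rel k l ↔ (Std (xF F') F' (K F') θ).rel k l) := by
  refine ⟨k + 1 + ((θ (l.getD 0 0)).2.support.sup id), fun F F' h => ?_⟩
  have hN : ∀ i ∈ (θ (l.getD 0 0)).2.support,
      i < k + 1 + ((θ (l.getD 0 0)).2.support.sup id) := by
    intro i hi
    have : i ≤ (θ (l.getD 0 0)).2.support.sup id := Finset.le_sup (f := id) hi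
    omega
  constructor
  · exact Dia_one θ K hK _ k l (by omega) hN F F' h
  · exact Dia_one θ K hK _ k l (by omega) hN F' F (fun n hn i hi => (h n hn i hi).symm)

theorem loc_A (k : ℕ) (l : List ℕ) : ∃ N, ∀ F F' : ℕ → ℕ → ℕ,
    (∀ n < N, ∀ i < N, F n i = F' n i) → ((SA F).rel k l ↔ (SA F').rel k l) :=
  Dia_loc thz (fun _ _ => 0) (fun _ _ _ _ _ _ => rfl) k l

theorem loc_B (k : ℕ) (l : List ℕ) : ∃ N, ∀ F F' : ℕ → ℕ → ℕ,
    (∀ n < N, ∀ i < N, F n i = F' n i) → ((SB F).rel k l ↔ (SB F').rel k l) :=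
  Dia_loc thf (fun F n => Finsupp.single (F n 0) 1 + Finsupp.single 0 1)
    (fun N p F F' hp h => by
      show Finsupp.single (F p 0) 1 + Finsupp.single 0 1 =
        Finsupp.single (F' p 0) 1 + Finsupp.single 0 1
      rw [h p hp 0 (by omega)]) k l

theorem dia_gen (S : (ℕ → ℕ → ℕ) → Str VT)
    (hS : ∀ k l, ∃ N, ∀ F F' : ℕ → ℕ → ℕ,
      (∀ n < N, ∀ i < N, F n i = F' n i) → ((S F).rel k l ↔ (S F').rel k l)) :
    ∃ c : Rl, ∀ y, TRed c y → ∃ d, ∀ (e : ℕ) (F : ℕ → ℕ → ℕ),
      (∀ n i, Phi y e (Nat.pair n i) = Part.some (F n i)) → IsIdx y (smn d e) (S F) := by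
  classical
  choose N hN using hS
  let kk : ℕ → ℕ := fun w => w.unpair.2.unpair.1
  let ll : ℕ → List ℕ := fun w => Denumerable.ofNat (List ℕ) w.unpair.2.unpair.2
  let H : Rl → ℕ → ℕ → Prop := fun y w m => ∃ G : ℕ → ℕ → ℕ,
    (∀ n < N (kk w) (ll w), ∀ i < N (kk w) (ll w), G n i ∈ Phi y w.unpair.1 (Nat.pair n i)) ∧
      m = if (S G).rel (kk w) (ll w) then 1 else 0
  have hc : Ct H := by
    rintro y w m ⟨G, hG, hm⟩
    have huse : ∀ n i, ∃ t, n < N (kk w) (ll w) → i < N (kk w) (ll w) →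
        ∀ y' : Rl, (∀ j < t, y' j = y j) → G n i ∈ Phi y' w.unpair.1 (Nat.pair n i) := by
      intro n i
      by_cases h1 : n < N (kk w) (ll w)
      · by_cases h2 : i < N (kk w) (ll w)
        · obtain ⟨t, ht⟩ := Phi_use _ y _ _ (hG n h1 i h2)
          exact ⟨t, fun _ _ => ht⟩
        · exact ⟨0, fun _ h => absurd h h2⟩
      · exact ⟨0, fun h => absurd h h1⟩
    choose t ht using huse
    refine ⟨((Finset.range (N (kk w) (ll w))).sup fun n =>
      (Finset.range (N (kk w) (ll w))).sup fun i => t n i), fun y' hy' => ⟨G, ?_, hm⟩⟩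
    intro n hn i hi
    refine ht n i hn hi y' (fun j hj => hy' j (lt_of_lt_of_le hj ?_))
    have e1 : t n i ≤ (Finset.range (N (kk w) (ll w))).sup fun i => t n i :=
      Finset.le_sup (f := fun i => t n i) (Finset.mem_range.mpr hi)
    have e2 : ((Finset.range (N (kk w) (ll w))).sup fun i => t n i) ≤
        ((Finset.range (N (kk w) (ll w))).sup fun n =>
      (Finset.range (N (kk w) (ll w))).sup fun i => t n i) :=
      Finset.le_sup (f := fun n => (Finset.range (N (kk w) (ll w))).sup fun i => t n i)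
        (Finset.mem_range.mpr hn)
    exact e1.trans e2
  have hs : Sv H := by
    rintro y w m m' ⟨G, hG, hm⟩ ⟨G', hG', hm'⟩
    have hag := hN (kk w) (ll w) G G' (fun n hn i hi => Part.mem_unique (hG n hn i hi)
      (hG' n hn i hi))
    rw [hm, hm']
    by_cases hr : (S G).rel (kk w) (ll w)
    · rw [if_pos hr, if_pos (hag.mp hr)]
    · rw [if_neg hr, if_neg (fun h => hr (hag.mpr h))]
  obtain ⟨c, hc'⟩ := ct_index H hc hs
  refine ⟨c, fun y hy => ?_⟩
  obtain ⟨d, hd⟩ := hc' y hy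
  refine ⟨d, fun e F hF => ?_⟩
  intro k l _
  rw [smn_spec, Part.eq_some_iff, hd]
  have e1 : (Nat.pair e (Nat.pair k (Encodable.encode l))).unpair.1 = e := by
    rw [Nat.unpair_pair]
  have e2 : kk (Nat.pair e (Nat.pair k (Encodable.encode l))) = k := by
    simp only [kk, Nat.unpair_pair]
  have e3 : ll (Nat.pair e (Nat.pair k (Encodable.encode l))) = l := by
    simp only [ll, Nat.unpair_pair, Denumerable.ofNat_encode]
  refine ⟨F, ?_, ?_⟩
  · intro n _ i _
    rw [e1, hF n i]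
    exact Part.mem_some _
  · rw [e2, e3]

end Pool.Agent.NI
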