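import Pool.Agent.NI.Grd

/-!
# ERl: the well-founded relation of a real in `P`
-/

namespace Pool.Agent.NI

theorem ERl_notAcc {α : Type} {R : α → α → Prop} {p : α} (h : ¬ Acc R p) : ∃ q, R q p ∧ ¬ Acc R q := by
  by_contra hcon
  push Not at hcon
  exact h (Acc.intro p hcon)

/-- An infinite branch from a property of finite sequences. -/
theorem ERl_branch (B : List ℕ → List Bool → Prop) (hB : PC B) (y : Rl) (Q : List ℕ → Prop) (s₀ : List ℕ)
    (h₀ : Q s₀) (hs : ∀ s, Q s → ∃ a, B (s ++ [a]) (pre y (s.length + 1)) ∧ Q (s ++ [a])) :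
    ∃ z : ℕ → ℕ, ∀ n, B (pre z n) (pre y n) := by
  choose! a ha hQ using hs
  let g : List ℕ → List ℕ := fun s => s ++ [a s]
  let f : ℕ → List ℕ := fun k => g^[k] s₀
  have hf1 : ∀ k, f (k + 1) = f k ++ [a (f k)] := fun k => Function.iterate_succ_apply' g k s₀
  have hfQ : ∀ k, Q (f k) := by
    intro k
    induction k with
    | zero => exact h₀
    | succ k ih => rw [hf1]; exact hQ _ ih
  have hlen : ∀ k, (f k).length = s₀.length + k := by
    intro k
    induction k with
    | zero => rfl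
    | succ k ih => rw [hf1, List.length_append, ih]; rfl
  have hpre : ∀ k i, i < (f k).length → ∀ j, (f (k + j)).getD i 0 = (f k).getD i 0 := by
    intro k i hi j
    induction j with
    | zero => rfl
    | succ j ih =>
      rw [← ih, ← add_assoc, hf1, List.getD_append]
      rw [hlen] at hi ⊢
      omega
  let z : ℕ → ℕ := fun i => (f (i + 1)).getD i 0
  have hz : ∀ k i, i < (f k).length → z i = (f k).getD i 0 := by
    intro k i hi
    rcases le_total k (i + 1) with h | h
    · obtain ⟨j, hj⟩ := Nat.exists_eq_add_of_le h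
      show (f (i + 1)).getD i 0 = _
      rw [hj]
      exact hpre k i hi j
    · obtain ⟨j, hj⟩ := Nat.exists_eq_add_of_le h
      show (f (i + 1)).getD i 0 = _
      rw [hj]
      exact (hpre (i + 1) i (by rw [hlen]; omega) j).symm
  have hprez : ∀ k, pre z (f k).length = f k := by
    intro k
    apply List.ext_getElem
    · simp [pre]
    · intro i h1 h2
      have h3 := hz k i h2
      simp only [pre, List.getElem_map, List.getElem_range]
      rw [h3, List.getD_eq_getElem _ _ h2]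
  have hbig : ∀ k, B (pre z (s₀.length + (k + 1))) (pre y (s₀.length + (k + 1))) := by
    intro k
    have h1 := ha _ (hfQ k)
    rw [← hf1, hlen] at h1
    have h2 := hprez (k + 1)
    rw [hlen] at h2
    rw [h2]
    exact h1
  have hdown : ∀ n, B (pre z (n + 1)) (pre y (n + 1)) → B (pre z n) (pre y n) := by
    intro n h
    have e1 : ∀ {α : Type} (u : ℕ → α), pre u (n + 1) = pre u n ++ [u n] := by
      intro α u
      simp [pre, List.range_succ]
    rw [e1, e1] at h
    exact hB _ _ _ _ h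
  have hdown' : ∀ j n, B (pre z (n + j)) (pre y (n + j)) → B (pre z n) (pre y n) := by
    intro j
    induction j with
    | zero => intro n h; exact h
    | succ j ih => intro n h; exact ih n (hdown _ h)
  refine ⟨z, fun n => hdown' (s₀.length + 1) n ?_⟩
  have h1 := hbig n
  have e : s₀.length + (n + 1) = n + (s₀.length + 1) := by omega
  rw [e] at h1
  exact h1

theorem ERl_pair {a b c d : ℕ} (h : Nat.pair a b = Nat.pair c d) : a = c ∧ b = d := Nat.pair_eq_pair.mp h

theorem ER_wf (B : List ℕ → List Bool → Prop) (hB : PC B) (y : Rl) (hy : y ∈ PB B) :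
    WellFounded (ER B y) := by
  have acc0 : ∀ m, Acc (ER B y) (Nat.pair 0 m) := by
    intro m
    induction m using Nat.strong_induction_on with
    | _ m ih =>
      refine Acc.intro _ fun q hq => ?_
      rcases hq with ⟨m₁, m', h1, h2, h3⟩ | ⟨s, m', h1, h2⟩ | ⟨s, a, h1, h2, h3⟩ | ⟨c, m', h1, h2⟩ |
        ⟨c, s, h1, h2, h3⟩ | ⟨c, c', h1, h2, h3⟩
      · obtain ⟨-, rfl⟩ := ERl_pair h1
        subst h2
        exact ih m' h3
      · exact absurd (ERl_pair h1).1 (by norm_num)
      · exact absurd (ERl_pair h1).1 (by norm_num)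
      · exact absurd (ERl_pair h1).1 (by norm_num)
      · exact absurd (ERl_pair h1).1 (by norm_num)
      · exact absurd (ERl_pair h1).1 (by norm_num)
  have acc1 : ∀ s : List ℕ, Acc (ER B y) (Nat.pair 1 (Encodable.encode s)) := by
    intro s₀
    by_contra hs₀
    apply hy
    refine ERl_branch B hB y (fun s => ¬ Acc (ER B y) (Nat.pair 1 (Encodable.encode s))) s₀ hs₀ ?_
    intro s hs
    obtain ⟨q, hq, hqa⟩ := ERl_notAcc hs
    rcases hq with ⟨m₁, m', h1, h2, h3⟩ | ⟨s', m', h1, h2⟩ | ⟨s', a, h1, h2, h3⟩ | ⟨c, m', h1, h2⟩ |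
        ⟨c, s', h1, h2, h3⟩ | ⟨c, c', h1, h2, h3⟩
    · exact absurd (ERl_pair h1).1 (by norm_num)
    · subst h2
      exact absurd (acc0 m') hqa
    · have h4 := Encodable.encode_injective (ERl_pair h1).2
      subst h4
      subst h2
      exact ⟨a, h3, hqa⟩
    · exact absurd (ERl_pair h1).1 (by norm_num)
    · exact absurd (ERl_pair h1).1 (by norm_num)
    · exact absurd (ERl_pair h1).1 (by norm_num)
  have acc2 : ∀ k m, Acc (ER B y) (Nat.pair 2 (Nat.pair k m)) := by
    intro k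
    induction k using Nat.strong_induction_on with
    | _ k ihk =>
      intro m
      induction m using Nat.strong_induction_on with
      | _ m ihm =>
        refine Acc.intro _ fun q hq => ?_
        rcases hq with ⟨m₁, m', h1, h2, h3⟩ | ⟨s', m', h1, h2⟩ | ⟨s', a, h1, h2, h3⟩ | ⟨c, m', h1, h2⟩ |
          ⟨c, s', h1, h2, h3⟩ | ⟨c, c', h1, h2, h3⟩
        · exact absurd (ERl_pair h1).1 (by norm_num)
        · exact absurd (ERl_pair h1).1 (by norm_num)
        · exact absurd (ERl_pair h1).1 (by norm_num)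
        · subst h2
          exact acc0 m'
        · subst h2
          exact acc1 s'
        · obtain ⟨-, rfl⟩ := ERl_pair h1
          subst h2
          rw [Nat.unpair_pair] at h3
          rw [← Nat.pair_unpair c']
          rcases h3 with h3 | ⟨h3, h4⟩
          · exact ihk _ h3 _
          · rw [h3]
            exact ihm _ h4
  refine ⟨fun p => ?_⟩
  rw [← Nat.pair_unpair p]
  obtain ⟨k, m⟩ := p.unpair
  simp only
  match k with
  | 0 => exact acc0 m
  | 1 =>
    have h := acc1 (Denumerable.ofNat (List ℕ) m)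
    rwa [Denumerable.encode_ofNat] at h
  | 2 =>
    rw [← Nat.pair_unpair m]
    exact acc2 _ _
  | k + 3 =>
    refine Acc.intro _ fun q hq => ?_
    rcases hq with ⟨m₁, m', h1, h2, h3⟩ | ⟨s', m', h1, h2⟩ | ⟨s', a, h1, h2, h3⟩ | ⟨c, m', h1, h2⟩ |
          ⟨c, s', h1, h2, h3⟩ | ⟨c, c', h1, h2, h3⟩
    all_goals
      have h4 := (ERl_pair h1).1
      omega

open Ordinal in
theorem ERl_rank0 (B : List ℕ → List Bool → Prop) (y : Rl) (m : ℕ) :
    Rk (ER B y) (m : Ordinal.{0}) (Nat.pair 0 m) := by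
  induction m using Nat.strong_induction_on with
  | _ m ih =>
    rw [Rk]
    intro c hc
    obtain ⟨n, rfl⟩ := Ordinal.lt_omega0.mp (hc.trans (Ordinal.natCast_lt_omega0 m))
    have hn : n < m := by exact_mod_cast hc
    exact ⟨Nat.pair 0 n, Or.inl ⟨m, n, rfl, rfl, hn⟩, ih n hn⟩

open Ordinal in
/-- Ranks below `ω + c`. -/
theorem ERl_rank_add {α : Type} (R : α → α → Prop) (p : α) (c : Ordinal.{0}) (h0 : Rk R ω p)
    (h1 : ∀ d, d < c → ∃ q, R q p ∧ Rk R (ω + d) q) : Rk R (ω + c) p := by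
  rw [Rk]
  intro d hd
  rcases lt_or_ge d ω with h | h
  · rw [Rk] at h0
    exact h0 d h
  · have e : ω + (d - ω) = d := Ordinal.add_sub_cancel_of_le h
    rw [← e] at hd ⊢
    exact h1 _ (lt_of_add_lt_add_left hd)

open Ordinal in
theorem ERl_gen (B : List ℕ → List Bool → Prop) (y : Rl) (a : Ordinal.{0}) (k : ℕ)
    (h : Rk (ER B y) a (Nat.pair 2 (Nat.pair k 0))) :
    Rk (ER B y) (a + ω) (Nat.pair 2 (Nat.pair (k + 1) 0)) := by
  have h1 : ∀ m : ℕ, Rk (ER B y) (a + m) (Nat.pair 2 (Nat.pair k m)) := by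
    intro m
    induction m with
    | zero => simpa using h
    | succ m ih =>
      have e : a + ((m + 1 : ℕ) : Ordinal.{0}) = a + m + 1 := by
        push_cast
        rw [add_assoc]
      rw [e, Rk_succ]
      refine ⟨_, ?_, ih⟩
      refine Or.inr (Or.inr (Or.inr (Or.inr (Or.inr ⟨_, _, rfl, rfl, ?_⟩))))
      rw [Nat.unpair_pair, Nat.unpair_pair]
      exact Or.inr ⟨rfl, Nat.lt_succ_self m⟩
  rw [Rk]
  intro c hc
  have h2 : ∃ m : ℕ, c ≤ a + m := by
    rcases le_total c a with h3 | h3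
    · exact ⟨0, by simpa using h3⟩
    · have e : a + (c - a) = c := Ordinal.add_sub_cancel_of_le h3
      rw [← e] at hc
      obtain ⟨m, hm⟩ := Ordinal.lt_omega0.mp (lt_of_add_lt_add_left hc)
      exact ⟨m, by rw [← hm, e]⟩
  obtain ⟨m, hm⟩ := h2
  refine ⟨Nat.pair 2 (Nat.pair k m), ?_, Rk_mono _ hm (h1 m)⟩
  refine Or.inr (Or.inr (Or.inr (Or.inr (Or.inr ⟨_, _, rfl, rfl, ?_⟩))))
  rw [Nat.unpair_pair, Nat.unpair_pair]
  exact Or.inl (Nat.lt_succ_self k)

open Ordinal in
theorem ER_rank (B : List ℕ → List Bool → Prop) (hB : PC B) (y : Rl) (β : Ordinal.{0})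
    (hβ : Rk (ChR B y) β []) :
    Rk (ER B y) (ω + β + ω + ω) (Nat.pair 2 (Nat.pair 2 0)) := by
  have hω1 : ∀ s : List ℕ, Rk (ER B y) ω (Nat.pair 1 (Encodable.encode s)) := by
    intro s
    rw [Rk]
    intro c hc
    obtain ⟨n, rfl⟩ := Ordinal.lt_omega0.mp hc
    exact ⟨Nat.pair 0 n, Or.inr (Or.inl ⟨s, n, rfl, rfl⟩), ERl_rank0 B y n⟩
  have hω2 : ∀ k : ℕ, Rk (ER B y) ω (Nat.pair 2 k) := by
    intro k
    rw [Rk]
    intro c hc
    obtain ⟨n, rfl⟩ := Ordinal.lt_omega0.mp hc
    exact ⟨Nat.pair 0 n, Or.inr (Or.inr (Or.inr (Or.inl ⟨k, n, rfl, rfl⟩))), ERl_rank0 B y n⟩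
  have h1 : ∀ c : Ordinal.{0}, ∀ s : List ℕ, Rk (ChR B y) c s →
      Rk (ER B y) (ω + c) (Nat.pair 1 (Encodable.encode s)) := by
    intro c
    induction c using WellFoundedLT.induction with
    | _ c ih =>
      intro s hs
      apply ERl_rank_add _ _ _ (hω1 s)
      intro d hd
      rw [Rk] at hs
      obtain ⟨q, ⟨a, rfl, hq⟩, hqr⟩ := hs d hd
      refine ⟨_, Or.inr (Or.inr (Or.inl ⟨s, a, rfl, rfl, ?_⟩)), ih d hd _ hqr⟩
      rw [List.length_append] at hq
      exact hq
  have h2 : Rk (ER B y) (ω + β) (Nat.pair 2 (Nat.pair 0 0)) := by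
    apply ERl_rank_add _ _ _ (hω2 _)
    intro d hd
    rw [Rk] at hβ
    obtain ⟨q, ⟨a, hqa, hq⟩, hqr⟩ := hβ d hd
    exact ⟨_, Or.inr (Or.inr (Or.inr (Or.inr (Or.inl ⟨_, q, rfl, rfl, hq⟩)))), h1 d q hqr⟩
  exact ERl_gen B y _ 1 (ERl_gen B y _ 0 h2)

theorem exists_rank (B : List ℕ → List Bool → Prop) (hB : PC B) (y : Rl) (hy : y ∈ PB B) :
    ∃ β : Ordinal.{0}, Rk (ChR B y) β [] ∧ ¬ Rk (ChR B y) (β + 1) [] := by
  apply exists_Rk_max
  apply Rk_acc
  by_contra h
  apply hy
  refine ERl_branch B hB y (fun s => ¬ Acc (ChR B y) s) [] h ?_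
  intro s hs
  obtain ⟨q, ⟨a, rfl, hq⟩, hqa⟩ := ERl_notAcc hs
  refine ⟨a, ?_, hqa⟩
  rw [List.length_append] at hq
  exact hq

end Pool.Agent.NI
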