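import Pool.Agent.NI.Der
import Pool.Agent.NI.Cod

/-!
# ExD: certificates exist for well-founded relations

Take `L', t` from `exists_der`. For every `(b, c, u)` (a countable type, numbered by `j : ℕ`) with
`t b c u` and `¬ Split (t b c) u` let `Y j` be the real with `Y j n = ` the `n`-th first component of any `v`
with `u <+: v`, `t b c v`, `n < v.length` (any two such `v` have compatible first parts, because `u` does not
split; `false` if there is no such `v`). `W`: the set `⋃ j, {w | TRed w (Y j)}` is countable (for every `j` and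
every index `i` at most one `w`), and `ℕ → Bool` is uncountable, so there is `W` outside of it. Let `x` be the
real with the columns: `0`: the bits of `FV (Desc L)` (`x (cF n k j) = true ↔ FV (Desc L) n k = j`), `1`: `L`,
`2`: `L'`, `3`: `t`, `4`: `Y`, `5`: `W`. (Define `x m` by cases on `m.unpair.1` with `decide`.)
-/

namespace Pool.Agent.NI

theorem ExD_out (Y : ℕ → Rl) : ∃ W : Rl, ∀ j, ¬ TRed W (Y j) := by
  have h1 : ∀ (j i : ℕ), {w : Rl | ∀ n, Phi (Y j) i n = Part.some (w n).toNat}.Countable := by
    intro j i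
    apply Set.Subsingleton.countable
    intro w hw w' hw'
    funext n
    have h2 : Part.some (w n).toNat = Part.some (w' n).toNat := (hw n).symm.trans (hw' n)
    have h3 := Part.some_injective h2
    cases h4 : w n <;> cases h5 : w' n <;> simp_all
  have h2 : (⋃ j, ⋃ i, {w : Rl | ∀ n, Phi (Y j) i n = Part.some (w n).toNat}).Countable :=
    Set.countable_iUnion fun j => Set.countable_iUnion fun i => h1 j i
  obtain ⟨f, hf⟩ := Set.countable_iff_exists_subset_range.1 h2
  refine ⟨fun n => !(f n n), fun j h3 => ?_⟩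
  obtain ⟨i, hi⟩ := h3
  have h4 : (fun n => !(f n n)) ∈ Set.range f :=
    hf (Set.mem_iUnion.2 ⟨j, Set.mem_iUnion.2 ⟨i, hi⟩⟩)
  obtain ⟨n, hn⟩ := h4
  have h5 := congrFun hn n
  simp at h5

theorem ExD_real (T : List (Bool × ℕ) → Prop) (u : List (Bool × ℕ)) (h : ¬ Split T u) :
    ∃ y : Rl, ∀ v, u <+: v → T v → v.map Prod.fst = pre y v.length := by
  classical
  refine ⟨fun n => if h : ∃ v : List (Bool × ℕ), u <+: v ∧ T v ∧ n < v.length then
    (h.choose.getD n (false, 0)).1 else false, fun v hv hTv => ?_⟩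
  apply List.ext_getElem
  · simp [pre]
  · intro n h1 h2
    have h1' : n < v.length := by simpa using h1
    have hex : ∃ v : List (Bool × ℕ), u <+: v ∧ T v ∧ n < v.length := ⟨v, hv, hTv, h1'⟩
    obtain ⟨g1, g2, g3⟩ := hex.choose_spec
    have e1 : (pre (fun n => if h : ∃ v : List (Bool × ℕ), u <+: v ∧ T v ∧ n < v.length then
        (h.choose.getD n (false, 0)).1 else false) v.length)[n] =
        (hex.choose.getD n (false, 0)).1 := by
      simp only [pre, List.getElem_map, List.getElem_range]
      rw [dif_pos hex]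
    rw [e1, List.getD_eq_getElem _ _ g3]
    have e2 : (hex.choose[n]).1 = (hex.choose.map Prod.fst)[n]'(by simpa using g3) := by simp
    rw [e2]
    by_cases h3 : v.map Prod.fst <+: hex.choose.map Prod.fst
    · exact h3.getElem h1
    · by_cases h4 : hex.choose.map Prod.fst <+: v.map Prod.fst
      · exact (h4.getElem _).symm
      · exact absurd ⟨v, hex.choose, hTv, g2, hv, g1, h3, h4⟩ h

theorem exists_DB (B : List ℕ → List Bool → Prop)
    (hthin : ¬ ∃ f : Rl → Rl, Continuous f ∧ Function.Injective f ∧ ∀ z, f z ∈ PB B)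
    (L : ℕ → ℕ → Prop) (hL : WellFounded L) :
    ∃ x ∈ DB B, ∀ a b, Lr x a b ↔ L a b := by
  classical
  obtain ⟨L', t, ht, hv⟩ := exists_der B hthin L hL
  have hr : ∀ p : ℕ × ℕ × List (Bool × ℕ), ∃ y : Rl, ¬ Split (t p.1 p.2.1) p.2.2 →
      ∀ v, p.2.2 <+: v → t p.1 p.2.1 v → v.map Prod.fst = pre y v.length := by
    intro p
    by_cases h : Split (t p.1 p.2.1) p.2.2
    · exact ⟨fun _ => false, fun h' => absurd h h'⟩
    · obtain ⟨y, hy⟩ := ExD_real _ _ h
      exact ⟨y, fun _ => hy⟩
  choose Z hZ using hr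
  let Y : ℕ → Rl := fun j => match (Encodable.decode j : Option (ℕ × ℕ × List (Bool × ℕ))) with
    | some p => Z p
    | none => fun _ => false
  have hY : ∀ p, Y (Encodable.encode p) = Z p := by
    intro p
    simp only [Y, Encodable.encodek]
  obtain ⟨W, hW⟩ := ExD_out Y
  let x : Rl := fun m =>
    if m.unpair.1 = 0 then decide (FV (Desc L) (m.unpair.2.unpair.1) (m.unpair.2.unpair.2.unpair.1) =
      m.unpair.2.unpair.2.unpair.2)
    else if m.unpair.1 = 1 then decide (L m.unpair.2.unpair.1 m.unpair.2.unpair.2)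
    else if m.unpair.1 = 2 then decide (L' m.unpair.2.unpair.1 m.unpair.2.unpair.2)
    else if m.unpair.1 = 3 then decide (∃ u : List (Bool × ℕ), Encodable.encode u =
      m.unpair.2.unpair.2.unpair.2 ∧ t m.unpair.2.unpair.1 m.unpair.2.unpair.2.unpair.1 u)
    else if m.unpair.1 = 4 then Y m.unpair.2.unpair.1 m.unpair.2.unpair.2
    else W m.unpair.2
  have e0 : ∀ n k j, x (cF n k j) = true ↔ FV (Desc L) n k = j := by
    intro n k j
    simp [x, cF, Nat.unpair_pair]
  have e1 : Lr x = L := by
    funext a b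
    simp [Lr, x, Nat.unpair_pair]
  have e2 : Lr' x = L' := by
    funext a b
    simp [Lr', x, Nat.unpair_pair]
  have e3 : tS x = t := by
    funext b c u
    simp [tS, x, Nat.unpair_pair]
  have e4 : ∀ j, cY x j = Y j := by
    intro j
    funext n
    simp [cY, x, Nat.unpair_pair]
  have e5 : cW x = W := by
    funext n
    simp [cW, x, Nat.unpair_pair]
  refine ⟨x, ⟨?_, ?_, ?_⟩, fun a b => by rw [e1]⟩
  · intro n k
    refine ⟨FV (Desc L) n k, (e0 n k _).2 rfl, fun j hj => ((e0 n k j).1 hj).symm⟩
  · funext n k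
    rw [e1]
    unfold sysF
    have h1 : {j | x (cF n k j) = true} = {FV (Desc L) n k} := by
      ext j
      rw [Set.mem_singleton_iff]
      exact (e0 n k j).trans eq_comm
    rw [h1, csInf_singleton]
  · refine ⟨?_, ?_, ?_, ?_⟩
    · rw [e1, e2, e3]
      exact ht
    · rw [e2, e3]
      exact hv
    · rw [e3]
      intro b c u _ h2
      refine ⟨Encodable.encode (b, c, u), ?_⟩
      rw [e4, hY]
      exact hZ (b, c, u) h2
    · intro j
      rw [e4, e5]
      exact hW j

end Pool.Agent.NI
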