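import Pool.Agent.NI.Cnt
import Pool.Agent.NI.Cod
import Pool.Agent.NI.FVl

/-!
# Tru: the certificates tell the truth about the accessible part

Let `b` be accessible for `Lr x`, and suppose `Rk (Lr x) (β + 1) b`. By `exists_Gd` there is `f` with
`Gd B (Lr x) b y f`; let `g n = (y n, f n)`, so `TB B (Lr x) b (pre g n)` for all `n` (`TB_branch`). Let `c₀` be
given by `van b`.
(1) `c₀` is accessible for `Lr' x`: otherwise there are `c₀, c₁, c₂, ...` with `Lr' x (c_{n+1}) (c_n)`, all
not accessible. By `van` `tS x b c₁` is not empty, and by `der` every `u` in `tS x b (c_{n+1})` splits in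
`tS x b (c_{n+2})`. `cantor_scheme` (with `T n = tS x b (c (n + 1))`, `hT` by `der`) contradicts `hthin`.
(2) For every accessible `c` such that some `pre g n` is not in `tS x b c` there are `c'`, `m` such that all
`pre g n` are in `tS x b c'` and `pre g m` does not split in `tS x b c'`: by induction on `c`: by `der` there
is `c'` with `Lr' x c' c` such that `pre g n` does not split in `tS x b c'`; if all `pre g k` are in
`tS x b c'`, we are done, otherwise use the induction hypothesis for `c'`.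
(3) Apply (2) to `c₀`, and `iso` to `c'` and `u = pre g m`: there is `j` such that for all `n ≥ m`
`pre y n = (pre g n).map Prod.fst = pre (cY x j) n`. So `y = cY x j`, and `TRed (cW x) y` contradicts `out j`.
`truth` follows with `FV_rank_bd` and `sysF x = FV (Desc (Lr x))`.
-/

namespace Pool.Agent.NI

theorem Tru_prefix {α : Type} (g : ℕ → α) {m n : ℕ} (h : m ≤ n) : pre g m <+: pre g n := by
  rw [List.prefix_iff_eq_take]
  unfold pre
  rw [← List.map_take, List.take_range, List.length_map, List.length_range, min_eq_left h]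

theorem Tru_fst (y : Rl) (f : ℕ → ℕ) (n : ℕ) :
    (pre (fun n => (y n, f n)) n).map Prod.fst = pre y n := by
  unfold pre
  rw [List.map_map]
  rfl

theorem Tru_length {α : Type} (g : ℕ → α) (n : ℕ) : (pre g n).length = n := by
  unfold pre
  rw [List.length_map, List.length_range]

theorem Tru_ext {α : Type} {g g' : ℕ → α} {n : ℕ} (h : pre g n = pre g' n) {i : ℕ} (hi : i < n) :
    g i = g' i := by
  unfold pre at h
  exact List.map_inj_left.1 h i (List.mem_range.2 hi)

theorem Tru_acc (B : List ℕ → List Bool → Prop)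
    (hthin : ¬ ∃ f : Rl → Rl, Continuous f ∧ Function.Injective f ∧ ∀ z, f z ∈ PB B)
    (x : Rl) (hx : Cert B x) (b : ℕ) (hb : Acc (Lr x) b) (c₀ : ℕ)
    (h2 : ∀ c, Lr' x c c₀ → ∃ u, tS x b c u) : Acc (Lr' x) c₀ := by
  by_contra hacc
  rw [not_acc_iff_exists_descending_chain] at hacc
  obtain ⟨s, hs0, hs⟩ := hacc
  apply hthin
  refine cantor_scheme B (Lr x) b hb (fun n u => tS x b (s (n + 1)) u) ?_ ?_ ?_
  · apply h2
    rw [← hs0]
    exact hs 0
  · intro n u hu
    exact ((hx.der b (s (n + 1)) u).1 hu).2 (s (n + 1 + 1)) (hs (n + 1))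
  · intro n u hu
    exact ((hx.der b (s (n + 1)) u).1 hu).1

theorem Tru_find (B : List ℕ → List Bool → Prop) (x : Rl) (hx : Cert B x) (b : ℕ)
    (g : ℕ → Bool × ℕ) (hg : ∀ n, TB B (Lr x) b (pre g n)) (c : ℕ) (hc : Acc (Lr' x) c)
    (hn : ∃ n, ¬ tS x b c (pre g n)) :
    ∃ c' m, (∀ n, tS x b c' (pre g n)) ∧ ¬ Split (tS x b c') (pre g m) := by
  induction hc with
  | intro c _ ih =>
    obtain ⟨n, hn⟩ := hn
    rw [hx.der] at hn
    have h1 : ∃ c', Lr' x c' c ∧ ¬ Split (tS x b c') (pre g n) := by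
      by_contra hcon
      push Not at hcon
      exact hn ⟨hg n, hcon⟩
    obtain ⟨c', hc', hsp⟩ := h1
    by_cases hall : ∀ k, tS x b c' (pre g k)
    · exact ⟨c', n, hall, hsp⟩
    · push Not at hall
      exact ih c' hc' hall

theorem cert_bound (B : List ℕ → List Bool → Prop) (hB : PC B)
    (hthin : ¬ ∃ f : Rl → Rl, Continuous f ∧ Function.Injective f ∧ ∀ z, f z ∈ PB B)
    (x : Rl) (hx : Cert B x) (y : Rl) (hW : TRed (cW x) y) (β : Ordinal.{0})
    (hβ : ¬ Rk (ChR B y) (β + 1) []) (b : ℕ) (hb : Acc (Lr x) b) : ¬ Rk (Lr x) (β + 1) b := by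
  intro hR
  obtain ⟨f, hf⟩ := exists_Gd B hB (Lr x) b y β hβ hR
  have hTB : ∀ n, TB B (Lr x) b (pre (fun n => (y n, f n)) n) :=
    (TB_branch B (Lr x) b (fun n => (y n, f n))).2 hf
  obtain ⟨c₀, h1, h2⟩ := hx.van b
  have hacc := Tru_acc B hthin x hx b hb c₀ h2
  obtain ⟨c', m, h3, h4⟩ := Tru_find B x hx b _ hTB c₀ hacc ⟨0, h1 _⟩
  obtain ⟨j, hj⟩ := hx.iso b c' _ (h3 m) h4
  have hy : y = cY x j := by
    funext i
    have h5 := hj (pre (fun n => (y n, f n)) (max m (i + 1))) (Tru_prefix _ (le_max_left _ _)) (h3 _)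
    rw [Tru_fst, Tru_length] at h5
    exact Tru_ext h5 (lt_of_lt_of_le (Nat.lt_succ_self i) (le_max_right _ _))
  apply hx.out j
  rw [← hy]
  exact hW

open Ordinal in
theorem truth (B : List ℕ → List Bool → Prop) (hB : PC B)
    (hthin : ¬ ∃ f : Rl → Rl, Continuous f ∧ Function.Injective f ∧ ∀ z, f z ∈ PB B)
    (x : Rl) (hx : x ∈ DB B) (y : Rl) (hW : TRed (cW x) y) (β : Ordinal.{0})
    (hβ : ¬ Rk (ChR B y) (β + 1) []) (p : ℕ × ℕ)
    (hp : Rk (ChF (sysF x)) (ω + (β + 2)) p) (b : Ordinal.{0}) : Rk (ChF (sysF x)) b p := by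
  obtain ⟨h1, h2, h3⟩ := hx
  rw [h2] at hp ⊢
  exact FV_rank_bd (Lr x) β (fun b hb => cert_bound B hB hthin x h3 y hW β hβ b hb) p hp b

end Pool.Agent.NI
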