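import Pool.Agent.NI.Dgl
import Pool.Agent.NI.Dia
import Pool.Agent.NI.ERl
import Pool.Agent.NI.Tru

/-!
# Fin: the class `KD (DB B)` is not universal

Suppose `Universal f`; apply it to `fAll` and let `c` be the base of the cone. Join (`exists_join`) `c` with the
reals of `dia_gen SA loc_A`, `dia_gen SB loc_B`, `index_FV B`, `index_cW`, and take `y ∈ PB B` above the join.
Let `ef` be the index of the reduction at `y`, `d1, d2` the indices of `dia_gen`, `a = pair ef (pair d1 d2)`,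
`e` given by `index_FV`, `F = FV (Vl B a e y)`. Then `IsIdx y (smn d1 e) (SA F)`, `IsIdx y (smn d2 e) (SB F)`,
both structures are in `Mod fAll`, and the reduction gives `i' ∈ Phi y ef (smn d1 e)`,
`j' ∈ Phi y ef (smn d2 e)`, `M1, M2 ∈ KD (DB B)` with indices `i'`, `j'`, and
`Iso (SA F) (SB F) ↔ Iso M1 M2`. For all `k l b`: `Kn y ef (smn d1 e) k l b ↔ KT M1 k l b` (`Part` has unique
values), the same for `M2`. So (with `Fail_mono`) for all `G`
`(∀ n, Vl B a e y (pre G n)) ↔ ¬ Fail (KT M1) (KT M2) (ER B y) (fun i m => G i = m)` (`Vl_branch`), and by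
`FV_thread` (with `Vl_pre`) `Thread F ↔ ∃ G, ¬ Fail (KT M1) (KT M2) (ER B y) (fun i m => G i = m)`.
If `Iso M1 M2` then `Thread F` by `iso_AB`, which contradicts `sound` (`ER_wf`; `KD (DB B) ⊆ KD DAll`).
If `¬ Iso M1 M2`, let `β` be given by `exists_rank`; `M1 = Std x _ _ _`, `x = xof M1 ∈ DB B` (`Std_rel0`),
`TRed (cW x) y` (`index_cW`), `truth` gives the hypothesis `hρ` of `complete` for `ρ = ω + (β + 2)`, and
`ρ + ω = ω + β + ω ≤ ω + β + ω + ω` (`2 + ω = ω`), so `ER_rank` and `Rk_mono` give `he` for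
`e₀ = pair 2 (pair 2 0)`. So there is `G`, `Thread F`, hence `Iso (SA F) (SB F)` by `iso_AB` and `Iso M1 M2`:
contradiction.
-/

namespace Pool.Agent.NI

theorem Fin_Kn_eq {y : Rl} {ef i i' : ℕ} {M : Str VT} (h : i' ∈ Phi y ef i)
    (hM : IsIdx y i' M) : Kn y ef i = KT M := by
  classical
  funext k l b
  apply propext
  unfold Kn KT
  constructor
  · rintro ⟨hl, j, hj, hb⟩
    have hji : j = i' := Part.mem_unique hj h
    subst hji
    have h2 := hM k l hl
    rw [h2] at hb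
    refine ⟨hl, ?_⟩
    exact (Part.mem_some_iff.mp hb)
  · rintro ⟨hl, hb⟩
    refine ⟨hl, i', h, ?_⟩
    rw [hM k l hl]
    exact Part.mem_some_iff.mpr hb

theorem Fin_xof {B : List ℕ → List Bool → Prop} {M : Str VT} (h : M ∈ KD (DB B)) :
    xof M ∈ DB B := by
  classical
  obtain ⟨x, hx, κ, θ, -, rfl⟩ := h
  have : xof (Std x (sysF x) κ θ) = x := by
    funext k
    unfold xof
    have h1 := Std_rel0 x (sysF x) κ θ k 0
    by_cases hk : x k = true
    · rw [hk]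
      exact decide_eq_true (h1.mpr hk)
    · have h2 : x k = false := by simpa using hk
      rw [h2]
      exact decide_eq_false (fun h3 => hk (h1.mp h3))
  rw [this]
  exact hx

theorem Fin_KD_sub {B : List ℕ → List Bool → Prop} {M : Str VT} (h : M ∈ KD (DB B)) :
    M ∈ KD DAll := by
  obtain ⟨x, hx, κ, θ, h1, h2⟩ := h
  exact ⟨x, hx.1, κ, θ, h1, h2⟩

open Ordinal in
theorem Fin_ord (β : Ordinal.{0}) : ω + (β + 2) + ω ≤ ω + β + ω + ω := by
  have h2 : (2 : Ordinal.{0}) + ω = ω := by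
    exact_mod_cast Ordinal.natCast_add_omega0 2
  have : ω + (β + 2) + ω = ω + β + ω := by
    rw [← add_assoc, add_assoc (ω + β), h2]
  rw [this]
  exact le_self_add

theorem not_universal (B : List ℕ → List Bool → Prop) (hB : PC B)
    (hthin : ¬ ∃ f : Rl → Rl, Continuous f ∧ Function.Injective f ∧ ∀ z, f z ∈ PB B)
    (hcof : ∀ c : Rl, ∃ y ∈ PB B, TRed c y)
    (f fAll : Fml VT 0) (hf : Mod f = KD (DB B)) (hfAll : Mod fAll = KD DAll) :
    ¬ Universal f := by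
  classical
  intro hU
  obtain ⟨c, hc⟩ := hU VT fAll
  obtain ⟨cA, hcA⟩ := dia_gen SA loc_A
  obtain ⟨cB, hcB⟩ := dia_gen SB loc_B
  obtain ⟨cV, hcV⟩ := index_FV B
  obtain ⟨cX, hcX⟩ := index_cW
  obtain ⟨d, hd⟩ := exists_join (fun n => match n with
    | 0 => c
    | 1 => cA
    | 2 => cB
    | 3 => cV
    | _ => cX)
  obtain ⟨y, hyP, hdy⟩ := hcof d
  have hcy : TRed c y := hd y hdy 0
  have hcAy : TRed cA y := hd y hdy 1
  have hcBy : TRed cB y := hd y hdy 2
  have hcVy : TRed cV y := hd y hdy 3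
  have hcXy : TRed cX y := hd y hdy 4
  obtain ⟨ef, hef⟩ := hc y hcy
  obtain ⟨d1, hd1⟩ := hcA y hcAy
  obtain ⟨d2, hd2⟩ := hcB y hcBy
  obtain ⟨e, he⟩ := hcV y hcVy (Nat.pair ef (Nat.pair d1 d2))
  have hI1 := hd1 e _ he
  have hI2 := hd2 e _ he
  have hm1 : SA (FV (Vl B (Nat.pair ef (Nat.pair d1 d2)) e y)) ∈ Mod fAll := by
    rw [hfAll]
    exact SA_mem _
  have hm2 : SB (FV (Vl B (Nat.pair ef (Nat.pair d1 d2)) e y)) ∈ Mod fAll := by
    rw [hfAll]
    exact SB_mem _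
  obtain ⟨i', hi', j', hj', M1, hM1, M2, hM2, hx1, hx2, hiso⟩ :=
    hef _ _ _ _ hI1 hI2 hm1 hm2
  rw [hf] at hM1 hM2
  have hK1 := Fin_Kn_eq hi' hx1
  have hK2 := Fin_Kn_eq hj' hx2
  have hth : Thread (FV (Vl B (Nat.pair ef (Nat.pair d1 d2)) e y)) ↔
      ∃ G : ℕ → ℕ, ¬ Fail (KT M1) (KT M2) (ER B y) (fun i m => G i = m) := by
    rw [FV_thread _ (fun s a => Vl_pre B _ e y s a)]
    constructor
    · rintro ⟨G, hG⟩
      refine ⟨G, ?_⟩
      have := (Vl_branch B _ e y G).mp hG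
      simp only [Nat.unpair_pair] at this
      rw [hK1, hK2] at this
      exact this
    · rintro ⟨G, hG⟩
      refine ⟨G, ?_⟩
      rw [Vl_branch B _ e y G]
      simp only [Nat.unpair_pair]
      rw [hK1, hK2]
      exact hG
  by_cases hi : Iso M1 M2
  · obtain ⟨G, hG⟩ := hth.mp ((iso_AB _).mp (hiso.mpr hi))
    exact hG (sound M1 M2 (Fin_KD_sub hM1) (Fin_KD_sub hM2) hi _ (ER_wf B hB y hyP) G)
  · obtain ⟨β, hβ1, hβ2⟩ := exists_rank B hB y hyP
    have hxD : xof M1 ∈ DB B := Fin_xof hM1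
    have hW : TRed (cW (xof M1)) y := hcX y hcXy i' M1 hx1
    obtain ⟨G, hG⟩ := complete (DB B) M1 M2 hM1 hM2 hi (ER B y)
      (Ordinal.omega0 + (β + 2))
      (fun p hp b => truth B hB hthin (xof M1) hxD y hW β hβ2 p hp b)
      (Nat.pair 2 (Nat.pair 2 0))
      (Rk_mono _ (Fin_ord β) (ER_rank B hB y β hβ1))
    exact hi (hiso.mp ((iso_AB _).mpr (hth.mpr ⟨G, hG⟩)))

end Pool.Agent.NI
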