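import Pool.Agent.NI.Core

/-!
# Grd: ranks and decreasing maps

`Rk R b p` unfolds by `rw [Rk]` to `∀ c < b, ∃ q, R q p ∧ Rk R c q`.
* `Rk_mono`: immediate. `Rk_succ`: `Rk R (b + 1) p ↔ ∃ q, R q p ∧ Rk R b q` (`←` with `Rk_mono`).
* `Rk_limit`: if `Rk R c p` for all `c < b` and `b` is not a successor then `Rk R b p` (for `c < b` also
  `c + 1 < b`).
* `Rk_not_acc`: if `p` is not accessible it has a child which is not accessible; induction on `b`.
* `Rk_acc`: by `Acc` induction; the bounds of the children (indexed by the type of the children) have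
  a supremum `s` (`Ordinal.iSup`, `Ordinal.lsub`), and `¬ Rk R (s + 1) p`.
* `Rk_step`: let `c₀` be the least ordinal with `¬ Rk R c₀ q`; by `Rk_limit` and `Rk R 0 q` it is a
  successor `o + 1`, `Rk R o q`. So `Rk R (o + 1) p`, `Rk E (o + 1) e`, and there is `e'` with `E e' e`,
  `Rk E o e'`. If `Rk R c q` then `c ≤ o`, so `Rk E c e'`.
* `greedy`: define `g` by recursion on the level: `g p = e₀` on level `0`, and for `lev q > 0` take the `e'`
  of `Rk_step` for the parent (if the invariant holds for the parent, else anything). Note that all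
  nodes are bounded: if `Rk R c q` for all `c` then `Rk R (c + 1) (par q)` for all `c`.
-/

namespace Pool.Agent.NI

theorem Rk_zero {α : Type} (R : α → α → Prop) (p : α) : Rk R 0 p := by
  rw [Rk]
  intro c h
  exact absurd h (not_lt_bot (a := c))

theorem Rk_mono {α : Type} (R : α → α → Prop) {b b' : Ordinal.{0}} (h : b' ≤ b) {p : α}
    (hp : Rk R b p) : Rk R b' p := by
  rw [Rk] at hp ⊢
  intro c hc
  exact hp c (lt_of_lt_of_le hc h)

theorem Rk_succ {α : Type} (R : α → α → Prop) (b : Ordinal.{0}) (p : α) :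
    Rk R (b + 1) p ↔ ∃ q, R q p ∧ Rk R b q := by
  constructor
  · intro h
    rw [Rk] at h
    exact h b (Order.lt_add_one_iff.2 le_rfl)
  · rintro ⟨q, hq, hb⟩
    rw [Rk]
    intro c hc
    exact ⟨q, hq, Rk_mono R (Order.lt_add_one_iff.1 hc) hb⟩

theorem Rk_not_acc {α : Type} (R : α → α → Prop) (p : α) (h : ¬ Acc R p) (b : Ordinal.{0}) :
    Rk R b p := by
  induction b using WellFoundedLT.induction generalizing p with
  | ind b ih =>
    rw [Rk]
    intro c hc
    have h1 : ∃ q, R q p ∧ ¬ Acc R q := by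
      by_contra hcon
      push Not at hcon
      exact h (Acc.intro p hcon)
    obtain ⟨q, hq, hacc⟩ := h1
    exact ⟨q, hq, ih c hc q hacc⟩

theorem Rk_acc {α : Type} (R : α → α → Prop) (p : α) (h : Acc R p) : ∃ b, ¬ Rk R b p := by
  induction h with
  | intro p _ ih =>
    choose f hf using fun q : {q // R q p} => ih q.1 q.2
    refine ⟨(⨆ q, f q) + 1, fun hr => ?_⟩
    obtain ⟨q, hq, hb⟩ := (Rk_succ R _ p).1 hr
    exact hf ⟨q, hq⟩ (Rk_mono R (Ordinal.le_iSup f ⟨q, hq⟩) hb)

/-- The rank of an element. -/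
theorem exists_Rk_max {α : Type} (R : α → α → Prop) (q : α) (hb : ∃ c, ¬ Rk R c q) :
    ∃ o, Rk R o q ∧ ¬ Rk R (o + 1) q := by
  by_contra hcon
  push Not at hcon
  obtain ⟨c, hc⟩ := hb
  have hall : ∀ b : Ordinal.{0}, Rk R b q := by
    intro b
    induction b using WellFoundedLT.induction with
    | ind b ih =>
      rw [Rk]
      intro c hc
      have h1 := hcon c (ih c hc)
      exact (Rk_succ R c q).1 h1
  exact hc (hall c)

theorem Rk_step {α β : Type} (R : α → α → Prop) (E : β → β → Prop) (p q : α) (e : β)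
    (hI : ∀ c, Rk R c p → Rk E c e) (hq : R q p) (hb : ∃ c, ¬ Rk R c q) :
    ∃ e', E e' e ∧ ∀ c, Rk R c q → Rk E c e' := by
  obtain ⟨o, h1, h2⟩ := exists_Rk_max R q hb
  have h3 : Rk R (o + 1) p := (Rk_succ R o p).2 ⟨q, hq, h1⟩
  obtain ⟨e', he, he'⟩ := (Rk_succ E o e).1 (hI _ h3)
  refine ⟨e', he, fun c hc => ?_⟩
  refine Rk_mono E ?_ he'
  by_contra hlt
  rw [not_le] at hlt
  exact h2 (Rk_mono R (Order.add_one_le_of_lt hlt) hc)

open Classical in
/-- The greedy map. -/
noncomputable def Grd_g {α β : Type} (lev : α → ℕ) (par : α → α) (R : α → α → Prop)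
    (E : β → β → Prop) (e₀ : β) : ℕ → α → β
  | 0, _ => e₀
  | n + 1, q =>
    if h : ∃ e', E e' (Grd_g lev par R E e₀ n (par q)) ∧ ∀ c, Rk R c q → Rk E c e' then
      Classical.choose h
    else e₀

theorem greedy {α β : Type} (lev : α → ℕ) (par : α → α) (N : α → Prop)
    (hN : ∀ q, N q → 0 < lev q → N (par q) ∧ lev q = lev (par q) + 1)
    (R : α → α → Prop) (hR : ∀ q, N q → 0 < lev q → R q (par q))
    (E : β → β → Prop) (e₀ : β)
    (hb : ∀ p, N p → lev p = 0 → (∃ c, ¬ Rk R c p) ∧ ∀ c, Rk R c p → Rk E c e₀) :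
    ∃ g : α → β, (∀ q, N q → 0 < lev q → E (g q) (g (par q))) ∧ ∀ p, lev p = 0 → g p = e₀ := by
  have key : ∀ n q, N q → lev q = n → (∃ c, ¬ Rk R c q) ∧
      ∀ c, Rk R c q → Rk E c (Grd_g lev par R E e₀ n q) := by
    intro n
    induction n with
    | zero => intro q hq hl; exact hb q hq hl
    | succ n ih =>
      intro q hq hl
      have hpos : 0 < lev q := by omega
      obtain ⟨hNp, hlp⟩ := hN q hq hpos
      obtain ⟨hbd, hinv⟩ := ih (par q) hNp (by omega)
      have hbq : ∃ c, ¬ Rk R c q := by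
        by_contra hcon
        push Not at hcon
        obtain ⟨c, hc⟩ := hbd
        exact hc (Rk_mono R (le_of_lt (Order.lt_add_one_iff.2 le_rfl))
          ((Rk_succ R c (par q)).2 ⟨q, hR q hq hpos, hcon c⟩))
      have hex := Rk_step R E (par q) q _ hinv (hR q hq hpos) hbq
      refine ⟨hbq, ?_⟩
      unfold Grd_g
      rw [dif_pos hex]
      exact (Classical.choose_spec hex).2
  refine ⟨fun q => Grd_g lev par R E e₀ (lev q) q, ?_, ?_⟩
  · intro q hq hpos
    obtain ⟨hNp, hlp⟩ := hN q hq hpos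
    obtain ⟨hbq, _⟩ := key (lev q) q hq rfl
    obtain ⟨_, hinv⟩ := key (lev (par q)) (par q) hNp rfl
    have hex := Rk_step R E (par q) q _ hinv (hR q hq hpos) hbq
    show E (Grd_g lev par R E e₀ (lev q) q) (Grd_g lev par R E e₀ (lev (par q)) (par q))
    rw [hlp]
    conv_lhs => unfold Grd_g
    rw [dif_pos hex]
    exact (Classical.choose_spec hex).1
  · intro p hp
    show Grd_g lev par R E e₀ (lev p) p = e₀
    rw [hp]
    rfl

end Pool.Agent.NI
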