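import Pool.Agent.NI.IsoS
import Pool.Agent.NI.Grd

/-!
# GrR: ranks in the group tree

Induction on `b`. `→`: for `c < b` there is `q = (n + 1, w)` with `ep w = 0`, `v = push F n w`,
`Rk (ChG F) c q`; every `i ∈ v.support` is `F n j` for some `j ∈ w.support` (`Finsupp.mapDomain_support`), and
`Rk (ChF F) c (n + 1, j)` by induction. `←`: for `c < b` choose for every `i ∈ v.support` a `j i` with
`F n (j i) = i` and `Rk (ChF F) c (n + 1, j i)`. Let `w = ∑ i ∈ v.support, single (j i) 1`. As all coefficients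
of `v` are `1`, `v = ∑ i ∈ v.support, single i 1 = push F n w`, `ep w = ep v = 0` (`ep_push`), and the support of
`w` is contained in the set of the `j i`.
-/

namespace Pool.Agent.NI

theorem GrR_one {a : ZMod 2} (h : a ≠ 0) : a = 1 := by
  revert h
  revert a
  decide

theorem GrR_sum (v : V) : ∑ i ∈ v.support, Finsupp.single i (1 : ZMod 2) = v := by
  have h : v.sum Finsupp.single = v := Finsupp.sum_single v
  unfold Finsupp.sum at h
  rw [← h]
  conv_lhs => rw [h]
  apply Finset.sum_congr rfl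
  intro i hi
  rw [GrR_one (Finsupp.mem_support_iff.1 hi)]

theorem grp_rank (F : ℕ → ℕ → ℕ) (b : Ordinal.{0}) (n : ℕ) (v : V) (hv : ep v = 0) :
    Rk (ChG F) b (n, v) ↔ ∀ i ∈ v.support, Rk (ChF F) b (n, i) := by
  induction b using WellFoundedLT.induction generalizing n v with
  | ind b ih =>
  constructor
  · intro h i hi
    rw [Rk]
    intro c hc
    rw [Rk] at h
    obtain ⟨⟨n', w⟩, ⟨h1, h2, h3⟩, h4⟩ := h c hc
    simp only at h1 h2 h3
    subst h1
    have h5 : i ∈ (w.support).image (F n) := by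
      rw [h3] at hi
      exact Finsupp.mapDomain_support hi
    obtain ⟨j, hj, hji⟩ := Finset.mem_image.1 h5
    exact ⟨(n + 1, j), ⟨rfl, hji⟩, (ih c hc (n + 1) w h2).1 h4 j hj⟩
  · intro h
    rw [Rk]
    intro c hc
    have h1 : ∀ i : ℕ, ∃ j : ℕ, i ∈ v.support → F n j = i ∧ Rk (ChF F) c (n + 1, j) := by
      intro i
      by_cases hi : i ∈ v.support
      · have h2 := h i hi
        rw [Rk] at h2
        obtain ⟨⟨n', j⟩, ⟨h3, h4⟩, h5⟩ := h2 c hc
        simp only at h3 h4
        subst h3
        exact ⟨j, fun _ => ⟨h4, h5⟩⟩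
      · exact ⟨0, fun hi' => absurd hi' hi⟩
    choose j hj using h1
    obtain ⟨w, hw⟩ : ∃ w : V, w = ∑ i ∈ v.support, Finsupp.single (j i) (1 : ZMod 2) := ⟨_, rfl⟩
    have h2 : push F n w = v := by
      rw [hw]
      unfold push
      rw [Finsupp.mapDomain_finsetSum]
      rw [← GrR_sum v]
      conv_lhs => rw [GrR_sum v]
      apply Finset.sum_congr rfl
      intro i hi
      rw [Finsupp.mapDomain_single, (hj i hi).1]
    have h3 : ep w = 0 := by
      rw [← ep_push F n w, h2, hv]
    refine ⟨(n + 1, w), ⟨rfl, h3, h2.symm⟩, (ih c hc (n + 1) w h3).2 ?_⟩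
    intro k hk
    have h4 : ∃ i ∈ v.support, k ∈ (Finsupp.single (j i) (1 : ZMod 2)).support := by
      rw [hw] at hk
      have h5 := Finsupp.support_finsetSum hk
      simpa using h5
    obtain ⟨i, hi, hk'⟩ := h4
    have h5 := Finsupp.support_single_subset hk'
    rw [Finset.mem_singleton] at h5
    rw [h5]
    exact (hj i hi).2

end Pool.Agent.NI
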