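import Pool.Agent.NI.IsoS

/-!
# Hrd: the hard class

`SA F` is the trivial torsor tower over `F`, `SB F` the torsor tower of odd elements. They are in
`KD DAll` (`IsSys (xF F)`, `sysF (xF F) = F`: `Nat.sInf_mem` or uniqueness).
`iso_AB`: by `iso_std_iff` `Iso (SA F) (SB F) ↔ Triv F (0 + κ)`, `κ n = single (F n 0) 1 + single 0 1`.
`←`: for a thread `i` take `g n = single (i n) 1 + single 0 1`. `→`: let `t n = g n + single 0 1`, `ep (t n) = 1`,
`push F n (t (n + 1)) = t n` (characteristic two). The support of `t n` is not empty, and every element of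
the support of `t n` is `F n j` for some `j` in the support of `t (n + 1)` (`Finsupp.mapDomain_support`):
dependent choice gives a thread.
-/

namespace Pool.Agent.NI

open Classical in
/-- The real which codes `F`. -/
noncomputable def xF (F : ℕ → ℕ → ℕ) : Rl := fun m => decide (∃ n k, m = cF n k (F n k))

/-- The numbering of `ℕ × V` with shifted coordinate. -/
noncomputable def thf : ℕ ≃ ℕ × V where
  toFun z := ((thz z).1, (thz z).2 + Finsupp.single 0 1)
  invFun p := thz.symm (p.1, p.2 + Finsupp.single 0 1)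
  left_inv := by
    intro z
    have h : ∀ v : V, v + v = 0 := fun v => by
      ext i
      rw [Finsupp.add_apply]
      exact CharTwo.add_self_eq_zero _
    simp [add_assoc, h]
  right_inv := by
    intro p
    have h : ∀ v : V, v + v = 0 := fun v => by
      ext i
      rw [Finsupp.add_apply]
      exact CharTwo.add_self_eq_zero _
    simp [add_assoc, h]

/-- The trivial torsor tower. -/
noncomputable def SA (F : ℕ → ℕ → ℕ) : Str VT := Std (xF F) F (fun _ => 0) thz

/-- The torsor tower of odd elements. -/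
noncomputable def SB (F : ℕ → ℕ → ℕ) : Str VT :=
  Std (xF F) F (fun n => Finsupp.single (F n 0) 1 + Finsupp.single 0 1) thf

theorem Hrd_cF {n k j n' k' j' : ℕ} (h : cF n k j = cF n' k' j') : n = n' ∧ k = k' ∧ j = j' := by
  unfold cF at h
  simpa using h

theorem Hrd_xF (F : ℕ → ℕ → ℕ) (n k j : ℕ) : xF F (cF n k j) = true ↔ j = F n k := by
  classical
  unfold xF
  rw [decide_eq_true_iff]
  constructor
  · rintro ⟨n', k', h⟩
    obtain ⟨h1, h2, h3⟩ := Hrd_cF h
    rw [h1, h2, h3]
  · rintro rfl
    exact ⟨n, k, rfl⟩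

theorem isSys_xF (F : ℕ → ℕ → ℕ) : IsSys (xF F) := by
  intro n k
  exact ⟨F n k, (Hrd_xF F n k _).2 rfl, fun j hj => (Hrd_xF F n k j).1 hj⟩

theorem sysF_xF (F : ℕ → ℕ → ℕ) : sysF (xF F) = F := by
  funext n k
  unfold sysF
  have : {j | xF F (cF n k j) = true} = {F n k} := by
    ext j
    exact Hrd_xF F n k j
  rw [this, csInf_singleton]

theorem Hrd_ep (F : ℕ → ℕ → ℕ) (n : ℕ) :
    ep (Finsupp.single (F n 0) 1 + Finsupp.single 0 1) = 0 := by
  rw [ep_add, ep_single, ep_single]
  exact CharTwo.add_self_eq_zero _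

theorem SA_mem (F : ℕ → ℕ → ℕ) : SA F ∈ KD DAll :=
  ⟨xF F, isSys_xF F, fun _ => 0, thz, fun _ => ep_zero, by rw [sysF_xF]; rfl⟩

theorem SB_mem (F : ℕ → ℕ → ℕ) : SB F ∈ KD DAll :=
  ⟨xF F, isSys_xF F, fun n => Finsupp.single (F n 0) 1 + Finsupp.single 0 1, thf, Hrd_ep F, by
    rw [sysF_xF]; rfl⟩

theorem Hrd_thread (F : ℕ → ℕ → ℕ) (t : ℕ → V) (h1 : ∀ n, ep (t n) = 1)
    (h2 : ∀ n, push F n (t (n + 1)) = t n) : Thread F := by
  classical
  have hne : ∀ n, ∃ j, j ∈ (t n).support := by
    intro n
    by_contra h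
    push Not at h
    have h3 : (t n).support = ∅ := Finset.eq_empty_of_forall_notMem h
    rw [Finsupp.support_eq_empty] at h3
    have h4 := h1 n
    rw [h3, ep_zero] at h4
    exact zero_ne_one h4
  have hst : ∀ n, ∀ j : {j // j ∈ (t n).support}, ∃ j' : {j // j ∈ (t (n + 1)).support},
      F n j' = j := by
    rintro n ⟨j, hj⟩
    rw [← h2 n] at hj
    have h5 := Finsupp.mapDomain_support hj
    rw [Finset.mem_image] at h5
    obtain ⟨j', hj', he⟩ := h5
    exact ⟨⟨j', hj'⟩, he⟩
  choose nx hnx using hst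
  obtain ⟨j0, hj0⟩ := hne 0
  let s : (n : ℕ) → {j // j ∈ (t n).support} := fun n => Nat.rec ⟨j0, hj0⟩ (fun n p => nx n p) n
  refine ⟨fun n => (s n).1, ?_⟩
  intro n
  exact hnx n (s n)

theorem iso_AB (F : ℕ → ℕ → ℕ) : Iso (SA F) (SB F) ↔ Thread F := by
  unfold SA SB
  rw [iso_std_iff _ _ _ _ (fun _ => ep_zero) (Hrd_ep F)]
  constructor
  · rintro ⟨g, hg⟩
    apply Hrd_thread F (fun n => g n + Finsupp.single 0 1)
    · intro n
      rw [ep_add, (hg n).1, ep_single, zero_add]
    · intro n
      have h1 : g n = push F n (g (n + 1)) +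
          (0 + (Finsupp.single (F n 0) 1 + Finsupp.single 0 1)) := (hg n).2
      rw [zero_add] at h1
      rw [push_add, push_single]
      have h2 : push F n (g (n + 1)) = g n + (Finsupp.single (F n 0) 1 + Finsupp.single 0 1) := by
        rw [h1, add_assoc, V_add_self, add_zero]
      rw [h2]
      have h3 : g n + (Finsupp.single (F n 0) 1 + Finsupp.single 0 1) + Finsupp.single (F n 0) 1 =
          g n + Finsupp.single 0 1 + ((Finsupp.single (F n 0) 1 : V) + Finsupp.single (F n 0) 1) := by
        abel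
      rw [h3, V_add_self, add_zero]
  · rintro ⟨i, hi⟩
    refine ⟨fun n => Finsupp.single (i n) 1 + Finsupp.single 0 1, ?_⟩
    intro n
    constructor
    · rw [ep_add, ep_single, ep_single]
      exact CharTwo.add_self_eq_zero _
    · show (Finsupp.single (i n) 1 : V) + Finsupp.single 0 1 =
        push F n (Finsupp.single (i (n + 1)) 1 + Finsupp.single 0 1) +
          (0 + (Finsupp.single (F n 0) 1 + Finsupp.single 0 1))
      rw [push_add, push_single, push_single, hi, zero_add]
      have h3 : (Finsupp.single (i n) 1 : V) + Finsupp.single (F n 0) 1 +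
          (Finsupp.single (F n 0) 1 + Finsupp.single 0 1) =
          Finsupp.single (i n) 1 + Finsupp.single 0 1 +
            ((Finsupp.single (F n 0) 1 : V) + Finsupp.single (F n 0) 1) := by
        abel
      rw [h3, V_add_self, add_zero]

end Pool.Agent.NI
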