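import Pool.Agent.NI.Core

/-!
# IsoS: isomorphism of torsor towers

`→`: let `s` be an isomorphism, `b n = θ⁻¹ (n, 0)`, `θ' (s (b n)) = (n, g n)` (relations `4 (2 n) + 1`), so
`ep (g n) = 0`. Let `a = θ⁻¹ (n, κ n)`; `(b (n + 1), a)` is in the relation `4 n + 3`, so
`θ' (s a) = (n, push (g (n + 1)) + κ' n)`; and `(b n, a)` is in the relation `4 p + 2` with `dec p = κ n`, so
`θ' (s a) = (n, g n + κ n)`. Hence `g n = push (g (n + 1)) + κ n + κ' n` (characteristic two).
`←`: the isomorphism is `z ↦ θ'⁻¹ (n, v + g n)` for `θ z = (n, v)`. (`push` is additive: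
`Finsupp.mapDomain_add`; `ep` is additive: prove it with `Finsupp.sum_add_index'`.)
`Std_xof`: the real of `Std x F κ θ` is `x`. `Std_bits`: all bits.
-/

namespace Pool.Agent.NI

theorem ep_zero : ep 0 = 0 := by
  unfold ep
  exact Finsupp.sum_zero_index

theorem ep_add (v w : V) : ep (v + w) = ep v + ep w := by
  unfold ep
  exact Finsupp.sum_add_index' (fun _ => rfl) (fun _ _ _ => rfl)

theorem ep_single (i : ℕ) : ep (Finsupp.single i 1) = 1 := by
  unfold ep
  exact Finsupp.sum_single_index rfl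

theorem ep_push (F : ℕ → ℕ → ℕ) (n : ℕ) (v : V) : ep (push F n v) = ep v := by
  unfold ep push
  exact Finsupp.sum_mapDomain_index (fun _ => rfl) (fun _ _ _ => rfl)

theorem push_zero (F : ℕ → ℕ → ℕ) (n : ℕ) : push F n 0 = 0 := by
  unfold push
  exact Finsupp.mapDomain_zero

theorem push_add (F : ℕ → ℕ → ℕ) (n : ℕ) (v w : V) :
    push F n (v + w) = push F n v + push F n w := by
  unfold push
  exact Finsupp.mapDomain_add

theorem push_single (F : ℕ → ℕ → ℕ) (n i : ℕ) :
    push F n (Finsupp.single i 1) = Finsupp.single (F n i) 1 := by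
  unfold push
  exact Finsupp.mapDomain_single

theorem V_add_self (v : V) : v + v = 0 := by
  refine Finsupp.ext fun i => ?_
  rw [Finsupp.add_apply, Finsupp.zero_apply]
  exact CharTwo.add_self_eq_zero _

theorem Std_rel0 (x : Rl) (F : ℕ → ℕ → ℕ) (κ : ℕ → V) (θ : ℕ ≃ ℕ × V) (p z : ℕ) :
    (Std x F κ θ).rel (4 * p) [z] ↔ x p = true := by
  constructor
  · rintro (⟨p', z', hk, hl, h⟩ | ⟨p', z', hk, hl, h⟩ | ⟨p', z', z'', hk, hl, h⟩ |
      ⟨p', z', z'', hk, hl, h⟩)
    · have : p = p' := by omega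
      rw [this]; exact h
    · omega
    · simp at hl
    · simp at hl
  · intro h
    exact Or.inl ⟨p, z, rfl, rfl, h⟩

theorem Std_rel1 (x : Rl) (F : ℕ → ℕ → ℕ) (κ : ℕ → V) (θ : ℕ ≃ ℕ × V) (p z : ℕ) :
    (Std x F κ θ).rel (4 * p + 1) [z] ↔
      ((θ z).1 = p / 2 ∧ ep (θ z).2 = ((p % 2 : ℕ) : ZMod 2)) := by
  constructor
  · rintro (⟨p', z', hk, hl, h⟩ | ⟨p', z', hk, hl, h⟩ | ⟨p', z', z'', hk, hl, h⟩ |
      ⟨p', z', z'', hk, hl, h⟩)
    · omega
    · have e : p = p' := by omega
      have e2 : z = z' := by simpa using hl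
      subst e e2
      exact h
    · simp at hl
    · simp at hl
  · intro h
    exact Or.inr (Or.inl ⟨p, z, rfl, rfl, h⟩)

theorem Std_rel2 (x : Rl) (F : ℕ → ℕ → ℕ) (κ : ℕ → V) (θ : ℕ ≃ ℕ × V) (p z z' : ℕ) :
    (Std x F κ θ).rel (4 * p + 2) [z, z'] ↔
      ((θ z').1 = (θ z).1 ∧ (θ z').2 = (θ z).2 + dec p) := by
  constructor
  · rintro (⟨p', a, hk, hl, h⟩ | ⟨p', a, hk, hl, h⟩ | ⟨p', a, b, hk, hl, h⟩ |
      ⟨p', a, b, hk, hl, h⟩)
    · simp at hl
    · simp at hl
    · have e : p = p' := by omega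
      have e2 : z = a ∧ z' = b := by simpa using hl
      obtain ⟨e2, e3⟩ := e2
      subst e e2 e3
      exact h
    · omega
  · intro h
    exact Or.inr (Or.inr (Or.inl ⟨p, z, z', rfl, rfl, h⟩))

theorem Std_rel3 (x : Rl) (F : ℕ → ℕ → ℕ) (κ : ℕ → V) (θ : ℕ ≃ ℕ × V) (p z z' : ℕ) :
    (Std x F κ θ).rel (4 * p + 3) [z, z'] ↔
      ((θ z).1 = p + 1 ∧ (θ z').1 = p ∧ (θ z').2 = push F p (θ z).2 + κ p) := by
  constructor
  · rintro (⟨p', a, hk, hl, h⟩ | ⟨p', a, hk, hl, h⟩ | ⟨p', a, b, hk, hl, h⟩ |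
      ⟨p', a, b, hk, hl, h⟩)
    · simp at hl
    · simp at hl
    · omega
    · have e : p = p' := by omega
      have e2 : z = a ∧ z' = b := by simpa using hl
      obtain ⟨e2, e3⟩ := e2
      subst e e2 e3
      exact h
  · intro h
    exact Or.inr (Or.inr (Or.inr ⟨p, z, z', rfl, rfl, h⟩))

theorem IsoS_add_right (v w : V) : v + w + w = v := by
  rw [add_assoc, V_add_self, add_zero]

/-- the shear by `g` -/
noncomputable def IsoS_sh (g : ℕ → V) : ℕ × V ≃ ℕ × V where
  toFun q := (q.1, q.2 + g q.1)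
  invFun q := (q.1, q.2 + g q.1)
  left_inv q := by
    change (q.1, q.2 + g q.1 + g q.1) = q
    rw [IsoS_add_right]
  right_inv q := by
    change (q.1, q.2 + g q.1 + g q.1) = q
    rw [IsoS_add_right]

theorem IsoS_not (x : Rl) (F : ℕ → ℕ → ℕ) (κ : ℕ → V) (θ : ℕ ≃ ℕ × V) {k : ℕ} {l : List ℕ}
    (h : l.length ≠ VT k) : ¬ (Std x F κ θ).rel k l := fun h' => h ((Std x F κ θ).len k l h')

theorem IsoS_both (x : Rl) (F : ℕ → ℕ → ℕ) (κ κ' : ℕ → V) (θ θ' : ℕ ≃ ℕ × V) (s : ℕ ≃ ℕ) {k : ℕ}
    {l : List ℕ} (h : l.length ≠ VT k) :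
    (Std x F κ θ).rel k l ↔ (Std x F κ' θ').rel k (l.map s) :=
  ⟨fun h' => absurd h' (IsoS_not x F κ θ h),
    fun h' => absurd h' (IsoS_not x F κ' θ' (by rw [List.length_map]; exact h))⟩

theorem iso_std_iff (x : Rl) (F : ℕ → ℕ → ℕ) (κ κ' : ℕ → V) (hκ : ∀ n, ep (κ n) = 0)
    (hκ' : ∀ n, ep (κ' n) = 0) (θ θ' : ℕ ≃ ℕ × V) :
    Iso (Std x F κ θ) (Std x F κ' θ') ↔ Triv F (fun n => κ n + κ' n) := by
  constructor
  · rintro ⟨s, hs⟩
    refine ⟨fun n => (θ' (s (θ.symm (n, 0)))).2, fun n => ?_⟩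
    have h1 : ∀ n, (θ' (s (θ.symm (n, 0)))).1 = n ∧ ep (θ' (s (θ.symm (n, 0)))).2 = 0 := by
      intro n
      have h := hs (4 * (2 * n) + 1) [θ.symm (n, 0)]
      rw [List.map_cons, List.map_nil, Std_rel1, Std_rel1] at h
      have e1 : 2 * n / 2 = n := by omega
      have e2 : 2 * n % 2 = 0 := by omega
      rw [e1, e2, Equiv.apply_symm_apply] at h
      have h2 := h.1 ⟨rfl, by rw [ep_zero]; simp⟩
      refine ⟨h2.1, ?_⟩
      have := h2.2
      simpa using this
    have h2 : (θ' (s (θ.symm (n, κ n)))).2 = push F n (θ' (s (θ.symm (n + 1, 0)))).2 + κ' n := by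
      have h := hs (4 * n + 3) [θ.symm (n + 1, 0), θ.symm (n, κ n)]
      rw [List.map_cons, List.map_cons, List.map_nil, Std_rel3, Std_rel3, Equiv.apply_symm_apply,
        Equiv.apply_symm_apply] at h
      exact (h.1 ⟨rfl, rfl, by rw [push_zero, zero_add]⟩).2.2
    have h3 : (θ' (s (θ.symm (n, κ n)))).2 = (θ' (s (θ.symm (n, 0)))).2 + κ n := by
      have h := hs (4 * (dec.symm (κ n)) + 2) [θ.symm (n, 0), θ.symm (n, κ n)]
      rw [List.map_cons, List.map_cons, List.map_nil, Std_rel2, Std_rel2, Equiv.apply_symm_apply,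
        Equiv.apply_symm_apply, Equiv.apply_symm_apply] at h
      exact (h.1 ⟨rfl, by rw [zero_add]⟩).2
    refine ⟨(h1 n).2, ?_⟩
    have h4 := h3.symm.trans h2
    have h5 := congrArg (fun w => w + κ n) h4
    simp only [IsoS_add_right] at h5
    change (θ' (s (θ.symm (n, 0)))).2 = push F n (θ' (s (θ.symm (n + 1, 0)))).2 + (κ n + κ' n)
    rw [h5, add_assoc, add_comm (κ' n)]
  · rintro ⟨g, hg⟩
    refine ⟨θ.trans ((IsoS_sh g).trans θ'.symm), ?_⟩
    have hθ : ∀ z, θ' ((θ.trans ((IsoS_sh g).trans θ'.symm)) z) = ((θ z).1, (θ z).2 + g (θ z).1) := by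
      intro z
      change θ' (θ'.symm (IsoS_sh g (θ z))) = _
      rw [Equiv.apply_symm_apply]
      rfl
    generalize θ.trans ((IsoS_sh g).trans θ'.symm) = s at hθ ⊢
    intro k l
    obtain ⟨p, hp⟩ : ∃ p, k = 4 * p ∨ k = 4 * p + 1 ∨ k = 4 * p + 2 ∨ k = 4 * p + 3 :=
      ⟨k / 4, by omega⟩
    have hV1 : k % 4 < 2 → VT k = 1 := fun h => by unfold VT; rw [if_pos h]
    have hV2 : ¬ k % 4 < 2 → VT k = 2 := fun h => by unfold VT; rw [if_neg h]
    rcases l with _ | ⟨z, _ | ⟨z', _ | ⟨z'', l⟩⟩⟩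
    · apply IsoS_both
      by_cases h : k % 4 < 2
      · rw [hV1 h]; simp
      · rw [hV2 h]; simp
    · by_cases h : k % 4 < 2
      · rcases hp with hp | hp | hp | hp
        · subst hp
          rw [List.map_cons, List.map_nil, Std_rel0, Std_rel0]
        · subst hp
          rw [List.map_cons, List.map_nil, Std_rel1, Std_rel1, hθ]
          simp only [ep_add, (hg _).1, add_zero]
        · omega
        · omega
      · apply IsoS_both
        rw [hV2 h]; simp
    · by_cases h : k % 4 < 2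
      · apply IsoS_both
        rw [hV1 h]; simp
      · rcases hp with hp | hp | hp | hp
        · omega
        · omega
        · subst hp
          rw [List.map_cons, List.map_cons, List.map_nil, Std_rel2, Std_rel2, hθ, hθ]
          simp only
          constructor
          · rintro ⟨h1, h2⟩
            refine ⟨h1, ?_⟩
            rw [h1, h2, add_right_comm]
          · rintro ⟨h1, h2⟩
            refine ⟨h1, ?_⟩
            rw [h1, add_right_comm] at h2
            exact add_right_cancel h2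
        · subst hp
          rw [List.map_cons, List.map_cons, List.map_nil, Std_rel3, Std_rel3, hθ, hθ]
          simp only
          have key : ∀ a b : V, (b + g p = push F p (a + g (p + 1)) + κ' p ↔ b = push F p a + κ p) := by
            intro a b
            rw [push_add, (hg p).2]
            change b + (push F p (g (p + 1)) + (κ p + κ' p)) = _ ↔ _
            constructor
            · intro h1
              have h2 := congrArg (fun w => w + (push F p (g (p + 1)) + (κ p + κ' p))) h1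
              simp only [IsoS_add_right] at h2
              rw [h2]
              have e : push F p a + push F p (g (p + 1)) + κ' p + (push F p (g (p + 1)) + (κ p + κ' p)) =
                push F p a + κ p + (push F p (g (p + 1)) + push F p (g (p + 1))) + (κ' p + κ' p) := by abel
              rw [e, V_add_self, V_add_self, add_zero, add_zero]
            · intro h1
              rw [h1]
              have e : push F p a + κ p + (push F p (g (p + 1)) + (κ p + κ' p)) =
                push F p a + push F p (g (p + 1)) + κ' p + (κ p + κ p) := by abel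
              rw [e, V_add_self, add_zero]
          constructor
          · rintro ⟨h1, h2, h3⟩
            refine ⟨h1, h2, ?_⟩
            rw [h1, h2]
            exact (key _ _).2 h3
          · rintro ⟨h1, h2, h3⟩
            refine ⟨h1, h2, ?_⟩
            rw [h1, h2] at h3
            exact (key _ _).1 h3
    · apply IsoS_both
      by_cases h : k % 4 < 2
      · rw [hV1 h]; simp
      · rw [hV2 h]; simp

end Pool.Agent.NI
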