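import Pool.Agent.NI.IsoS

/-!
# Law: axioms of the torsor towers

`→`: for every `n` choose a base point `b n` with `M.rel (4 * (2 * n) + 1) [b n]`. For `z` let `m` be the
unique number of `lev`, `n = m / 2`, and `v` the unique element of `V` such that
`M.rel (4 * p + 2) [b n, z]` with `dec p = v` (existence `act_trans`; uniqueness: two such `p, q` give
`M.rel (4 * r + 2) [z, z]` with `dec r = dec p + dec q` by `act_add` - first note that the relations
`4 p + 2` are symmetric, because `dec r = 0` for the sum `p + p` - and `act_free`). `θ z = (n, v)` is a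
bijection (`act_fun`, `act_lev`). `κ n` is the element with `θ (τ (b (n + 1))) = (n, κ n)`; it is even by
`tau_lev`. Relation `4 n + 3`: for `θ z = (n + 1, v)` the unique `z'` has coordinate `push F n v + κ n`, by
induction on `v` (`Finsupp.induction_linear` or an induction on finite sums of `single i 1`), with
`tau_eq` for one generator. Parity: `act_lev` and `ep_add`.
`←`: check the axioms with the lemmas `Std_rel0, ..., Std_rel3`.
-/

namespace Pool.Agent.NI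

/-- The parity flip of the level index `m = 2 * level + parity` by `dec p`. -/
noncomputable def flp (p m : ℕ) : ℕ :=
  if ep (dec p) = 0 then m else if m % 2 = 0 then m + 1 else m - 1

/-- The axioms of the torsor towers over the inverse system of `x`. -/
structure Laws (x : Rl) (M : Str VT) : Prop where
  vis : ∀ p z, M.rel (4 * p) [z] ↔ x p = true
  lev : ∀ z, ∃! m, M.rel (4 * m + 1) [z]
  ne : ∀ m, ∃ z, M.rel (4 * m + 1) [z]
  act_fun : ∀ p z, ∃! z', M.rel (4 * p + 2) [z, z']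
  act_lev : ∀ p z z' m, M.rel (4 * p + 2) [z, z'] → M.rel (4 * m + 1) [z] →
    M.rel (4 * flp p m + 1) [z']
  act_add : ∀ p q r z z' z'', dec r = dec p + dec q → M.rel (4 * p + 2) [z, z'] →
    M.rel (4 * q + 2) [z', z''] → M.rel (4 * r + 2) [z, z'']
  act_trans : ∀ m m' z z', m / 2 = m' / 2 → M.rel (4 * m + 1) [z] → M.rel (4 * m' + 1) [z'] →
    ∃ p, M.rel (4 * p + 2) [z, z']
  act_free : ∀ p z, M.rel (4 * p + 2) [z, z] → dec p = 0
  tau_fun : ∀ n m z, m / 2 = n + 1 → M.rel (4 * m + 1) [z] → ∃! z', M.rel (4 * n + 3) [z, z']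
  tau_lev : ∀ n z z', M.rel (4 * n + 3) [z, z'] → ∃ q, q < 2 ∧
    M.rel (4 * (2 * (n + 1) + q) + 1) [z] ∧ M.rel (4 * (2 * n + q) + 1) [z']
  tau_eq : ∀ n i j z z' w w' p p', x (cF n i j) = true → dec p = Finsupp.single i 1 →
    dec p' = Finsupp.single j 1 → M.rel (4 * n + 3) [z, z'] → M.rel (4 * p + 2) [z, w] →
    M.rel (4 * n + 3) [w, w'] → M.rel (4 * p' + 2) [z', w']

theorem Law_z2 (a : ZMod 2) : a = 0 ∨ a = 1 := by
  revert a
  decide

theorem Law_mod (m : ℕ) : ((m % 2 : ℕ) : ZMod 2) = 0 ∧ m % 2 = 0 ∨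
    ((m % 2 : ℕ) : ZMod 2) = 1 ∧ m % 2 = 1 := by
  rcases Nat.mod_two_eq_zero_or_one m with h | h
  · left
    rw [h]
    exact ⟨by simp, rfl⟩
  · right
    rw [h]
    exact ⟨by simp, rfl⟩

theorem Law_det {m m' : ℕ} (h1 : m / 2 = m' / 2)
    (h2 : ((m % 2 : ℕ) : ZMod 2) = ((m' % 2 : ℕ) : ZMod 2)) : m = m' := by
  have h3 : m % 2 = m' % 2 := by
    rcases Law_mod m with ⟨a1, a2⟩ | ⟨a1, a2⟩ <;> rcases Law_mod m' with ⟨b1, b2⟩ | ⟨b1, b2⟩
    · rw [a2, b2]
    · rw [a1, b1] at h2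
      exact absurd h2 (by decide)
    · rw [a1, b1] at h2
      exact absurd h2 (by decide)
    · rw [a2, b2]
  omega

theorem Law_flp2 (p m : ℕ) : flp p m / 2 = m / 2 := by
  unfold flp
  split_ifs <;> omega

theorem Law_flpm (p m : ℕ) : ((flp p m % 2 : ℕ) : ZMod 2) = ((m % 2 : ℕ) : ZMod 2) + ep (dec p) := by
  unfold flp
  split_ifs with h1 h2
  · rw [h1, add_zero]
  · have h3 : (m + 1) % 2 = 1 := by omega
    rw [h2, h3, (Law_z2 (ep (dec p))).resolve_left h1]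
    decide
  · have h3 : (m - 1) % 2 = 0 := by omega
    have h4 : m % 2 = 1 := by omega
    rw [h3, h4, (Law_z2 (ep (dec p))).resolve_left h1]
    decide

theorem Law_exv (m : ℕ) : ∃ v : V, ep v = ((m % 2 : ℕ) : ZMod 2) := by
  rcases Law_mod m with ⟨a1, -⟩ | ⟨a1, -⟩
  · exact ⟨0, by rw [a1, ep_zero]⟩
  · exact ⟨Finsupp.single 0 1, by rw [a1, ep_single]⟩

theorem Law_exm (n : ℕ) (e : ZMod 2) : ∃ m, n = m / 2 ∧ e = ((m % 2 : ℕ) : ZMod 2) := by
  rcases Law_z2 e with h | h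
  · refine ⟨2 * n, by omega, ?_⟩
    have : 2 * n % 2 = 0 := by omega
    rw [this, h]
    simp
  · refine ⟨2 * n + 1, by omega, ?_⟩
    have : (2 * n + 1) % 2 = 1 := by omega
    rw [this, h]
    simp

theorem Law_sys {x : Rl} (hx : IsSys x) (n i : ℕ) : x (cF n i (sysF x n i)) = true := by
  obtain ⟨j, hj, -⟩ := hx n i
  exact Nat.sInf_mem (s := {j | x (cF n i j) = true}) ⟨j, hj⟩

theorem Law_sys_eq {x : Rl} (hx : IsSys x) {n i j : ℕ} (h : x (cF n i j) = true) :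
    sysF x n i = j :=
  (hx n i).unique (Law_sys hx n i) h

theorem Law_eqz {θ : ℕ ≃ ℕ × V} {z w : ℕ} (h1 : (θ z).1 = (θ w).1) (h2 : (θ z).2 = (θ w).2) :
    z = w := θ.injective (Prod.ext h1 h2)

/-- the towers satisfy the laws -/
theorem Law_back (x : Rl) (hx : IsSys x) (κ : ℕ → V) (θ : ℕ ≃ ℕ × V) (hκ : ∀ n, ep (κ n) = 0) :
    Laws x (Std x (sysF x) κ θ) where
  vis p z := Std_rel0 _ _ _ _ _ _
  lev z := by
    obtain ⟨m, h1, h2⟩ := Law_exm (θ z).1 (ep (θ z).2)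
    refine ⟨m, (Std_rel1 _ _ _ _ _ _).2 ⟨h1, h2⟩, fun m' h' => ?_⟩
    obtain ⟨h3, h4⟩ := (Std_rel1 _ _ _ _ _ _).1 h'
    exact Law_det (h3.symm.trans h1) (h4.symm.trans h2)
  ne m := by
    obtain ⟨v, hv⟩ := Law_exv m
    refine ⟨θ.symm (m / 2, v), (Std_rel1 _ _ _ _ _ _).2 ?_⟩
    rw [Equiv.apply_symm_apply]
    exact ⟨rfl, hv⟩
  act_fun p z := by
    refine ⟨θ.symm ((θ z).1, (θ z).2 + dec p), ?_, fun z' h => ?_⟩
    · refine (Std_rel2 _ _ _ _ _ _ _).2 ?_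
      rw [Equiv.apply_symm_apply]
      exact ⟨rfl, rfl⟩
    · obtain ⟨h1, h2⟩ := (Std_rel2 _ _ _ _ _ _ _).1 h
      rw [← h1, ← h2]
      exact (Equiv.symm_apply_apply _ _).symm
  act_lev p z z' m h h' := by
    obtain ⟨h1, h2⟩ := (Std_rel2 _ _ _ _ _ _ _).1 h
    obtain ⟨h3, h4⟩ := (Std_rel1 _ _ _ _ _ _).1 h'
    refine (Std_rel1 _ _ _ _ _ _).2 ⟨?_, ?_⟩
    · rw [h1, h3, Law_flp2]
    · rw [h2, ep_add, h4, Law_flpm]
  act_add p q r z z' z'' hr h h' := by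
    obtain ⟨h1, h2⟩ := (Std_rel2 _ _ _ _ _ _ _).1 h
    obtain ⟨h3, h4⟩ := (Std_rel2 _ _ _ _ _ _ _).1 h'
    refine (Std_rel2 _ _ _ _ _ _ _).2 ⟨h3.trans h1, ?_⟩
    rw [h4, h2, hr, add_assoc]
  act_trans m m' z z' hm h h' := by
    obtain ⟨h1, h2⟩ := (Std_rel1 _ _ _ _ _ _).1 h
    obtain ⟨h3, h4⟩ := (Std_rel1 _ _ _ _ _ _).1 h'
    refine ⟨dec.symm ((θ z).2 + (θ z').2), (Std_rel2 _ _ _ _ _ _ _).2 ⟨?_, ?_⟩⟩
    · rw [h1, h3, hm]
    · rw [Equiv.apply_symm_apply, ← add_assoc, V_add_self, zero_add]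
  act_free p z h := by
    obtain ⟨-, h2⟩ := (Std_rel2 _ _ _ _ _ _ _).1 h
    exact (left_eq_add.1 h2)
  tau_fun n m z hm h := by
    obtain ⟨h1, h2⟩ := (Std_rel1 _ _ _ _ _ _).1 h
    refine ⟨θ.symm (n, push (sysF x) n (θ z).2 + κ n), ?_, fun z' h => ?_⟩
    · refine (Std_rel3 _ _ _ _ _ _ _).2 ?_
      rw [Equiv.apply_symm_apply]
      exact ⟨h1.trans hm, rfl, rfl⟩
    · obtain ⟨-, h3, h4⟩ := (Std_rel3 _ _ _ _ _ _ _).1 h
      rw [← h4]
      conv_rhs => rw [← h3]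
      exact (Equiv.symm_apply_apply _ _).symm
  tau_lev n z z' h := by
    obtain ⟨h1, h2, h3⟩ := (Std_rel3 _ _ _ _ _ _ _).1 h
    have h4 : ep (θ z').2 = ep (θ z).2 := by
      rw [h3, ep_add, ep_push, hκ, add_zero]
    have key : ∀ q : ℕ, q < 2 → ep (θ z).2 = ((q : ℕ) : ZMod 2) → q < 2 ∧
        (Std x (sysF x) κ θ).rel (4 * (2 * (n + 1) + q) + 1) [z] ∧
        (Std x (sysF x) κ θ).rel (4 * (2 * n + q) + 1) [z'] := by
      intro q hq he
      have e1 : (2 * (n + 1) + q) % 2 = q := by omega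
      have e2 : (2 * n + q) % 2 = q := by omega
      refine ⟨hq, (Std_rel1 _ _ _ _ _ _).2 ⟨?_, ?_⟩, (Std_rel1 _ _ _ _ _ _).2 ⟨?_, ?_⟩⟩
      · rw [h1]
        omega
      · rw [e1, he]
      · rw [h2]
        omega
      · rw [e2, h4, he]
    rcases Law_z2 (ep (θ z).2) with h5 | h5
    · exact ⟨0, key 0 (by norm_num) (by rw [h5]; simp)⟩
    · exact ⟨1, key 1 (by norm_num) (by rw [h5]; simp)⟩
  tau_eq n i j z z' w w' p p' hj hp hp' h1 h2 h3 := by
    obtain ⟨a1, a2, a3⟩ := (Std_rel3 _ _ _ _ _ _ _).1 h1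
    obtain ⟨b1, b2⟩ := (Std_rel2 _ _ _ _ _ _ _).1 h2
    obtain ⟨c1, c2, c3⟩ := (Std_rel3 _ _ _ _ _ _ _).1 h3
    refine (Std_rel2 _ _ _ _ _ _ _).2 ⟨c2.trans a2.symm, ?_⟩
    rw [c3, b2, push_add, hp, push_single, Law_sys_eq hx hj, a3, hp', add_right_comm]

section forth

variable {x : Rl} {M : Str VT} (hM : Laws x M)

/-- the action -/
noncomputable def LawA (hM : Laws x M) (v : V) (z : ℕ) : ℕ := (hM.act_fun (dec.symm v) z).choose

theorem LawA_rel (v : V) (z : ℕ) : M.rel (4 * dec.symm v + 2) [z, LawA hM v z] :=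
  (hM.act_fun (dec.symm v) z).choose_spec.1

theorem LawA_iff (p z z' : ℕ) : M.rel (4 * p + 2) [z, z'] ↔ z' = LawA hM (dec p) z := by
  have h1 := LawA_rel hM (dec p) z
  rw [Equiv.symm_apply_apply] at h1
  constructor
  · intro h
    exact (hM.act_fun p z).unique h h1
  · rintro rfl
    exact h1

theorem LawA_add (v w : V) (z : ℕ) : LawA hM w (LawA hM v z) = LawA hM (v + w) z := by
  have h := hM.act_add (dec.symm v) (dec.symm w) (dec.symm (v + w)) z _ _ (by simp)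
    (LawA_rel hM v z) (LawA_rel hM w _)
  rw [LawA_iff hM, Equiv.apply_symm_apply] at h
  exact h

theorem LawA_zero (z : ℕ) : LawA hM 0 z = z := by
  obtain ⟨m, hm, -⟩ := hM.lev z
  obtain ⟨p, hp⟩ := hM.act_trans m m z z rfl hm hm
  have h1 := hM.act_free p z hp
  rw [LawA_iff hM, h1] at hp
  exact hp.symm

theorem LawA_free {v : V} {z : ℕ} (h : LawA hM v z = z) : v = 0 := by
  have h1 := LawA_rel hM v z
  rw [h] at h1
  have h2 := hM.act_free _ _ h1
  rwa [Equiv.apply_symm_apply] at h2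

theorem LawA_inj {v w : V} {z : ℕ} (h : LawA hM v z = LawA hM w z) : v = w := by
  have h1 := congrArg (LawA hM w) h
  rw [LawA_add, LawA_add, V_add_self, LawA_zero] at h1
  have h2 := LawA_free hM h1
  have h3 : v + w + w = 0 + w := by rw [h2]
  rwa [add_assoc, V_add_self, add_zero, zero_add] at h3

/-- base points -/
noncomputable def Lawb (hM : Laws x M) (n : ℕ) : ℕ := (hM.ne (2 * n)).choose

theorem Lawb_rel (n : ℕ) : M.rel (4 * (2 * n) + 1) [Lawb hM n] := (hM.ne (2 * n)).choose_spec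

theorem LawA_lev {v : V} {z m : ℕ} (h : M.rel (4 * m + 1) [z]) :
    M.rel (4 * flp (dec.symm v) m + 1) [LawA hM v z] :=
  hM.act_lev _ _ _ _ (LawA_rel hM v z) h

/-- coordinates -/
noncomputable def LawI (hM : Laws x M) (q : ℕ × V) : ℕ := LawA hM q.2 (Lawb hM q.1)

theorem LawI_lev (q : ℕ × V) (p : ℕ) : M.rel (4 * p + 1) [LawI hM q] ↔
    (q.1 = p / 2 ∧ ep q.2 = ((p % 2 : ℕ) : ZMod 2)) := by
  have h1 : M.rel (4 * flp (dec.symm q.2) (2 * q.1) + 1) [LawI hM q] :=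
    LawA_lev hM (Lawb_rel hM q.1)
  have h2 := Law_flp2 (dec.symm q.2) (2 * q.1)
  have h3 := Law_flpm (dec.symm q.2) (2 * q.1)
  rw [Equiv.apply_symm_apply] at h3
  have h4 : 2 * q.1 % 2 = 0 := by omega
  rw [h4, Nat.cast_zero, zero_add] at h3
  constructor
  · intro h
    have h5 := (hM.lev _).unique h h1
    rw [h5, h2, h3]
    exact ⟨by omega, rfl⟩
  · rintro ⟨a, b⟩
    have h5 : p = flp (dec.symm q.2) (2 * q.1) :=
      Law_det (by rw [h2, ← a]; omega) (by rw [h3, b])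
    rw [h5]
    exact h1

theorem LawI_bij : Function.Bijective (LawI hM) := by
  constructor
  · intro q q' h
    obtain ⟨m, h1, h2⟩ := Law_exm q.1 (ep q.2)
    have h3 := (LawI_lev hM q m).2 ⟨h1, h2⟩
    rw [h] at h3
    obtain ⟨h4, h5⟩ := (LawI_lev hM q' m).1 h3
    have h6 : q.1 = q'.1 := h1.trans h4.symm
    refine Prod.ext h6 ?_
    unfold LawI at h
    rw [h6] at h
    exact LawA_inj hM h
  · intro z
    obtain ⟨m, hm, -⟩ := hM.lev z
    obtain ⟨p, hp⟩ := hM.act_trans (2 * (m / 2)) m (Lawb hM (m / 2)) z (by omega)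
      (Lawb_rel hM (m / 2)) hm
    rw [LawA_iff hM] at hp
    exact ⟨(m / 2, dec p), hp.symm⟩

/-- the coordinates -/
noncomputable def Lawθ (hM : Laws x M) : ℕ ≃ ℕ × V := (Equiv.ofBijective _ (LawI_bij hM)).symm

theorem Lawθ_symm (q : ℕ × V) : (Lawθ hM).symm q = LawI hM q := rfl

theorem Lawθ_eq (z : ℕ) : z = LawA hM (Lawθ hM z).2 (Lawb hM (Lawθ hM z).1) := by
  have h := (Lawθ hM).symm_apply_apply z
  exact h.symm

theorem Lawθ_I (q : ℕ × V) : Lawθ hM (LawI hM q) = q := (Lawθ hM).apply_symm_apply q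

theorem Law_rel1 (p z : ℕ) : M.rel (4 * p + 1) [z] ↔
    ((Lawθ hM z).1 = p / 2 ∧ ep (Lawθ hM z).2 = ((p % 2 : ℕ) : ZMod 2)) := by
  have h := LawI_lev hM (Lawθ hM z) p
  rwa [← Lawθ_symm, Equiv.symm_apply_apply] at h

theorem Lawθ_A (v : V) (z : ℕ) : Lawθ hM (LawA hM v z) = ((Lawθ hM z).1, (Lawθ hM z).2 + v) := by
  have h1 := Lawθ_eq hM z
  have h2 : LawA hM v z = LawI hM ((Lawθ hM z).1, (Lawθ hM z).2 + v) := by
    unfold LawI
    simp only
    rw [← LawA_add, ← h1]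
  rw [h2, Lawθ_I]

theorem Law_rel2 (p z z' : ℕ) : M.rel (4 * p + 2) [z, z'] ↔
    ((Lawθ hM z').1 = (Lawθ hM z).1 ∧ (Lawθ hM z').2 = (Lawθ hM z).2 + dec p) := by
  rw [LawA_iff hM]
  constructor
  · rintro rfl
    rw [Lawθ_A]
    exact ⟨rfl, rfl⟩
  · rintro ⟨h1, h2⟩
    apply (Lawθ hM).injective
    rw [Lawθ_A, ← h1, ← h2]

theorem Law_levex (z : ℕ) : ∃ m, m / 2 = (Lawθ hM z).1 ∧ M.rel (4 * m + 1) [z] := by
  obtain ⟨m, h1, h2⟩ := Law_exm (Lawθ hM z).1 (ep (Lawθ hM z).2)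
  exact ⟨m, h1.symm, (Law_rel1 hM m z).2 ⟨h1, h2⟩⟩

theorem Law_taufun (n z : ℕ) (h : (Lawθ hM z).1 = n + 1) : ∃! z', M.rel (4 * n + 3) [z, z'] := by
  obtain ⟨m, h1, h2⟩ := Law_levex hM z
  exact hM.tau_fun n m z (h1.trans h) h2

theorem Law_taulev {n z z' : ℕ} (h : M.rel (4 * n + 3) [z, z']) :
    (Lawθ hM z).1 = n + 1 ∧ (Lawθ hM z').1 = n ∧ ep (Lawθ hM z').2 = ep (Lawθ hM z).2 := by
  obtain ⟨q, hq, h1, h2⟩ := hM.tau_lev n z z' h
  obtain ⟨a1, a2⟩ := (Law_rel1 hM _ _).1 h1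
  obtain ⟨b1, b2⟩ := (Law_rel1 hM _ _).1 h2
  refine ⟨by rw [a1]; omega, by rw [b1]; omega, ?_⟩
  rw [a2, b2]
  congr 1
  omega

theorem Law_tau (hx : IsSys x) (n : ℕ) (v : V) : ∀ z z' : ℕ, M.rel (4 * n + 3) [z, z'] →
    M.rel (4 * n + 3) [LawA hM v z, LawA hM (push (sysF x) n v) z'] := by
  induction v using Finsupp.induction_linear with
  | zero =>
    intro z z' h
    rwa [push_zero, LawA_zero, LawA_zero]
  | add f g hf hg =>
    intro z z' h
    have h1 := hg _ _ (hf _ _ h)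
    rwa [LawA_add, LawA_add, ← push_add] at h1
  | single i b =>
    intro z z' h
    rcases Law_z2 b with rfl | rfl
    · rw [Finsupp.single_zero, push_zero, LawA_zero, LawA_zero]
      exact h
    · have h1 : (Lawθ hM (LawA hM (Finsupp.single i 1) z)).1 = n + 1 := by
        rw [Lawθ_A]
        exact (Law_taulev hM h).1
      obtain ⟨w', hw', -⟩ := Law_taufun hM n _ h1
      have h2 := hM.tau_eq n i (sysF x n i) z z' (LawA hM (Finsupp.single i 1) z) w'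
        (dec.symm (Finsupp.single i 1)) (dec.symm (Finsupp.single (sysF x n i) 1))
        (Law_sys hx n i) (by simp) (by simp) h (LawA_rel hM _ _) hw'
      rw [LawA_iff hM, Equiv.apply_symm_apply] at h2
      rw [push_single, ← h2]
      exact hw'

/-- the cocycle -/
noncomputable def Lawκ (hM : Laws x M) (n : ℕ) : V :=
  (Lawθ hM (Law_taufun hM n (Lawb hM (n + 1)) (by
    have h := (Law_rel1 hM (2 * (n + 1)) (Lawb hM (n + 1))).1 (Lawb_rel hM (n + 1))
    rw [h.1]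
    omega)).choose).2

theorem Law_θb (n : ℕ) : Lawθ hM (Lawb hM n) = (n, 0) := by
  have h1 : Lawb hM n = LawI hM (n, 0) := by
    unfold LawI
    simp only
    rw [LawA_zero]
  conv_lhs => rw [h1]
  exact Lawθ_I hM _

theorem Law_taub (n : ℕ) : M.rel (4 * n + 3) [Lawb hM (n + 1), LawI hM (n, Lawκ hM n)] := by
  have hb : (Lawθ hM (Lawb hM (n + 1))).1 = n + 1 := by rw [Law_θb]
  have h1 := (Law_taufun hM n (Lawb hM (n + 1)) hb).choose_spec.1
  simp only at h1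
  have h2 := (Law_taulev hM h1).2.1
  have h3 : (Law_taufun hM n (Lawb hM (n + 1)) hb).choose = LawI hM (n, Lawκ hM n) := by
    apply (Lawθ hM).injective
    rw [Lawθ_I]
    exact Prod.ext h2 rfl
  rwa [h3] at h1

theorem Lawκ_ep (n : ℕ) : ep (Lawκ hM n) = 0 := by
  have h := (Law_taulev hM (Law_taub hM n)).2.2
  rw [Lawθ_I, Law_θb] at h
  rw [h, ep_zero]

theorem Law_rel3 (hx : IsSys x) (p z z' : ℕ) : M.rel (4 * p + 3) [z, z'] ↔
    ((Lawθ hM z).1 = p + 1 ∧ (Lawθ hM z').1 = p ∧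
      (Lawθ hM z').2 = push (sysF x) p (Lawθ hM z).2 + Lawκ hM p) := by
  have key : (Lawθ hM z).1 = p + 1 → M.rel (4 * p + 3)
      [z, LawI hM (p, push (sysF x) p (Lawθ hM z).2 + Lawκ hM p)] := by
    intro h1
    have h2 := Law_tau hM hx p (Lawθ hM z).2 _ _ (Law_taub hM p)
    have h3 := Lawθ_eq hM z
    rw [h1] at h3
    rw [← h3] at h2
    unfold LawI at h2 ⊢
    simp only at h2 ⊢
    rwa [LawA_add, add_comm (Lawκ hM p)] at h2
  constructor
  · intro h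
    obtain ⟨h1, h2, h3⟩ := Law_taulev hM h
    have h4 := (Law_taufun hM p z h1).unique h (key h1)
    refine ⟨h1, h2, ?_⟩
    conv_lhs => rw [h4]
    rw [Lawθ_I]
  · rintro ⟨h1, h2, h3⟩
    have h4 := key h1
    have h5 : z' = LawI hM (p, push (sysF x) p (Lawθ hM z).2 + Lawκ hM p) := by
      apply (Lawθ hM).injective
      rw [Lawθ_I]
      exact Prod.ext h2 h3
    rw [h5]
    exact h4

end forth

theorem Law_ext {M N : Str VT} (h : ∀ k l, M.rel k l ↔ N.rel k l) : M = N := by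
  cases M
  cases N
  congr 1
  funext k l
  exact propext (h k l)

theorem Law_eq {M N : Str VT} (h0 : ∀ p z, M.rel (4 * p) [z] ↔ N.rel (4 * p) [z])
    (h1 : ∀ p z, M.rel (4 * p + 1) [z] ↔ N.rel (4 * p + 1) [z])
    (h2 : ∀ p z z', M.rel (4 * p + 2) [z, z'] ↔ N.rel (4 * p + 2) [z, z'])
    (h3 : ∀ p z z', M.rel (4 * p + 3) [z, z'] ↔ N.rel (4 * p + 3) [z, z']) : M = N := by
  apply Law_ext
  intro k l
  by_cases hl : l.length = VT k
  · obtain ⟨p, q, hq, rfl⟩ : ∃ p q, q < 4 ∧ k = 4 * p + q := ⟨k / 4, k % 4, by omega, by omega⟩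
    unfold VT at hl
    have hm : (4 * p + q) % 4 = q := by omega
    rw [hm] at hl
    interval_cases q
    · obtain ⟨z, rfl⟩ := List.length_eq_one_iff.1 (by simpa using hl)
      exact h0 p z
    · obtain ⟨z, rfl⟩ := List.length_eq_one_iff.1 (by simpa using hl)
      exact h1 p z
    · obtain ⟨z, z', rfl⟩ := List.length_eq_two.1 (by simpa using hl)
      exact h2 p z z'
    · obtain ⟨z, z', rfl⟩ := List.length_eq_two.1 (by simpa using hl)
      exact h3 p z z'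
  · exact ⟨fun h => absurd (M.len k l h) hl, fun h => absurd (N.len k l h) hl⟩

theorem laws_iff (x : Rl) (hx : IsSys x) (M : Str VT) :
    Laws x M ↔ ∃ κ : ℕ → V, ∃ θ : ℕ ≃ ℕ × V, (∀ n, ep (κ n) = 0) ∧ M = Std x (sysF x) κ θ := by
  constructor
  · intro hM
    refine ⟨Lawκ hM, Lawθ hM, Lawκ_ep hM, ?_⟩
    apply Law_eq
    · intro p z
      rw [hM.vis, Std_rel0]
    · intro p z
      rw [Law_rel1 hM, Std_rel1]
    · intro p z z'
      rw [Law_rel2 hM, Std_rel2]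
    · intro p z z'
      rw [Law_rel3 hM hx, Std_rel3]
  · rintro ⟨κ, θ, hκ, rfl⟩
    exact Law_back x hx κ θ hκ

end Pool.Agent.NI
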