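import Pool.Agent.NI.Cod

/-!
# MsD: the sets `DAll` and `DB B` are Borel

All conditions are built by countable quantifiers and propositional connectives from the conditions
`x k = true` (measurable: `x ↦ x k` is measurable) and `TRed (cW x) (cY x j)`. Useful: for a predicate `p` on
`Rl`, `MeasurableSet {x | p x}`; `MeasurableSet.iInter`, `.iUnion`, `.inter`, `.union`, `.compl`, or
`Measurable.forall`, `Measurable.exists`, `Measurable.and`, `Measurable.not`, ... for
`Measurable (fun x => p x : Rl → Prop)` (`measurableSet_setOf`).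
* `IsSys`: countable quantifiers. `sysF x = FV (Desc (Lr x))`: for `IsSys x` equivalent to
  `∀ n k, ∃ j, x (cF n k j) = true ∧ FV (Desc (Lr x)) n k = j`; unfold `FV`: `Desc (Lr x) s` for a fixed list `s`
  is a finite conjunction of bits.
* `TB B (Lr x) b u`, `Split`: countable quantifiers over lists.
* `v.map Prod.fst = pre (cY x j) v.length`: a finite conjunction, `∀ i < v.length, ...`.
* `TRed w y ↔ ∃ i, ∀ n, Phi y i n = Part.some (w n).toNat`, and
  `Phi y i n = Part.some m ↔ m ∈ Phi y i n` (`Part.eq_some_iff`); the set `{y | m ∈ Phi y i n}` is open by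
  `Phi_use` (for `y` in it, the finite intersection of the clopen sets `{y' | y' i = y i}` for `i < t` is a
  neighbourhood), so measurable (`Rl = ℕ → Bool` is a Borel space: `Pi.borelSpace`, Bool has the discrete
  topology). The maps `x ↦ cY x j` and `x ↦ cW x` are measurable (`measurable_pi_iff`).
-/

namespace Pool.Agent.NI

/-- measurable predicates -/
def MsD_M (p : Rl → Prop) : Prop := MeasurableSet {x : Rl | p x}

theorem MsD_bit (k : ℕ) : MsD_M (fun x => x k = true) := by
  have h1 : Measurable (fun x : Rl => x k) := measurable_pi_apply k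
  exact h1 (measurableSet_singleton true)

theorem MsD_const (p : Prop) : MsD_M (fun _ => p) := MeasurableSet.const p

theorem MsD_not {p : Rl → Prop} (h : MsD_M p) : MsD_M (fun x => ¬ p x) := MeasurableSet.compl h

theorem MsD_and {p q : Rl → Prop} (h : MsD_M p) (h' : MsD_M q) : MsD_M (fun x => p x ∧ q x) :=
  MeasurableSet.inter h h'

theorem MsD_or {p q : Rl → Prop} (h : MsD_M p) (h' : MsD_M q) : MsD_M (fun x => p x ∨ q x) :=
  MeasurableSet.union h h'

theorem MsD_congr {p q : Rl → Prop} (h : MsD_M p) (h' : ∀ x, q x ↔ p x) : MsD_M q := by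
  have h1 : {x : Rl | q x} = {x : Rl | p x} := Set.ext h'
  unfold MsD_M at h ⊢
  rw [h1]
  exact h

theorem MsD_imp {p q : Rl → Prop} (h : MsD_M p) (h' : MsD_M q) : MsD_M (fun x => p x → q x) :=
  MsD_congr (MsD_or (MsD_not h) h') fun _ => imp_iff_not_or

theorem MsD_iff {p q : Rl → Prop} (h : MsD_M p) (h' : MsD_M q) : MsD_M (fun x => (p x ↔ q x)) :=
  MsD_congr (MsD_and (MsD_imp h h') (MsD_imp h' h)) fun _ =>
    ⟨fun e => ⟨e.1, e.2⟩, fun e => ⟨e.1, e.2⟩⟩

theorem MsD_all {ι : Type} [Countable ι] {p : ι → Rl → Prop} (h : ∀ i, MsD_M (p i)) :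
    MsD_M (fun x => ∀ i, p i x) := by
  have h1 : {x : Rl | ∀ i, p i x} = ⋂ i, {x : Rl | p i x} := by
    ext x
    simp
  unfold MsD_M
  rw [h1]
  exact MeasurableSet.iInter h

theorem MsD_ex {ι : Type} [Countable ι] {p : ι → Rl → Prop} (h : ∀ i, MsD_M (p i)) :
    MsD_M (fun x => ∃ i, p i x) := by
  have h1 : {x : Rl | ∃ i, p i x} = ⋃ i, {x : Rl | p i x} := by
    ext x
    simp
  unfold MsD_M
  rw [h1]
  exact MeasurableSet.iUnion h

theorem MsD_imp' {p : Prop} {q : Rl → Prop} (h : MsD_M q) : MsD_M (fun x => p → q x) :=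
  MsD_imp (MsD_const p) h

theorem MsD_IsSys : MsD_M IsSys := by
  have h : MsD_M (fun x => ∀ n k, ∃ j, x (cF n k j) = true ∧ ∀ j', x (cF n k j') = true → j' = j) :=
    MsD_all fun n => MsD_all fun k => MsD_ex fun j => MsD_and (MsD_bit _)
      (MsD_all fun j' => MsD_imp (MsD_bit _) (MsD_const _))
  exact MsD_congr h fun x => Iff.rfl

theorem meas_DAll : MeasurableSet DAll := MsD_IsSys

theorem MsD_open (i n m : ℕ) : IsOpen {y : Rl | m ∈ Phi y i n} := by
  rw [isOpen_iff_mem_nhds]
  intro y hy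
  obtain ⟨t, ht⟩ := Phi_use i y n m hy
  have h1 : {y' : Rl | ∀ j < t, y' j = y j} ∈ nhds y := by
    have h2 : {y' : Rl | ∀ j < t, y' j = y j} = ⋂ j ∈ Set.Iio t, {y' : Rl | y' j = y j} := by
      ext y'
      simp
    rw [h2, Filter.biInter_mem (Set.finite_Iio t)]
    intro j _
    exact (continuous_apply j).continuousAt.preimage_mem_nhds
      ((isOpen_discrete {y j}).mem_nhds rfl)
  exact Filter.mem_of_superset h1 fun y' hy' => ht y' hy'

theorem MsD_cY (j : ℕ) : Measurable fun x : Rl => cY x j := by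
  rw [measurable_pi_iff]
  intro n
  exact measurable_pi_apply _

theorem MsD_Phi (j i n m : ℕ) : MsD_M (fun x => m ∈ Phi (cY x j) i n) :=
  (MsD_cY j) (MsD_open i n m).measurableSet

theorem MsD_TRed (j : ℕ) : MsD_M (fun x => TRed (cW x) (cY x j)) := by
  have h : MsD_M (fun x => ∃ i, ∀ n, (x (Nat.pair 5 n) = true ∧ 1 ∈ Phi (cY x j) i n) ∨
      (¬ x (Nat.pair 5 n) = true ∧ 0 ∈ Phi (cY x j) i n)) :=
    MsD_ex fun i => MsD_all fun n => MsD_or (MsD_and (MsD_bit _) (MsD_Phi _ _ _ _))
      (MsD_and (MsD_not (MsD_bit _)) (MsD_Phi _ _ _ _))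
  refine MsD_congr h fun x => ?_
  unfold TRed
  refine exists_congr fun i => forall_congr' fun n => ?_
  rw [Part.eq_some_iff]
  show (cW x n).toNat ∈ Phi (cY x j) i n ↔ _
  have hc : cW x n = x (Nat.pair 5 n) := rfl
  rw [hc]
  cases x (Nat.pair 5 n) <;> simp

theorem meas_TRed (j : ℕ) : MeasurableSet {x : Rl | TRed (cW x) (cY x j)} := MsD_TRed j

theorem MsD_Desc : ∀ s : List ℕ, MsD_M (fun x => Desc (Lr x) s) := by
  intro s
  induction s with
  | nil => exact MsD_congr (MsD_const True) fun x => by unfold Desc; simp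
  | cons a s ih =>
    cases s with
    | nil => exact MsD_congr (MsD_const True) fun x => by unfold Desc; simp
    | cons b s =>
      refine MsD_congr (MsD_and (MsD_bit (Nat.pair 1 (Nat.pair b a))) ih) fun x => ?_
      unfold Desc
      rw [List.isChain_cons_cons]
      rfl

theorem MsD_pre (j : ℕ) : ∀ (n : ℕ) (l : List Bool), MsD_M (fun x => l = pre (cY x j) n) := by
  intro n
  induction n with
  | zero =>
    intro l
    exact MsD_congr (MsD_const (l = [])) fun x => Iff.rfl
  | succ n ih =>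
    intro l
    have hb : ∀ b : Bool, MsD_M (fun x => b = cY x j n) := by
      intro b
      cases b with
      | true =>
        refine MsD_congr (MsD_bit (Nat.pair 4 (Nat.pair j n))) fun x => ?_
        exact eq_comm
      | false =>
        refine MsD_congr (MsD_not (MsD_bit (Nat.pair 4 (Nat.pair j n)))) fun x => ?_
        show false = x (Nat.pair 4 (Nat.pair j n)) ↔ _
        cases x (Nat.pair 4 (Nat.pair j n)) <;> simp
    have h : MsD_M (fun x => ∃ (l' : List Bool) (b : Bool), l = l' ++ [b] ∧ l' = pre (cY x j) n ∧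
        b = cY x j n) :=
      MsD_ex fun l' => MsD_ex fun b => MsD_and (MsD_const _) (MsD_and (ih l') (hb b))
    refine MsD_congr h fun x => ?_
    have h1 : pre (cY x j) (n + 1) = pre (cY x j) n ++ [cY x j n] := by
      unfold pre
      rw [List.range_succ, List.map_append]
      rfl
    rw [h1]
    constructor
    · intro h2
      exact ⟨_, _, h2, rfl, rfl⟩
    · rintro ⟨l', b, h2, h3, h4⟩
      rw [h2, h3, h4]

theorem MsD_TB (B : List ℕ → List Bool → Prop) (b : ℕ) (u : List (Bool × ℕ)) :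
    MsD_M (fun x => TB B (Lr x) b u) := by
  unfold TB
  exact MsD_all fun s => MsD_imp' (MsD_imp' (MsD_imp' (MsD_and (MsD_imp' (MsD_bit _))
    (MsD_all fun s' => MsD_all fun a => MsD_imp' (MsD_imp' (MsD_bit _))))))

theorem MsD_Split (b c : ℕ) (u : List (Bool × ℕ)) : MsD_M (fun x => Split (tS x b c) u) := by
  unfold Split
  exact MsD_ex fun u₀ => MsD_ex fun u₁ => MsD_and (MsD_bit _) (MsD_and (MsD_bit _) (MsD_const _))

theorem MsD_Cert (B : List ℕ → List Bool → Prop) : MsD_M (fun x => Cert B x) := by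
  have h1 : MsD_M (fun x => ∀ b c u, tS x b c u ↔
      (TB B (Lr x) b u ∧ ∀ c', Lr' x c' c → Split (tS x b c') u)) :=
    MsD_all fun b => MsD_all fun c => MsD_all fun u => MsD_iff (MsD_bit _)
      (MsD_and (MsD_TB B b u) (MsD_all fun c' => MsD_imp (MsD_bit _) (MsD_Split b c' u)))
  have h2 : MsD_M (fun x => ∀ b, ∃ c₀, (∀ u, ¬ tS x b c₀ u) ∧ ∀ c, Lr' x c c₀ → ∃ u, tS x b c u) :=
    MsD_all fun b => MsD_ex fun c₀ => MsD_and (MsD_all fun u => MsD_not (MsD_bit _))
      (MsD_all fun c => MsD_imp (MsD_bit _) (MsD_ex fun u => MsD_bit _))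
  have h3 : MsD_M (fun x => ∀ b c u, tS x b c u → ¬ Split (tS x b c) u →
      ∃ j, ∀ v : List (Bool × ℕ), u <+: v → tS x b c v → v.map Prod.fst = pre (cY x j) v.length) :=
    MsD_all fun b => MsD_all fun c => MsD_all fun u => MsD_imp (MsD_bit _)
      (MsD_imp (MsD_not (MsD_Split b c u)) (MsD_ex fun j => MsD_all fun v =>
        MsD_imp' (MsD_imp (MsD_bit _) (MsD_pre j _ _))))
  have h4 : MsD_M (fun x => ∀ j, ¬ TRed (cW x) (cY x j)) :=
    MsD_all fun j => MsD_not (MsD_TRed j)
  refine MsD_congr (MsD_and h1 (MsD_and h2 (MsD_and h3 h4))) fun x => ?_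
  constructor
  · rintro ⟨a, b, c, d⟩
    exact ⟨a, b, c, d⟩
  · rintro ⟨a, b, c, d⟩
    exact ⟨a, b, c, d⟩

theorem MsD_sysF {x : Rl} (hx : IsSys x) (n k j : ℕ) : sysF x n k = j ↔ x (cF n k j) = true := by
  obtain ⟨j₀, h1, h2⟩ := hx n k
  have h3 : sysF x n k ∈ {j | x (cF n k j) = true} := Nat.sInf_mem ⟨j₀, h1⟩
  constructor
  · intro h
    rw [← h]
    exact h3
  · intro h
    rw [h2 j h]
    exact h2 _ h3

theorem MsD_FV (n k : ℕ) : MsD_M (fun x => x (cF n k (FV (Desc (Lr x)) n k)) = true) := by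
  classical
  have h : MsD_M (fun x => ((Denumerable.ofNat (List ℕ) k).length = n + 1 ∧
      Desc (Lr x) (Denumerable.ofNat (List ℕ) k) →
        x (cF n k (Encodable.encode (Denumerable.ofNat (List ℕ) k).dropLast)) = true) ∧
      (¬ ((Denumerable.ofNat (List ℕ) k).length = n + 1 ∧
      Desc (Lr x) (Denumerable.ofNat (List ℕ) k)) → x (cF n k (k + 1)) = true)) :=
    MsD_and (MsD_imp (MsD_and (MsD_const _) (MsD_Desc _)) (MsD_bit _))
      (MsD_imp (MsD_not (MsD_and (MsD_const _) (MsD_Desc _))) (MsD_bit _))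
  refine MsD_congr h fun x => ?_
  unfold FV
  by_cases hc : (Denumerable.ofNat (List ℕ) k).length = n + 1 ∧
      Desc (Lr x) (Denumerable.ofNat (List ℕ) k)
  · rw [if_pos hc]
    exact ⟨fun e => ⟨fun _ => e, fun hn => absurd hc hn⟩, fun e => e.1 hc⟩
  · rw [if_neg hc]
    exact ⟨fun e => ⟨fun hn => absurd hn hc, fun _ => e⟩, fun e => e.2 hc⟩

theorem meas_DB (B : List ℕ → List Bool → Prop) : MeasurableSet (DB B) := by
  have h : MsD_M (fun x => IsSys x ∧ (∀ n k, x (cF n k (FV (Desc (Lr x)) n k)) = true) ∧ Cert B x) :=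
    MsD_and MsD_IsSys (MsD_and (MsD_all fun n => MsD_all fun k => MsD_FV n k) (MsD_Cert B))
  refine MsD_congr h (q := fun x => x ∈ DB B) fun x => ?_
  constructor
  · rintro ⟨h1, h2, h3⟩
    refine ⟨h1, fun n k => ?_, h3⟩
    rw [← MsD_sysF h1, h2]
  · rintro ⟨h1, h2, h3⟩
    refine ⟨h1, ?_, h3⟩
    funext n k
    rw [MsD_sysF h1]
    exact h2 n k

end Pool.Agent.NI
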