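import Pool.Agent.NI.Core

/-!
# Nrm: normal form of coanalytic sets

`MeasureTheory.AnalyticSet Pᶜ`: `Pᶜ = ∅` (take `B s t = False`), or `Pᶜ` is the range of a continuous
`f : (ℕ → ℕ) → Rl`; take `B s t ↔ s.length = t.length ∧ ∃ z, pre z s.length = s ∧ pre (f z) t.length = t`.
If `y = f z` then `z` is an infinite branch of the tree of `y`. Conversely let `z` be an infinite branch:
for every `n` there is `z_n` with `pre z_n n = pre z n`, `pre (f z_n) n = pre y n`; so `z_n → z`
(`tendsto_pi_nhds`, eventually constant coordinates), `f z_n → f z` and `f z_n → y`, so `y = f z`.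
-/

namespace Pool.Agent.NI

theorem Nrm_len {α : Type} (f : ℕ → α) (n : ℕ) : (pre f n).length = n := by
  unfold pre
  rw [List.length_map, List.length_range]

theorem Nrm_succ {α : Type} (f : ℕ → α) (n : ℕ) : pre f (n + 1) = pre f n ++ [f n] := by
  unfold pre
  rw [List.range_succ, List.map_append]
  rfl

theorem Nrm_eq {α : Type} {f g : ℕ → α} {n : ℕ} (h : pre f n = pre g n) : ∀ i < n, f i = g i := by
  intro i hi
  unfold pre at h
  rw [List.map_inj_left] at h
  exact h i (List.mem_range.2 hi)

theorem Nrm_lim {α : Type} [TopologicalSpace α] (z : ℕ → α) (zs : ℕ → ℕ → α)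
    (h : ∀ n, pre (zs n) n = pre z n) : Filter.Tendsto zs Filter.atTop (nhds z) := by
  rw [tendsto_pi_nhds]
  intro i
  refine tendsto_const_nhds.congr' ?_
  filter_upwards [Filter.eventually_gt_atTop i] with n hn
  exact (Nrm_eq (h n) i hn).symm

theorem coanalytic_normal (P : Set Rl) (h : MeasureTheory.AnalyticSet Pᶜ) :
    ∃ B : List ℕ → List Bool → Prop, PC B ∧ P = PB B := by
  rw [MeasureTheory.AnalyticSet] at h
  rcases h with h | ⟨f, hf, hr⟩
  · refine ⟨fun _ _ => False, fun _ _ _ _ h' => h', ?_⟩
    have hP : P = Set.univ := Set.compl_empty_iff.1 h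
    rw [hP]
    symm
    apply Set.eq_univ_of_forall
    rintro y ⟨z, hz⟩
    exact hz 0
  · refine ⟨fun s t => s.length = t.length ∧ ∃ z, pre z s.length = s ∧ pre (f z) t.length = t, ?_, ?_⟩
    · rintro s a t b ⟨h1, z, h2, h3⟩
      rw [List.length_append, List.length_append, List.length_singleton, List.length_singleton] at h1
      rw [List.length_append, List.length_singleton, Nrm_succ] at h2 h3
      refine ⟨by omega, z, ?_, ?_⟩
      · exact (List.append_inj' h2 rfl).1
      · exact (List.append_inj' h3 rfl).1
    · ext y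
      constructor
      · rintro hy ⟨z, hz⟩
        have hz' : ∀ n, ∃ w, pre w n = pre z n ∧ pre (f w) n = pre y n := by
          intro n
          obtain ⟨-, w, h1, h2⟩ := hz n
          rw [Nrm_len] at h1 h2
          exact ⟨w, h1, h2⟩
        choose zs h1 h2 using hz'
        have t1 : Filter.Tendsto zs Filter.atTop (nhds z) := Nrm_lim z zs h1
        have t2 : Filter.Tendsto (fun n => f (zs n)) Filter.atTop (nhds (f z)) :=
          (hf.tendsto z).comp t1
        have t3 : Filter.Tendsto (fun n => f (zs n)) Filter.atTop (nhds y) :=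
          Nrm_lim y (fun n => f (zs n)) h2
        have h3 : f z = y := tendsto_nhds_unique t2 t3
        have h4 : y ∈ Pᶜ := by
          rw [← hr, ← h3]
          exact ⟨z, rfl⟩
        exact h4 hy
      · intro hy
        by_contra hyP
        have h4 : y ∈ Set.range f := by
          rw [hr]
          exact hyP
        obtain ⟨z, hz⟩ := h4
        apply hy
        refine ⟨z, fun n => ⟨by rw [Nrm_len, Nrm_len], z, by rw [Nrm_len], ?_⟩⟩
        rw [Nrm_len, hz]

end Pool.Agent.NI
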