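import Pool.Agent.NI.Core

/-!
# Msr: Borel sets of visible reals are definable

The real of `M` is `k ↦ [∀ z, M.rel (4 k) [z]]`. The sets `D` such that the conclusion holds form a
σ-algebra (`Fml.neg` for complements, `neg (conj (neg ...))` for countable unions) which contains the
basic sets `{x | x k = true}` (formula `Fml.all (Fml.rel (4 * k) [0] _)`, `VT (4 * k) = 1`). The σ-algebra on
`ℕ → Bool` is generated by the coordinate projections (`MeasurableSpace.pi`), so every measurable
set is in this class: define the measurable space `m` with these sets and show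
`MeasurableSpace.pi ≤ m` (`iSup_le`, `MeasurableSpace.comap_le_iff_le_map`, every subset of `Bool` is one of
`∅, {true}, {false}, univ`).
-/

namespace Pool.Agent.NI

open Classical in
theorem exists_prop (D : Set Rl) (hD : MeasurableSet D) :
    ∃ f : Fml VT 0, ∀ M : Str VT,
      Sat M f Fin.elim0 ↔ (fun k => decide (∀ z, M.rel (4 * k) [z])) ∈ D := by
  let r : Str VT → Rl := fun M k => decide (∀ z, M.rel (4 * k) [z])
  let m : MeasurableSpace Rl :=
    { MeasurableSet' := fun D => ∃ f : Fml VT 0, ∀ M : Str VT, Sat M f Fin.elim0 ↔ r M ∈ D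
      measurableSet_empty := by
        refine ⟨Fml.neg (Fml.all (Fml.eq 0 0)), fun M => ?_⟩
        simp [Sat]
      measurableSet_compl := by
        rintro s ⟨f, hf⟩
        refine ⟨Fml.neg f, fun M => ?_⟩
        rw [Set.mem_compl_iff, ← hf M, Sat]
      measurableSet_iUnion := by
        intro f hf
        choose g hg using hf
        refine ⟨Fml.neg (Fml.conj fun i => Fml.neg (g i)), fun M => ?_⟩
        simp only [Sat, hg, Set.mem_iUnion, not_forall, not_not] }
  have hb : ∀ k : ℕ, @MeasurableSet Rl m ((fun x : Rl => x k) ⁻¹' {true}) := by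
    intro k
    have hl : ([0] : List (Fin 1)).length = VT (4 * k) := by
      unfold VT
      rw [if_pos (by omega)]
      rfl
    refine ⟨Fml.all (Fml.rel (4 * k) [0] hl), fun M => ?_⟩
    have h1 : Sat M (Fml.all (Fml.rel (4 * k) [0] hl)) Fin.elim0 ↔ ∀ z, M.rel (4 * k) [z] := by
      simp only [Sat, List.map_cons, List.map_nil]
      exact Iff.rfl
    rw [h1]
    simp [r]
  have hid : @Measurable Rl Rl m MeasurableSpace.pi id :=
    @measurable_pi_lambda Rl ℕ (fun _ => Bool) m _ id (fun k => @measurable_to_bool Rl m _ (hb k))
  have := hid hD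
  exact this

end Pool.Agent.NI
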