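import Pool.Agent.NI.Law
import Pool.Agent.NI.Msr

/-!
# Sen: the class `KD D` is the class of models of a sentence

Let `Dfn n A` say that the relation `A M a` (`M : Str VT`, `a : Fin n → ℕ`) is defined by a formula. Closure
properties: negation, countable conjunctions and disjunctions (`∀ m, A m M a`), implication,
quantification over the universe (`∀ z, A M (Fin.snoc a z)`), propositions which do not depend on
`M, a` (true: `conj` of `eq`-formulas under a quantifier, e.g. `all (eq 0 0)`, weakening is not needed if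
constants are done for every `n`: `conj (fun _ => neg (all (neg ...)))`; simplest: for `n > 0` `eq i i`, in
general `Fml.all (Fml.eq (Fin.last n) (Fin.last n))` is always true), the relations
`M.rel k [a i]`, `M.rel k [a i, a j]` with the correct arity, equality. With these every clause of
`Laws x M`, where `x = x_M = fun k => decide (∀ z, M.rel (4 * k) [z])`, is defined by a sentence
(`∃!` is a combination; the clause `vis` says: for all `p`: all `z` are in the relation or no `z` is).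
Then `f` is the conjunction of the sentence of `exists_prop D` and of the clauses.
`Mod f = KD D`: if `M ∈ KD D`, `M = Std x _ _ _`, then `x_M = x` by `Std_rel0`, and `laws_iff`.
Conversely `x_M ∈ D`, so `IsSys x_M`, and `laws_iff`.
-/

namespace Pool.Agent.NI

/-- definable relations -/
def Sen_D (n : ℕ) (A : Str VT → (Fin n → ℕ) → Prop) : Prop :=
  ∃ f : Fml VT n, ∀ M a, Sat M f a ↔ A M a

theorem Sen_not {n : ℕ} {A : Str VT → (Fin n → ℕ) → Prop} (h : Sen_D n A) :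
    Sen_D n (fun M a => ¬ A M a) := by
  obtain ⟨f, hf⟩ := h
  exact ⟨Fml.neg f, fun M a => not_congr (hf M a)⟩

theorem Sen_cj {n : ℕ} {A : ℕ → Str VT → (Fin n → ℕ) → Prop} (h : ∀ m, Sen_D n (A m)) :
    Sen_D n (fun M a => ∀ m, A m M a) := by
  choose f hf using h
  exact ⟨Fml.conj f, fun M a => forall_congr' fun m => hf m M a⟩

theorem Sen_congr {n : ℕ} {A B : Str VT → (Fin n → ℕ) → Prop} (h : Sen_D n A)
    (hAB : ∀ M a, A M a ↔ B M a) : Sen_D n B := by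
  obtain ⟨f, hf⟩ := h
  exact ⟨f, fun M a => (hf M a).trans (hAB M a)⟩

theorem Sen_dj {n : ℕ} {A : ℕ → Str VT → (Fin n → ℕ) → Prop} (h : ∀ m, Sen_D n (A m)) :
    Sen_D n (fun M a => ∃ m, A m M a) :=
  Sen_congr (Sen_not (Sen_cj fun m => Sen_not (h m))) (fun M a => by push Not; rfl)

theorem Sen_const {n : ℕ} (p : Prop) : Sen_D n (fun _ _ => p) := by
  have h : Sen_D n (fun _ _ => True) :=
    ⟨Fml.all (Fml.eq (Fin.last n) (Fin.last n)), fun M a => by simp [Sat]⟩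
  by_cases hp : p
  · exact Sen_congr h (fun _ _ => by simp [hp])
  · exact Sen_congr (Sen_not h) (fun _ _ => by simp [hp])

theorem Sen_and {n : ℕ} {A B : Str VT → (Fin n → ℕ) → Prop} (h : Sen_D n A) (h' : Sen_D n B) :
    Sen_D n (fun M a => A M a ∧ B M a) := by
  refine Sen_congr (Sen_cj (A := fun m M a => if m = 0 then A M a else B M a) ?_) ?_
  · intro m
    by_cases hm : m = 0
    · simpa [hm] using h
    · simpa [hm] using h'
  · intro M a
    constructor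
    · intro h1
      exact ⟨by simpa using h1 0, by simpa using h1 1⟩
    · rintro ⟨h1, h2⟩ m
      by_cases hm : m = 0
      · simpa [hm] using h1
      · simpa [hm] using h2

theorem Sen_imp {n : ℕ} {A B : Str VT → (Fin n → ℕ) → Prop} (h : Sen_D n A) (h' : Sen_D n B) :
    Sen_D n (fun M a => A M a → B M a) :=
  Sen_congr (Sen_not (Sen_and h (Sen_not h'))) (fun M a => by tauto)

theorem Sen_iff {n : ℕ} {A B : Str VT → (Fin n → ℕ) → Prop} (h : Sen_D n A) (h' : Sen_D n B) :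
    Sen_D n (fun M a => (A M a ↔ B M a)) :=
  Sen_congr (Sen_and (Sen_imp h h') (Sen_imp h' h)) (fun M a => by tauto)

theorem Sen_fa {n : ℕ} {P : Str VT → (Fin n → ℕ) → ℕ → Prop}
    (h : Sen_D (n + 1) (fun M b => P M (fun i => b i.castSucc) (b (Fin.last n)))) :
    Sen_D n (fun M a => ∀ z, P M a z) := by
  obtain ⟨f, hf⟩ := h
  refine ⟨Fml.all f, fun M a => ?_⟩
  show (∀ z : ℕ, Sat M f (Fin.snoc a z)) ↔ _
  refine forall_congr' fun z => ?_
  rw [hf]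
  simp only [Fin.snoc_castSucc, Fin.snoc_last]

theorem Sen_ex {n : ℕ} {P : Str VT → (Fin n → ℕ) → ℕ → Prop}
    (h : Sen_D (n + 1) (fun M b => P M (fun i => b i.castSucc) (b (Fin.last n)))) :
    Sen_D n (fun M a => ∃ z, P M a z) :=
  Sen_congr (Sen_not (Sen_fa (P := fun M a z => ¬ P M a z) (Sen_not h)))
    (fun M a => by push Not; rfl)

theorem Sen_eq {n : ℕ} (i j : Fin n) : Sen_D n (fun _ a => a i = a j) :=
  ⟨Fml.eq i j, fun _ _ => Iff.rfl⟩

theorem Sen_r1 {n : ℕ} {k : ℕ} (h : VT k = 1) (i : Fin n) : Sen_D n (fun M a => M.rel k [a i]) :=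
  ⟨Fml.rel k [i] h.symm, fun _ _ => Iff.rfl⟩

theorem Sen_r2 {n : ℕ} {k : ℕ} (h : VT k = 2) (i j : Fin n) :
    Sen_D n (fun M a => M.rel k [a i, a j]) :=
  ⟨Fml.rel k [i, j] h.symm, fun _ _ => Iff.rfl⟩

theorem Sen_v0 (p : ℕ) : VT (4 * p) = 1 := if_pos (by omega)
theorem Sen_v1 (p : ℕ) : VT (4 * p + 1) = 1 := if_pos (by omega)
theorem Sen_v2 (p : ℕ) : VT (4 * p + 2) = 2 := if_neg (by omega)
theorem Sen_v3 (p : ℕ) : VT (4 * p + 3) = 2 := if_neg (by omega)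

open Classical in
/-- the real of the structure -/
noncomputable def Sen_x (M : Str VT) : Rl := fun k => decide (∀ z, M.rel (4 * k) [z])

theorem Sen_x_iff (M : Str VT) (k : ℕ) : Sen_x M k = true ↔ ∀ z, M.rel (4 * k) [z] := by
  classical
  simp [Sen_x]

theorem Sen_laws : Sen_D 0 (fun M _ => Laws (Sen_x M) M) := by
  have c1 : Sen_D 0 (fun M _ => ∀ p z, (M.rel (4 * p) [z] ↔ ∀ z', M.rel (4 * p) [z'])) :=
    Sen_cj fun p => Sen_fa (Sen_iff (Sen_r1 (Sen_v0 p) _) (Sen_fa (Sen_r1 (Sen_v0 p) _)))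
  have c2 : Sen_D 0 (fun M _ => ∀ z, ∃ m, M.rel (4 * m + 1) [z] ∧
      ∀ m', M.rel (4 * m' + 1) [z] → m' = m) :=
    Sen_fa (Sen_dj fun m => Sen_and (Sen_r1 (Sen_v1 m) _)
      (Sen_cj fun m' => Sen_imp (Sen_r1 (Sen_v1 m') _) (Sen_const _)))
  have c3 : Sen_D 0 (fun M _ => ∀ m, ∃ z, M.rel (4 * m + 1) [z]) :=
    Sen_cj fun m => Sen_ex (Sen_r1 (Sen_v1 m) _)
  have c4 : Sen_D 0 (fun M _ => ∀ p z, ∃ z', M.rel (4 * p + 2) [z, z'] ∧
      ∀ y, M.rel (4 * p + 2) [z, y] → y = z') :=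
    Sen_cj fun p => Sen_fa (Sen_ex (Sen_and (Sen_r2 (Sen_v2 p) _ _)
      (Sen_fa (Sen_imp (Sen_r2 (Sen_v2 p) _ _) (Sen_eq _ _)))))
  have c5 : Sen_D 0 (fun M _ => ∀ p z z' m, M.rel (4 * p + 2) [z, z'] → M.rel (4 * m + 1) [z] →
      M.rel (4 * flp p m + 1) [z']) :=
    Sen_cj fun p => Sen_fa (Sen_fa (Sen_cj fun m => Sen_imp (Sen_r2 (Sen_v2 p) _ _)
      (Sen_imp (Sen_r1 (Sen_v1 m) _) (Sen_r1 (Sen_v1 (flp p m)) _))))
  have c6 : Sen_D 0 (fun M _ => ∀ p q r z z' z'', dec r = dec p + dec q →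
      M.rel (4 * p + 2) [z, z'] → M.rel (4 * q + 2) [z', z''] → M.rel (4 * r + 2) [z, z'']) :=
    Sen_cj fun p => Sen_cj fun q => Sen_cj fun r => Sen_fa (Sen_fa (Sen_fa
      (Sen_imp (Sen_const _) (Sen_imp (Sen_r2 (Sen_v2 p) _ _) (Sen_imp (Sen_r2 (Sen_v2 q) _ _)
        (Sen_r2 (Sen_v2 r) _ _))))))
  have c7 : Sen_D 0 (fun M _ => ∀ m m' z z', m / 2 = m' / 2 → M.rel (4 * m + 1) [z] →
      M.rel (4 * m' + 1) [z'] → ∃ p, M.rel (4 * p + 2) [z, z']) :=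
    Sen_cj fun m => Sen_cj fun m' => Sen_fa (Sen_fa (Sen_imp (Sen_const _)
      (Sen_imp (Sen_r1 (Sen_v1 m) _) (Sen_imp (Sen_r1 (Sen_v1 m') _)
        (Sen_dj fun p => Sen_r2 (Sen_v2 p) _ _)))))
  have c8 : Sen_D 0 (fun M _ => ∀ p z, M.rel (4 * p + 2) [z, z] → dec p = 0) :=
    Sen_cj fun p => Sen_fa (Sen_imp (Sen_r2 (Sen_v2 p) _ _) (Sen_const _))
  have c9 : Sen_D 0 (fun M _ => ∀ n m z, m / 2 = n + 1 → M.rel (4 * m + 1) [z] →
      ∃ z', M.rel (4 * n + 3) [z, z'] ∧ ∀ y, M.rel (4 * n + 3) [z, y] → y = z') :=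
    Sen_cj fun n => Sen_cj fun m => Sen_fa (Sen_imp (Sen_const _) (Sen_imp (Sen_r1 (Sen_v1 m) _)
      (Sen_ex (Sen_and (Sen_r2 (Sen_v3 n) _ _)
        (Sen_fa (Sen_imp (Sen_r2 (Sen_v3 n) _ _) (Sen_eq _ _)))))))
  have c10 : Sen_D 0 (fun M _ => ∀ n z z', M.rel (4 * n + 3) [z, z'] → ∃ q, q < 2 ∧
      M.rel (4 * (2 * (n + 1) + q) + 1) [z] ∧ M.rel (4 * (2 * n + q) + 1) [z']) :=
    Sen_cj fun n => Sen_fa (Sen_fa (Sen_imp (Sen_r2 (Sen_v3 n) _ _)
      (Sen_dj fun q => Sen_and (Sen_const _) (Sen_and (Sen_r1 (Sen_v1 _) _)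
        (Sen_r1 (Sen_v1 _) _)))))
  have c11 : Sen_D 0 (fun M _ => ∀ n i j z z' w w' p p', (∀ y, M.rel (4 * cF n i j) [y]) →
      dec p = Finsupp.single i 1 → dec p' = Finsupp.single j 1 → M.rel (4 * n + 3) [z, z'] →
      M.rel (4 * p + 2) [z, w] → M.rel (4 * n + 3) [w, w'] → M.rel (4 * p' + 2) [z', w']) :=
    Sen_cj fun n => Sen_cj fun i => Sen_cj fun j => Sen_fa (Sen_fa (Sen_fa (Sen_fa
      (Sen_cj fun p => Sen_cj fun p' => Sen_imp (Sen_fa (Sen_r1 (Sen_v0 _) _))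
        (Sen_imp (Sen_const _) (Sen_imp (Sen_const _) (Sen_imp (Sen_r2 (Sen_v3 n) _ _)
          (Sen_imp (Sen_r2 (Sen_v2 p) _ _) (Sen_imp (Sen_r2 (Sen_v3 n) _ _)
            (Sen_r2 (Sen_v2 p') _ _))))))))))
  refine Sen_congr (Sen_and c1 (Sen_and c2 (Sen_and c3 (Sen_and c4 (Sen_and c5 (Sen_and c6
    (Sen_and c7 (Sen_and c8 (Sen_and c9 (Sen_and c10 c11)))))))))) ?_
  intro M _
  constructor
  · rintro ⟨h1, h2, h3, h4, h5, h6, h7, h8, h9, h10, h11⟩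
    refine ⟨fun p z => (h1 p z).trans (Sen_x_iff M p).symm, h2, h3, h4, h5, h6, h7, h8, h9, h10, ?_⟩
    intro n i j z z' w w' p p' hx
    exact h11 n i j z z' w w' p p' ((Sen_x_iff M _).1 hx)
  · rintro ⟨h1, h2, h3, h4, h5, h6, h7, h8, h9, h10, h11⟩
    refine ⟨fun p z => (h1 p z).trans (Sen_x_iff M p), h2, h3, h4, h5, h6, h7, h8, h9, h10, ?_⟩
    intro n i j z z' w w' p p' hx
    exact h11 n i j z z' w w' p p' ((Sen_x_iff M _).2 hx)

theorem Sen_xStd (x : Rl) (F : ℕ → ℕ → ℕ) (κ : ℕ → V) (θ : ℕ ≃ ℕ × V) :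
    Sen_x (Std x F κ θ) = x := by
  funext k
  have h1 := Sen_x_iff (Std x F κ θ) k
  simp only [Std_rel0] at h1
  cases h2 : x k
  · cases h3 : Sen_x (Std x F κ θ) k
    · rfl
    · have := (h1.1 h3) 0
      rw [h2] at this
      exact absurd this (by decide)
  · exact h1.2 (fun _ => h2)

theorem exists_sentence (D : Set Rl) (hD : MeasurableSet D) (hs : ∀ x ∈ D, IsSys x) :
    ∃ f : Fml VT 0, Mod f = KD D := by
  obtain ⟨f₁, hf₁⟩ := exists_prop D hD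
  have h1 : Sen_D 0 (fun M _ => Sen_x M ∈ D) := by
    refine ⟨f₁, fun M a => ?_⟩
    have ha : a = Fin.elim0 := Subsingleton.elim _ _
    rw [ha]
    exact hf₁ M
  obtain ⟨f, hf⟩ := Sen_and h1 Sen_laws
  refine ⟨f, ?_⟩
  ext M
  show Sat M f Fin.elim0 ↔ _
  rw [hf]
  constructor
  · rintro ⟨h2, h3⟩
    obtain ⟨κ, θ, h4, h5⟩ := (laws_iff _ (hs _ h2) M).1 h3
    exact ⟨_, h2, κ, θ, h4, h5⟩
  · rintro ⟨x, hx, κ, θ, h4, rfl⟩
    rw [Sen_xStd]
    exact ⟨hx, (laws_iff x (hs x hx) _).2 ⟨κ, θ, h4, rfl⟩⟩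

end Pool.Agent.NI
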