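import Pool.Agent.NI.GrR

/-!
# SRl: lower bound for the Scott rank
-/

namespace Pool.Agent.NI

/-- The translation by the sequence `h`. -/
noncomputable def SRl_sh (θ : ℕ ≃ ℕ × V) (h : ℕ → V) (z : ℕ) : ℕ := θ.symm ((θ z).1, (θ z).2 + h (θ z).1)

theorem SRl_sh1 (θ : ℕ ≃ ℕ × V) (h : ℕ → V) (z : ℕ) : (θ (SRl_sh θ h z)).1 = (θ z).1 := by
  unfold SRl_sh
  rw [Equiv.apply_symm_apply]

theorem SRl_sh2 (θ : ℕ ≃ ℕ × V) (h : ℕ → V) (z : ℕ) : (θ (SRl_sh θ h z)).2 = (θ z).2 + h (θ z).1 := by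
  unfold SRl_sh
  rw [Equiv.apply_symm_apply]

theorem SRl_sh_sh (θ : ℕ ≃ ℕ × V) (h : ℕ → V) (z : ℕ) : SRl_sh θ h (SRl_sh θ h z) = z := by
  apply θ.injective
  apply Prod.ext
  · rw [SRl_sh1, SRl_sh1]
  · rw [SRl_sh2, SRl_sh1, SRl_sh2, add_assoc, V_add_self, add_zero]

theorem SRl_sh_inj (θ : ℕ ≃ ℕ × V) (h : ℕ → V) : Function.Injective (SRl_sh θ h) := fun z z' hz => by
  rw [← SRl_sh_sh θ h z, hz, SRl_sh_sh]

theorem SRl_rel (x : Rl) (F : ℕ → ℕ → ℕ) (θ : ℕ ≃ ℕ × V) (m : ℕ) (h : ℕ → V)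
    (h1 : ∀ i < m, h i = push F i (h (i + 1))) (h2 : ∀ i ≤ m, ep (h i) = 0) (k : ℕ) (l : List ℕ)
    (hl : ∀ z ∈ l, (θ z).1 ≤ m) :
    (Std x F 0 θ).rel k l ↔ (Std x F 0 θ).rel k (l.map (SRl_sh θ h)) := by
  by_cases hlen : l.length = VT k
  swap
  · constructor
    · intro h3
      exact absurd ((Std x F 0 θ).len _ _ h3) hlen
    · intro h3
      have := (Std x F 0 θ).len _ _ h3
      rw [List.length_map] at this
      exact absurd this hlen
  have hk : k = 4 * (k / 4) + k % 4 := by omega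
  have hk4 : k % 4 < 4 := Nat.mod_lt _ (by norm_num)
  set p := k / 4 with hp
  rcases (by omega : k % 4 = 0 ∨ k % 4 = 1 ∨ k % 4 = 2 ∨ k % 4 = 3) with h3 | h3 | h3 | h3
  · unfold VT at hlen
    rw [if_pos (by omega), List.length_eq_one_iff] at hlen
    obtain ⟨z, rfl⟩ := hlen
    rw [h3, add_zero] at hk
    rw [hk, List.map_cons, List.map_nil, Std_rel0, Std_rel0]
  · unfold VT at hlen
    rw [if_pos (by omega), List.length_eq_one_iff] at hlen
    obtain ⟨z, rfl⟩ := hlen
    rw [h3] at hk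
    rw [hk, List.map_cons, List.map_nil, Std_rel1, Std_rel1, SRl_sh1, SRl_sh2, ep_add,
      h2 _ (hl z (by simp)), add_zero]
  · unfold VT at hlen
    rw [if_neg (by omega), List.length_eq_two] at hlen
    obtain ⟨z, z', rfl⟩ := hlen
    rw [h3] at hk
    rw [hk, List.map_cons, List.map_cons, List.map_nil, Std_rel2, Std_rel2, SRl_sh1, SRl_sh1, SRl_sh2, SRl_sh2]
    constructor
    · rintro ⟨h4, h5⟩
      refine ⟨h4, ?_⟩
      rw [h5, h4]
      abel
    · rintro ⟨h4, h5⟩
      refine ⟨h4, ?_⟩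
      rw [h4] at h5
      have h6 : (θ z').2 + h (θ z).1 = ((θ z).2 + dec p) + h (θ z).1 := by
        rw [h5]
        abel
      exact add_right_cancel h6
  · unfold VT at hlen
    rw [if_neg (by omega), List.length_eq_two] at hlen
    obtain ⟨z, z', rfl⟩ := hlen
    rw [h3] at hk
    rw [hk, List.map_cons, List.map_cons, List.map_nil, Std_rel3, Std_rel3, SRl_sh1, SRl_sh1, SRl_sh2, SRl_sh2]
    have hz := hl z (by simp)
    simp only [Pi.zero_apply, add_zero]
    constructor
    · rintro ⟨h4, h5, h6⟩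
      refine ⟨h4, h5, ?_⟩
      rw [h4, h5, push_add, ← h1 p (by omega), h6]
    · rintro ⟨h4, h5, h6⟩
      refine ⟨h4, h5, ?_⟩
      rw [h4, h5, push_add, ← h1 p (by omega)] at h6
      exact add_right_cancel h6

theorem SRl_AtEq (x : Rl) (F : ℕ → ℕ → ℕ) (θ : ℕ ≃ ℕ × V) (m : ℕ) (h : ℕ → V)
    (h1 : ∀ i < m, h i = push F i (h (i + 1))) (h2 : ∀ i ≤ m, ep (h i) = 0) (a : List ℕ)
    (ha : ∀ z ∈ a, (θ z).1 ≤ m) : AtEq (Std x F 0 θ) a (a.map (SRl_sh θ h)) := by
  have hget : ∀ i, i < a.length → (a.map (SRl_sh θ h)).getD i 0 = SRl_sh θ h (a.getD i 0) := by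
    intro i hi
    rw [List.getD_eq_getElem _ _ (by rwa [List.length_map]), List.getElem_map, List.getD_eq_getElem _ _ hi]
  refine ⟨by rw [List.length_map], ?_, ?_⟩
  · intro i j hi hj
    rw [hget i hi, hget j hj]
    exact (SRl_sh_inj θ h).eq_iff.symm
  · intro k v hv
    have e : (v.map fun i => (a.map (SRl_sh θ h)).getD i 0) = (v.map fun i => a.getD i 0).map (SRl_sh θ h) := by
      rw [List.map_map]
      apply List.map_congr_left
      intro i hi
      exact hget i (hv i hi)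
    rw [e]
    apply SRl_rel x F θ m h h1 h2
    intro z hz
    rw [List.mem_map] at hz
    obtain ⟨i, hi, rfl⟩ := hz
    apply ha
    rw [List.getD_eq_getElem _ _ (hv i hi)]
    exact List.getElem_mem _

open Ordinal in
theorem SRl_ext (F : ℕ → ℕ → ℕ) (β : Ordinal.{0}) (j : ℕ) : ∀ (m : ℕ) (h : ℕ → V),
    (∀ i < m, h i = push F i (h (i + 1))) → (∀ i ≤ m, ep (h i) = 0) →
    Rk (ChG F) (ω * β + j) (m, h m) →
    ∃ h' : ℕ → V, (∀ i ≤ m, h' i = h i) ∧ (∀ i < m + j, h' i = push F i (h' (i + 1))) ∧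
      (∀ i ≤ m + j, ep (h' i) = 0) ∧ Rk (ChG F) (ω * β) (m + j, h' (m + j)) := by
  induction j with
  | zero =>
    intro m h h1 h2 h3
    refine ⟨h, fun _ _ => rfl, h1, h2, ?_⟩
    simpa using h3
  | succ j ih =>
    intro m h h1 h2 h3
    have e : ω * β + ((j + 1 : ℕ) : Ordinal.{0}) = ω * β + j + 1 := by
      push_cast
      rw [add_assoc]
    rw [e, Rk_succ] at h3
    obtain ⟨⟨q1, w⟩, ⟨hq1, hq2, hq3⟩, hq4⟩ := h3
    dsimp only at hq1 hq2 hq3
    subst hq1
    set h' := Function.update h (m + 1) w with hh'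
    have e1 : h' (m + 1) = w := Function.update_self _ _ _
    have e2 : ∀ i, i ≤ m → h' i = h i := fun i hi => Function.update_of_ne (by omega) _ _
    obtain ⟨h'', g1, g2, g3, g4⟩ := ih (m + 1) h' (by
      intro i hi
      rcases Nat.lt_or_ge i m with h4 | h4
      · rw [e2 i h4.le, e2 (i + 1) h4]
        exact h1 i h4
      · have : i = m := by omega
        subst this
        rw [e1, e2 i le_rfl]
        exact hq3) (by
      intro i hi
      rcases Nat.lt_or_ge m i with h4 | h4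
      · have : i = m + 1 := by omega
        subst this
        rw [e1]
        exact hq2
      · rw [e2 i h4]
        exact h2 i h4) (by
      rw [e1]
      exact hq4)
    refine ⟨h'', fun i hi => ?_, ?_, ?_, ?_⟩
    · rw [g1 i (by omega), e2 i hi]
    · intro i hi
      exact g2 i (by omega)
    · intro i hi
      exact g3 i (by omega)
    · have e3 : m + (j + 1) = m + 1 + j := by omega
      rw [e3]
      exact g4

open Ordinal in
theorem SRl_BF (x : Rl) (F : ℕ → ℕ → ℕ) (θ : ℕ ≃ ℕ × V) (b : Ordinal.{0}) : ∀ (m : ℕ) (h : ℕ → V),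
    (∀ i < m, h i = push F i (h (i + 1))) → (∀ i ≤ m, ep (h i) = 0) →
    Rk (ChG F) (ω * b) (m, h m) → ∀ a : List ℕ, (∀ z ∈ a, (θ z).1 ≤ m) →
    BF (Std x F 0 θ) b a (a.map (SRl_sh θ h)) := by
  induction b using WellFoundedLT.induction with
  | _ b ih =>
    intro m h h1 h2 h3 a ha
    have key : ∀ β < b, ∀ c : ℕ, ∃ h' : ℕ → V, ∃ m', m ≤ m' ∧ (θ c).1 ≤ m' ∧ (∀ i ≤ m, h' i = h i) ∧
        (∀ i < m', h' i = push F i (h' (i + 1))) ∧ (∀ i ≤ m', ep (h' i) = 0) ∧
        Rk (ChG F) (ω * β) (m', h' m') := by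
      intro β hβ c
      have h4 : ω * β + ((θ c).1 : Ordinal.{0}) ≤ ω * b := by
        calc ω * β + ((θ c).1 : Ordinal.{0}) ≤ ω * β + ω := by
              exact add_le_add_right (Ordinal.natCast_lt_omega0 _).le _
          _ = ω * (β + 1) := by rw [mul_add, mul_one]
          _ ≤ ω * b := by
              apply mul_le_mul_right
              exact Order.add_one_le_of_lt hβ
      obtain ⟨h', g1, g2, g3, g4⟩ := SRl_ext F β (θ c).1 m h h1 h2 (Rk_mono _ h4 h3)
      exact ⟨h', m + (θ c).1, by omega, by omega, g1, g2, g3, g4⟩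
    rw [BF]
    refine ⟨SRl_AtEq x F θ m h h1 h2 a ha, ?_⟩
    intro β hβ
    have hmap : ∀ h' : ℕ → V, (∀ i ≤ m, h' i = h i) → a.map (SRl_sh θ h') = a.map (SRl_sh θ h) := by
      intro h' hh'
      apply List.map_congr_left
      intro z hz
      unfold SRl_sh
      rw [hh' _ (ha z hz)]
    constructor
    · intro c
      obtain ⟨h', m', hm, hc, g1, g2, g3, g4⟩ := key β hβ c
      refine ⟨SRl_sh θ h' c, ?_⟩
      have h5 := ih β hβ m' h' g2 g3 g4 (a ++ [c]) (by
        intro z hz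
        rw [List.mem_append, List.mem_singleton] at hz
        rcases hz with hz | rfl
        · exact (ha z hz).trans hm
        · exact hc)
      rw [List.map_append, hmap h' g1] at h5
      exact h5
    · intro d
      obtain ⟨h', m', hm, hc, g1, g2, g3, g4⟩ := key β hβ d
      refine ⟨SRl_sh θ h' d, ?_⟩
      have h5 := ih β hβ m' h' g2 g3 g4 (a ++ [SRl_sh θ h' d]) (by
        intro z hz
        rw [List.mem_append, List.mem_singleton] at hz
        rcases hz with hz | rfl
        · exact (ha z hz).trans hm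
        · rw [SRl_sh1]
          exact hc)
      rw [List.map_append, hmap h' g1, List.map_cons, List.map_nil, SRl_sh_sh] at h5
      exact h5

theorem SRl_proj (F : ℕ → ℕ → ℕ) (n : ℕ) : ∀ g : V, ep g = 0 → ∃ h : ℕ → V, h n = g ∧
    (∀ i < n, h i = push F i (h (i + 1))) ∧ ∀ i ≤ n, ep (h i) = 0 := by
  induction n with
  | zero =>
    intro g hg
    exact ⟨fun _ => g, rfl, fun i hi => absurd hi (Nat.not_lt_zero i), fun _ _ => hg⟩
  | succ n ih =>
    intro g hg
    obtain ⟨h, h1, h2, h3⟩ := ih (push F n g) (by rw [ep_push, hg])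
    set h' := Function.update h (n + 1) g with hh'
    have e1 : h' (n + 1) = g := Function.update_self _ _ _
    have e2 : ∀ i, i ≤ n → h' i = h i := fun i hi => Function.update_of_ne (by omega) _ _
    refine ⟨h', e1, ?_, ?_⟩
    · intro i hi
      rcases Nat.lt_or_ge i n with h4 | h4
      · rw [e2 i h4.le, e2 (i + 1) h4]
        exact h2 i h4
      · have : i = n := by omega
        subst this
        rw [e1, e2 i le_rfl, h1]
    · intro i hi
      rcases Nat.lt_or_ge n i with h4 | h4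
      · have : i = n + 1 := by omega
        subst this
        rw [e1]
        exact hg
      · rw [e2 i h4]
        exact h3 i h4

theorem SRl_thread (F : ℕ → ℕ → ℕ) (n : ℕ) : ∀ u : ℕ → ℕ, (∀ m, n ≤ m → F m (u (m + 1)) = u m) →
    Thread F := by
  induction n with
  | zero => exact fun u hu => ⟨u, fun m => hu m (Nat.zero_le m)⟩
  | succ n ih =>
    intro u hu
    apply ih (Function.update u n (F n (u (n + 1))))
    intro m hm
    rcases Nat.lt_or_ge n m with h | h
    · rw [Function.update_of_ne (by omega), Function.update_of_ne (by omega)]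
      exact hu m h
    · have : m = n := by omega
      subst this
      rw [Function.update_of_ne (by omega), Function.update_self]

theorem SRl_build (F : ℕ → ℕ → ℕ) (k : ℕ → V) (n : ℕ) (hk : ∀ i, k i = push F i (k (i + 1)))
    (hn : k n ≠ 0) : Thread F := by
  classical
  have hstep : ∀ (i j : ℕ), j ∈ (k i).support → ∃ j' ∈ (k (i + 1)).support, F i j' = j := by
    intro i j hj
    rw [hk i] at hj
    have h1 := Finsupp.mapDomain_support hj
    rw [Finset.mem_image] at h1
    exact h1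
  choose! nx hnx1 hnx2 using hstep
  obtain ⟨j₀, hj₀⟩ := Finsupp.support_nonempty_iff.mpr hn
  let u : ℕ → ℕ := fun i => Nat.rec j₀ (fun i r => nx (n + i) r) i
  have hu1 : ∀ i, u (i + 1) = nx (n + i) (u i) := fun _ => rfl
  have hu : ∀ i, u i ∈ (k (n + i)).support := by
    intro i
    induction i with
    | zero => exact hj₀
    | succ i ih =>
      rw [hu1]
      exact hnx1 (n + i) (u i) ih
  apply SRl_thread F n (fun m => u (m - n))
  intro m hm
  obtain ⟨i, rfl⟩ := Nat.exists_eq_add_of_le hm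
  have e1 : n + i + 1 - n = i + 1 := by omega
  have e2 : n + i - n = i := by omega
  rw [e1, e2, hu1]
  exact hnx2 (n + i) (u i) (hu i)

open Ordinal in
theorem not_SRle (x : Rl) (F : ℕ → ℕ → ℕ) (θ : ℕ ≃ ℕ × V) (hF : ¬ Thread F) (α : Ordinal.{0})
    (n : ℕ) (g : V) (hg : g ≠ 0) (he : ep g = 0) (hr : Rk (ChG F) (ω * α) (n, g)) :
    ¬ SRle (Std x F 0 θ) α := by
  intro hS
  obtain ⟨h, h1, h2, h3⟩ := SRl_proj F n g he
  have h4 := SRl_BF x F θ α n h h2 h3 (by rw [h1]; exact hr) [θ.symm (n, 0)] (by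
    intro z hz
    rw [List.mem_singleton] at hz
    rw [hz, Equiv.apply_symm_apply])
  obtain ⟨s, hs1, hs2⟩ := hS _ _ h4
  rw [List.map_cons, List.map_nil, List.map_cons, List.map_nil] at hs2
  have hs3 : s (θ.symm (n, 0)) = θ.symm (n, g) := by
    have := (List.cons.inj hs2).1
    rw [this]
    unfold SRl_sh
    rw [Equiv.apply_symm_apply]
    dsimp only
    rw [zero_add, h1]
  apply hF
  have hlev : ∀ i, (θ (s (θ.symm (i, 0)))).1 = i := by
    intro i
    have h5 := (hs1 (4 * (2 * i) + 1) [θ.symm (i, 0)]).mp (by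
      rw [Std_rel1, Equiv.apply_symm_apply]
      refine ⟨by dsimp only; omega, ?_⟩
      rw [Nat.mul_mod_right]
      exact ep_zero)
    rw [List.map_cons, List.map_nil, Std_rel1] at h5
    rw [h5.1]
    omega
  apply SRl_build F (fun i => (θ (s (θ.symm (i, 0)))).2) n
  · intro i
    have h5 := (hs1 (4 * i + 3) [θ.symm (i + 1, 0), θ.symm (i, 0)]).mp (by
      rw [Std_rel3, Equiv.apply_symm_apply, Equiv.apply_symm_apply]
      refine ⟨rfl, rfl, ?_⟩
      rw [push_zero]
      rfl)
    rw [List.map_cons, List.map_cons, List.map_nil, Std_rel3] at h5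
    have := h5.2.2
    simp only [Pi.zero_apply, add_zero] at this
    exact this
  · rw [hs3, Equiv.apply_symm_apply]
    exact hg

end Pool.Agent.NI
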