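import Pool.Agent.NI.ExD
import Pool.Agent.NI.FVl
import Pool.Agent.NI.SRl

/-!
# UnB: the class of models has unbounded Scott rank

* `exists_rel`: let `δ` be a countable infinite ordinal, `δ > γ + 1`; a bijection of `ℕ` with `δ` (with
  `Set.Iio δ` or `δ.ToType`) gives a well-founded relation `L` on `ℕ`, and the element `l` with ordinal
  `e l ≥ b` satisfies `Rk L b l` (induction on `b`). Take the elements with ordinals `γ`, `γ + 1`.
* `unbounded`: let `α < ω₁`. Then `ω * α < ω₁` (`Ordinal.omega 1` is additively and multiplicatively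
  principal; or: `ω * α` is countable, `Ordinal.card_mul`). Take `L, l, l'` for `γ = ω * α` and
  `x ∈ DB B` with `Lr x = L` (`exists_DB`). `F = sysF x = FV (Desc L)` has no thread (`FV_thread`: an infinite
  `L`-descending sequence). Let `g = single (encode [l]) 1 + single (encode [l']) 1`, `n = 1`: `ep g = 0`,
  `g ≠ 0`, and by `grp_rank`, `FV_rank_ge` (with `s = []`) `Rk (ChG F) (ω * α) (1, g)`. So
  `M = Std x F 0 thz ∈ KD (DB B)` has not `SRle M α` (`not_SRle`).
-/

namespace Pool.Agent.NI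

open Ordinal Cardinal in
theorem UnB_lt {o : Ordinal.{0}} : o < Ordinal.omega 1 ↔ o.card ≤ ℵ₀ := by
  rw [lt_omega_iff_card_lt, lt_aleph_one_iff]

theorem exists_rel (γ : Ordinal.{0}) (h : γ < Ordinal.omega 1) :
    ∃ L : ℕ → ℕ → Prop, WellFounded L ∧ ∃ l l', l ≠ l' ∧ Rk L γ l ∧ Rk L γ l' := by
  set δ : Ordinal.{0} := γ + 2 with hδ
  have hc : δ.card ≤ Cardinal.aleph0 := by
    rw [hδ, Ordinal.card_add]
    refine Cardinal.add_le_aleph0.2 ⟨UnB_lt.1 h, ?_⟩
    have : (2 : Ordinal.{0}).card = 2 := by simp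
    rw [this]
    exact_mod_cast (Cardinal.natCast_lt_aleph0 (n := 2)).le
  have hcount : Countable δ.ToType := by
    rw [← Cardinal.mk_le_aleph0_iff, Cardinal.mk_toType]
    exact hc
  obtain ⟨e₀, he₀⟩ := exists_injective_nat δ.ToType
  set e : Set.Iio δ → ℕ := fun a => e₀ (Ordinal.ToType.mk a) with he
  have heinj : Function.Injective e := he₀.comp Ordinal.ToType.mk.injective
  set L : ℕ → ℕ → Prop := fun a b => ∃ α β : Set.Iio δ, α < β ∧ e α = a ∧ e β = b with hL
  set f : ℕ → Ordinal.{0} := Function.extend e (fun α => α.1) (fun _ => 0) with hf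
  have hfe : ∀ α, f (e α) = α.1 := fun α => heinj.extend_apply _ _ α
  have hrk : ∀ b : Ordinal.{0}, ∀ α : Set.Iio δ, b ≤ α.1 → Rk L b (e α) := by
    intro b
    induction b using WellFoundedLT.induction with
    | ind b ih =>
      intro α hb
      rw [Rk]
      intro c hc
      have hcα : c < α.1 := lt_of_lt_of_le hc hb
      have hcδ : c < δ := hcα.trans α.2
      exact ⟨e ⟨c, hcδ⟩, ⟨⟨c, hcδ⟩, α, hcα, rfl, rfl⟩, ih c hc ⟨c, hcδ⟩ le_rfl⟩
  have h2 : γ + 1 < δ := by
    rw [hδ]
    exact (add_lt_add_iff_left γ).2 (by exact_mod_cast Nat.lt_succ_self 1)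
  have h1 : γ < δ := lt_of_le_of_lt (le_add_of_nonneg_right zero_le) h2
  refine ⟨L, ?_, e ⟨γ, h1⟩, e ⟨γ + 1, h2⟩, ?_, ?_, ?_⟩
  · have hwf : WellFounded (InvImage (· < · : Ordinal.{0} → Ordinal.{0} → Prop) f) :=
      InvImage.wf f wellFounded_lt
    refine Subrelation.wf ?_ hwf
    rintro a b ⟨α, β, hαβ, rfl, rfl⟩
    show f (e α) < f (e β)
    rw [hfe, hfe]
    exact hαβ
  · intro heq
    have h3 := heinj heq
    have h4 : γ = γ + 1 := congrArg Subtype.val h3
    exact absurd h4 (ne_of_lt (Order.lt_add_one_iff.2 le_rfl))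
  · exact hrk γ ⟨γ, h1⟩ le_rfl
  · exact hrk γ ⟨γ + 1, h2⟩ (le_of_lt (Order.lt_add_one_iff.2 le_rfl))

theorem UnB_pre {α : Type} (G : ℕ → α) (n : ℕ) : pre G (n + 1) = pre G n ++ [G n] := by
  unfold pre
  rw [List.range_succ, List.map_append]
  rfl

theorem UnB_no_thread (L : ℕ → ℕ → Prop) (hL : WellFounded L) : ¬ Thread (FV (Desc L)) := by
  rw [FV_thread]
  · rintro ⟨G, hG⟩
    have h1 : ∀ n, L (G (n + 1)) (G n) := by
      intro n
      have h2 := hG (n + 1 + 1)
      rw [UnB_pre, UnB_pre] at h2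
      exact ((Desc_append L (pre G n) (G n) (G (n + 1))).1 h2).2
    exact (wellFounded_iff_isEmpty_descending_chain.1 hL).false ⟨G, h1⟩
  · intro s a h
    unfold Desc at h ⊢
    exact h.left_of_append

theorem UnB_ep_single (i : ℕ) : ep (Finsupp.single i (1 : ZMod 2)) = 1 := by
  unfold ep
  rw [Finsupp.sum_single_index rfl]

theorem UnB_ep_add (v w : V) : ep (v + w) = ep v + ep w := by
  unfold ep
  exact Finsupp.sum_add_index' (fun _ => rfl) (fun _ _ _ => rfl)

theorem unbounded (B : List ℕ → List Bool → Prop)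
    (hthin : ¬ ∃ f : Rl → Rl, Continuous f ∧ Function.Injective f ∧ ∀ z, f z ∈ PB B)
    (f : Fml VT 0) (hf : Mod f = KD (DB B)) : ¬ BoundedSR f := by
  rintro ⟨α, hα, hall⟩
  have hγ : Ordinal.omega0 * α < Ordinal.omega 1 := by
    rw [UnB_lt, Ordinal.card_mul, Ordinal.card_omega0]
    exact Cardinal.mul_le_of_le le_rfl le_rfl (UnB_lt.1 hα)
  obtain ⟨L, hL, l, l', hne, hl, hl'⟩ := exists_rel _ hγ
  obtain ⟨x, hx, hxL⟩ := exists_DB B hthin L hL
  have hLr : Lr x = L := by
    funext a b
    exact propext (hxL a b)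
  have hF : sysF x = FV (Desc L) := by
    rw [hx.2.1, hLr]
  set g : V := Finsupp.single (Encodable.encode [l]) 1 + Finsupp.single (Encodable.encode [l']) 1 with hg
  have hep : ep g = 0 := by
    rw [hg, UnB_ep_add, UnB_ep_single, UnB_ep_single]
    decide
  have hnee : Encodable.encode [l'] ≠ Encodable.encode [l] := by
    intro h
    have := Encodable.encode_injective h
    exact hne (by simpa using this.symm)
  have hg0 : g ≠ 0 := by
    intro h0
    have h1 : g (Encodable.encode [l]) = 0 := by rw [h0]; rfl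
    rw [hg, Finsupp.add_apply, Finsupp.single_eq_same, Finsupp.single_apply, if_neg hnee] at h1
    exact absurd h1 (by decide)
  have hr : Rk (ChG (sysF x)) (Ordinal.omega0 * α) (1, g) := by
    rw [grp_rank _ _ _ _ hep]
    intro i hi
    have h2 : i = Encodable.encode [l] ∨ i = Encodable.encode [l'] := by
      by_contra hcon
      push Not at hcon
      rw [Finsupp.mem_support_iff, hg, Finsupp.add_apply, Finsupp.single_apply, Finsupp.single_apply,
        if_neg (Ne.symm hcon.1), if_neg (Ne.symm hcon.2)] at hi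
      exact hi (by decide)
    rw [hF]
    rcases h2 with rfl | rfl
    · exact FV_rank_ge L _ [] l (List.isChain_singleton _) hl
    · exact FV_rank_ge L _ [] l' (List.isChain_singleton _) hl'
  have hnt : ¬ Thread (sysF x) := by
    rw [hF]; exact UnB_no_thread L hL
  have hM : Std x (sysF x) 0 thz ∈ Mod f := by
    rw [hf]
    refine ⟨x, hx, 0, thz, ?_, rfl⟩
    intro n
    show ep 0 = 0
    unfold ep
    exact Finsupp.sum_zero_index
  exact not_SRle x (sysF x) thz hnt α 1 g hg0 hep hr (hall _ hM)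

end Pool.Agent.NI
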