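import Pool.Agent.NI.Fin
import Pool.Agent.NI.UnB
import Pool.Agent.NI.Sen
import Pool.Agent.NI.MsD
import Pool.Agent.NI.Nrm
import Pool.Agent.NI.CHv

/-!
# Main: assembly

Suppose Statement S and let `P` be coanalytic and cofinal, without a continuous injection of the Cantor
space. `coanalytic_normal` gives `B`; `exists_sentence` with `meas_DB`, `meas_DAll` gives the two sentences;
`unbounded` and `not_universal` contradict S.
-/

namespace Pool.Agent.NI

open Cardinal

theorem S_imp (hS : StatementS) (P : Set Rl) (hP : MeasureTheory.AnalyticSet Pᶜ)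
    (hcof : ∀ c : Rl, ∃ y ∈ P, TRed c y) :
    ∃ f : Rl → Rl, Continuous f ∧ Function.Injective f ∧ ∀ z, f z ∈ P := by
  by_contra hthin
  obtain ⟨B, hB, rfl⟩ := coanalytic_normal P hP
  obtain ⟨f, hf⟩ := exists_sentence (DB B) (meas_DB B) (fun x hx => hx.1)
  obtain ⟨fAll, hfAll⟩ := exists_sentence DAll meas_DAll (fun x hx => hx)
  rcases hS VT f with h | h
  · exact unbounded B hthin f hf h
  · exact not_universal B hB hthin hcof f fAll hf hfAll h

theorem main :
    ((2 : Cardinal.{0}) ^ (ℵ₀ : Cardinal.{0}) = Cardinal.aleph 1 → VC) ∧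
    (StatementS → ∀ P : Set Rl, MeasureTheory.AnalyticSet Pᶜ → (∀ c : Rl, ∃ y ∈ P, TRed c y) →
      ∃ f : Rl → Rl, Continuous f ∧ Function.Injective f ∧ ∀ z, f z ∈ P) :=
  ⟨VC_of_CH, fun hS P hP hcof => S_imp hS P hP hcof⟩

end Pool.Agent.NI
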