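import Pool.Agent.NI.Grd

/-!
# TBl: the trees `TB B L b`

* `TB_pre`: immediate from the definition (`List.getD`, `List.take`, `List.map` of an initial segment).
* `TB_branch`: `→`: given `s` with `B s (pre y s.length)` take `n` larger than `encode s`, `s.length`,
  `encode s'`. `←`: direct.
* `Gd_mem_PB`: an infinite branch `z` of the tree of `y` gives the infinite `L`-descending sequence
  `b, f (encode (pre z 0)), f (encode (pre z 1)), ...`: contradiction to `Acc L b`.
* `exists_Gd`: by `Rk_succ` there is `e₀` with `L e₀ b`, `Rk L β e₀`. `greedy` with `α = List ℕ`,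
  `lev = List.length`, `par = List.dropLast`, `N s ↔ B s (pre y s.length)` (closed under `dropLast` by
  `PC`; `pre y (n + 1) = pre y n ++ [y n]`), `R = ChR B y`, `E = L`; on level `0` only `[]`:
  `Rk (ChR B y) c []` implies `c ≤ β` by `Rk_mono`. `f n = g (Denumerable.ofNat (List ℕ) n)`.
-/

namespace Pool.Agent.NI

theorem TBl_getD {u v : List (Bool × ℕ)} (h : u <+: v) {i : ℕ} (hi : i < u.length) (d : Bool × ℕ) :
    v.getD i d = u.getD i d := by
  obtain ⟨w, rfl⟩ := h
  rw [List.getD_append _ _ _ _ hi]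

theorem TBl_take {u v : List (Bool × ℕ)} (h : u <+: v) {m : ℕ} (hm : m ≤ u.length) :
    (v.map Prod.fst).take m = (u.map Prod.fst).take m := by
  obtain ⟨w, rfl⟩ := h
  rw [List.map_append, List.take_append_of_le_length (by rw [List.length_map]; exact hm)]

theorem TB_pre (B : List ℕ → List Bool → Prop) (L : ℕ → ℕ → Prop) (b : ℕ) (u v : List (Bool × ℕ))
    (h : u <+: v) (hv : TB B L b v) : TB B L b u := by
  intro s h1 h2 h3
  have hlen := h.length_le
  have h4 := hv s (by omega) (by omega) (by rw [TBl_take h h2]; exact h3)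
  rw [TBl_getD h h1] at h4
  refine ⟨h4.1, ?_⟩
  intro s' a hs ha
  have h5 := h4.2 s' a hs (by omega)
  rw [TBl_getD h ha] at h5
  exact h5

theorem TBl_pre_len {α : Type} (g : ℕ → α) (n : ℕ) : (pre g n).length = n := by
  simp [pre]

theorem TBl_pre_getD (g : ℕ → Bool × ℕ) (n i : ℕ) (hi : i < n) (d : Bool × ℕ) :
    (pre g n).getD i d = g i := by
  simp [pre, hi]

theorem TBl_pre_take (g : ℕ → Bool × ℕ) (n m : ℕ) (h : m ≤ n) :
    ((pre g n).map Prod.fst).take m = pre (fun n => (g n).1) m := by
  simp only [pre, List.map_map]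
  rw [← List.map_take, List.take_range, min_eq_left h]
  rfl

theorem TB_branch (B : List ℕ → List Bool → Prop) (L : ℕ → ℕ → Prop) (b : ℕ)
    (g : ℕ → Bool × ℕ) :
    (∀ n, TB B L b (pre g n)) ↔ Gd B L b (fun n => (g n).1) (fun n => (g n).2) := by
  constructor
  · intro h s hs
    constructor
    · intro h0
      have h1 := h (Encodable.encode s + s.length + 1) s (by rw [TBl_pre_len]; omega)
        (by rw [TBl_pre_len]; omega) (by rw [TBl_pre_take _ _ _ (by omega)]; exact hs)
      have h2 := h1.1 h0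
      rw [TBl_pre_getD _ _ _ (by omega)] at h2
      exact h2
    · intro s' a hsa
      have h1 := h (Encodable.encode s + Encodable.encode s' + s.length + 1) s
        (by rw [TBl_pre_len]; omega) (by rw [TBl_pre_len]; omega)
        (by rw [TBl_pre_take _ _ _ (by omega)]; exact hs)
      have h2 := h1.2 s' a hsa (by rw [TBl_pre_len]; omega)
      rw [TBl_pre_getD _ _ _ (by omega), TBl_pre_getD _ _ _ (by omega)] at h2
      exact h2
  · intro h n s h1 h2 h3
    rw [TBl_pre_len] at h1 h2
    rw [TBl_pre_take _ _ _ h2] at h3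
    obtain ⟨h4, h5⟩ := h s h3
    rw [TBl_pre_getD _ _ _ h1]
    refine ⟨h4, ?_⟩
    intro s' a hsa h6
    rw [TBl_pre_len] at h6
    rw [TBl_pre_getD _ _ _ h6]
    exact h5 s' a hsa

theorem TBl_pre_succ {α : Type} (z : ℕ → α) (n : ℕ) : pre z (n + 1) = pre z n ++ [z n] := by
  simp [pre, List.range_succ]

theorem Gd_mem_PB (B : List ℕ → List Bool → Prop) (L : ℕ → ℕ → Prop) (b : ℕ) (hb : Acc L b)
    (y : Rl) (f : ℕ → ℕ) (h : Gd B L b y f) : y ∈ PB B := by
  rintro ⟨z, hz⟩
  have h1 : ∀ n, B (pre z n) (pre y (pre z n).length) := by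
    intro n
    rw [TBl_pre_len]
    exact hz n
  have h2 : L (f (Encodable.encode (pre z 0))) b := (h _ (h1 0)).1 rfl
  have h3 : ∀ n, L (f (Encodable.encode (pre z (n + 1)))) (f (Encodable.encode (pre z n))) := by
    intro n
    exact (h _ (h1 (n + 1))).2 (pre z n) (z n) (TBl_pre_succ z n)
  have h4 : ∀ c, Acc L c → ∀ n, f (Encodable.encode (pre z n)) ≠ c := by
    intro c hc
    induction hc with
    | intro c _ ih =>
      intro n hn
      exact ih _ (hn ▸ h3 n) (n + 1) rfl
  exact h4 _ (hb.inv h2) 0 rfl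

theorem exists_Gd (B : List ℕ → List Bool → Prop) (hB : PC B) (L : ℕ → ℕ → Prop) (b : ℕ) (y : Rl)
    (β : Ordinal.{0}) (h : ¬ Rk (ChR B y) (β + 1) []) (hL : Rk L (β + 1) b) :
    ∃ f, Gd B L b y f := by
  obtain ⟨e₀, he₀, he₀'⟩ := (Rk_succ L β b).1 hL
  obtain ⟨g, hg, hg0⟩ := greedy (α := List ℕ) (β := ℕ) List.length List.dropLast
    (fun s => B s (pre y s.length))
    (by
      intro q hq h0
      have hne : q ≠ [] := List.ne_nil_of_length_pos h0
      have e : q = q.dropLast ++ [q.getLast hne] := (List.dropLast_append_getLast hne).symm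
      have hl : q.length = q.dropLast.length + 1 := by
        rw [List.length_dropLast]
        omega
      refine ⟨?_, hl⟩
      rw [hl, TBl_pre_succ] at hq
      rw [e] at hq
      have h1 := hB _ _ _ _ hq
      simpa using h1)
    (ChR B y)
    (by
      intro q hq h0
      have hne : q ≠ [] := List.ne_nil_of_length_pos h0
      exact ⟨q.getLast hne, (List.dropLast_append_getLast hne).symm, hq⟩)
    L e₀
    (by
      intro p hp h0
      have hp0 : p = [] := List.length_eq_zero_iff.1 h0
      subst hp0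
      refine ⟨⟨_, h⟩, ?_⟩
      intro c hc
      have hcβ : c ≤ β := by
        by_contra hn
        exact h (Rk_mono _ (Order.add_one_le_of_lt (not_le.1 hn)) hc)
      exact Rk_mono _ hcβ he₀')
  refine ⟨fun n => g (Denumerable.ofNat (List ℕ) n), ?_⟩
  intro s hs
  simp only [Denumerable.ofNat_encode]
  constructor
  · intro h0
    subst h0
    rw [hg0 [] rfl]
    exact he₀
  · intro s' a hsa
    have h1 := hg s hs (by rw [hsa]; simp)
    rw [hsa, List.dropLast_concat] at h1
    rw [hsa]
    exact h1

end Pool.Agent.NI
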