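import Pool.Agent.NI.GrR

/-!
# Tor: a torsor tree of large rank has a thread

(1) `Rk (ChT F ξ) b (n, v)` and `Rk (ChT F ξ) b (n, w)`, `ep v = ep w = 0`, imply `Rk (ChG F) b (n, v + w)`
(induction on `b`: children `v₁, w₁` of rank at least `c`; `push (v₁ + w₁) = v + ξ n + w + ξ n = v + w`).
(2) `Rk (ChT F ξ) b (n, v)` and `Rk (ChG F) b (n, u)` imply `Rk (ChT F ξ) b (n, v + u)` (the same).
(3) Let `Rk (ChT F ξ) (ρ + ω) p`, `ep p.2 = 0`. For every `j : ℕ` there is a child `q_j` of `p` with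
`Rk (ChT F ξ) (ρ + j) q_j` (as `ρ + j < ρ + ω`). The difference of `q_0` and `q_j` has rank at least `ρ` in
the group tree by (1), so by `grp_rank` and `hρ` it has all ranks, and by (2) `Rk (ChT F ξ) (ρ + j) q_0` for
all `j`. Hence `Rk (ChT F ξ) (ρ + ω) q_0` (for `c < ρ + ω` there is `j` with `c < ρ + j`; use the child given by
`Rk (ρ + j) q_0`). So `p` has a child with the same property; iterating (dependent choice) we get a
sequence above `p`, which gives `g n` for `n ≥ p.1`; for `n < p.1` define `g n = push F n (g (n + 1)) + ξ n`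
downwards.
-/

namespace Pool.Agent.NI

theorem Tor_diff (F : ℕ → ℕ → ℕ) (ξ : ℕ → V) (b : Ordinal.{0}) : ∀ (n : ℕ) (v w : V),
    Rk (ChT F ξ) b (n, v) → Rk (ChT F ξ) b (n, w) → Rk (ChG F) b (n, v + w) := by
  induction b using WellFoundedLT.induction with
  | ind b ih =>
    intro n v w h1 h2
    rw [Rk] at h1 h2 ⊢
    intro c hc
    obtain ⟨⟨n1, v1⟩, ⟨e1, e2, e3⟩, r1⟩ := h1 c hc
    obtain ⟨⟨n2, w1⟩, ⟨f1, f2, f3⟩, r2⟩ := h2 c hc
    have e1' : n1 = n + 1 := e1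
    have f1' : n2 = n + 1 := f1
    subst e1' f1'
    refine ⟨(n + 1, v1 + w1), ⟨rfl, ?_, ?_⟩, ih c hc _ _ _ r1 r2⟩
    · show ep (v1 + w1) = 0
      rw [ep_add, show ep v1 = 0 from e2, show ep w1 = 0 from f2, add_zero]
    · show v + w = push F n (v1 + w1)
      rw [show v = push F n v1 + ξ n from e3, show w = push F n w1 + ξ n from f3, push_add]
      have h3 := V_add_self (ξ n)
      calc push F n v1 + ξ n + (push F n w1 + ξ n)
          = push F n v1 + push F n w1 + (ξ n + ξ n) := by abel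
        _ = push F n v1 + push F n w1 := by rw [h3, add_zero]

theorem Tor_sum (F : ℕ → ℕ → ℕ) (ξ : ℕ → V) (b : Ordinal.{0}) : ∀ (n : ℕ) (v u : V),
    Rk (ChT F ξ) b (n, v) → Rk (ChG F) b (n, u) → Rk (ChT F ξ) b (n, v + u) := by
  induction b using WellFoundedLT.induction with
  | ind b ih =>
    intro n v u h1 h2
    rw [Rk] at h1 h2 ⊢
    intro c hc
    obtain ⟨⟨n1, v1⟩, ⟨e1, e2, e3⟩, r1⟩ := h1 c hc
    obtain ⟨⟨n2, u1⟩, ⟨f1, f2, f3⟩, r2⟩ := h2 c hc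
    have e1' : n1 = n + 1 := e1
    have f1' : n2 = n + 1 := f1
    subst e1' f1'
    refine ⟨(n + 1, v1 + u1), ⟨rfl, ?_, ?_⟩, ih c hc _ _ _ r1 r2⟩
    · show ep (v1 + u1) = 0
      rw [ep_add, show ep v1 = 0 from e2, show ep u1 = 0 from f2, add_zero]
    · show v + u = push F n (v1 + u1) + ξ n
      rw [show v = push F n v1 + ξ n from e3, show u = push F n u1 from f3, push_add]
      abel

theorem Tor_down (F : ℕ → ℕ → ℕ) (ξ : ℕ → V) (hξ : ∀ n, ep (ξ n) = 0) : ∀ (N : ℕ) (g : ℕ → V),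
    (∀ n, N ≤ n → ep (g n) = 0 ∧ g n = push F n (g (n + 1)) + ξ n) → Triv F ξ := by
  intro N
  induction N with
  | zero => intro g h; exact ⟨g, fun n => h n (Nat.zero_le n)⟩
  | succ N ih =>
    intro g h
    apply ih (Function.update g N (push F N (g (N + 1)) + ξ N))
    intro n hn
    rcases Nat.eq_or_lt_of_le hn with rfl | hn'
    · rw [Function.update_self, Function.update_of_ne (Nat.succ_ne_self N)]
      refine ⟨?_, rfl⟩
      rw [ep_add, ep_push, (h (N + 1) le_rfl).1, hξ, add_zero]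
    · rw [Function.update_of_ne (by omega), Function.update_of_ne (by omega)]
      exact h n hn'

open Ordinal in
theorem Tor_lt {ρ c : Ordinal.{0}} (hc : c < ρ + ω) : ∃ j : ℕ, c < ρ + j := by
  rcases lt_or_ge c ρ with h | h
  · exact ⟨0, by simpa using h⟩
  · obtain ⟨d, hd⟩ : ∃ d, c = ρ + d := ⟨c - ρ, (Ordinal.add_sub_cancel_of_le h).symm⟩
    rw [hd] at hc ⊢
    have h1 : d < ω := (add_lt_add_iff_left ρ).1 hc
    obtain ⟨m, hm⟩ := Ordinal.lt_omega0.1 h1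
    refine ⟨m + 1, ?_⟩
    rw [hm]
    refine (add_lt_add_iff_left ρ).2 ?_
    exact_mod_cast Nat.lt_succ_self m

open Ordinal in
theorem Tor_step (F : ℕ → ℕ → ℕ) (ξ : ℕ → V) (ρ : Ordinal.{0})
    (hρ : ∀ p, Rk (ChF F) ρ p → ∀ b, Rk (ChF F) b p) (p : ℕ × V)
    (h : Rk (ChT F ξ) (ρ + ω) p) : ∃ q : ℕ × V, ChT F ξ q p ∧ Rk (ChT F ξ) (ρ + ω) q := by
  have h0 := h
  rw [Rk] at h0
  have h1 : ∀ j : ℕ, ∃ v : V, ChT F ξ (p.1 + 1, v) p ∧ Rk (ChT F ξ) (ρ + j) (p.1 + 1, v) := by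
    intro j
    obtain ⟨⟨n1, v⟩, e, r⟩ := h0 (ρ + j) ((add_lt_add_iff_left ρ).2 (Ordinal.nat_lt_omega0 j))
    have e1 : n1 = p.1 + 1 := e.1
    subst e1
    exact ⟨v, e, r⟩
  choose v hv hr using h1
  refine ⟨(p.1 + 1, v 0), hv 0, ?_⟩
  have h2 : ∀ j : ℕ, Rk (ChT F ξ) (ρ + j) (p.1 + 1, v 0) := by
    intro j
    have hle : ρ ≤ ρ + j := le_self_add
    have r0 : Rk (ChT F ξ) ρ (p.1 + 1, v 0) := by
      have := hr 0
      rwa [Nat.cast_zero, add_zero] at this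
    have rj : Rk (ChT F ξ) ρ (p.1 + 1, v j) := Rk_mono _ hle (hr j)
    have hd := Tor_diff F ξ ρ _ _ _ rj r0
    have hep : ep (v j + v 0) = 0 := by
      rw [ep_add, show ep (v j) = 0 from (hv j).2.1, show ep (v 0) = 0 from (hv 0).2.1, add_zero]
    have hg : Rk (ChG F) (ρ + j) (p.1 + 1, v j + v 0) := by
      rw [grp_rank F _ _ _ hep] at hd ⊢
      intro i hi
      exact hρ _ (hd i hi) _
    have hs := Tor_sum F ξ (ρ + j) _ _ _ (hr j) hg
    have he : v j + (v j + v 0) = v 0 := by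
      rw [← add_assoc, V_add_self, zero_add]
    rwa [he] at hs
  rw [Rk]
  intro c hc
  obtain ⟨j, hj⟩ := Tor_lt hc
  have h3 := h2 j
  rw [Rk] at h3
  exact h3 c hj

open Ordinal in
theorem tor_rank (F : ℕ → ℕ → ℕ) (ξ : ℕ → V) (hξ : ∀ n, ep (ξ n) = 0) (ρ : Ordinal.{0})
    (hρ : ∀ p, Rk (ChF F) ρ p → ∀ b, Rk (ChF F) b p) (p : ℕ × V) (hp : ep p.2 = 0)
    (h : Rk (ChT F ξ) (ρ + ω) p) : Triv F ξ := by
  have hstep : ∀ q : {q : ℕ × V // Rk (ChT F ξ) (ρ + ω) q},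
      ∃ q' : {q : ℕ × V // Rk (ChT F ξ) (ρ + ω) q}, ChT F ξ q'.1 q.1 := by
    intro q
    obtain ⟨q', h1, h2⟩ := Tor_step F ξ ρ hρ q.1 q.2
    exact ⟨⟨q', h2⟩, h1⟩
  choose nx hnx using hstep
  let s : ℕ → {q : ℕ × V // Rk (ChT F ξ) (ρ + ω) q} := fun k => Nat.rec ⟨p, h⟩ (fun _ q => nx q) k
  have hs : ∀ k, ChT F ξ (s (k + 1)).1 (s k).1 := fun k => hnx (s k)
  have hs0 : (s 0).1 = p := rfl
  have hlev : ∀ k, (s k).1.1 = p.1 + k := by
    intro k
    induction k with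
    | zero => rw [hs0, add_zero]
    | succ k ih => rw [(hs k).1, ih, add_assoc]
  have hep : ∀ k, ep (s k).1.2 = 0 := by
    intro k
    cases k with
    | zero => rw [hs0]; exact hp
    | succ k => exact (hs k).2.1
  apply Tor_down F ξ hξ p.1 (fun n => (s (n - p.1)).1.2)
  intro n hn
  refine ⟨hep _, ?_⟩
  have h1 := (hs (n - p.1)).2.2
  rw [hlev (n - p.1), Nat.add_sub_cancel' hn] at h1
  show (s (n - p.1)).1.2 = push F n (s (n + 1 - p.1)).1.2 + ξ n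
  rw [Nat.sub_add_comm hn]
  exact h1

end Pool.Agent.NI
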