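import Pool.Agent.NI.Tor

/-!
# Wit: witnesses of non-isomorphism

`Fail K1 K2 E g`: a violated instance of the conditions on a witness, `K1`, `K2` are the known bits of the two
atomic diagrams, `g` the known values of the witness `G : ℕ → ℕ`, `G 0 = k + 1` claims that the two visible
reals differ at `k`; `G 0 = 0` claims that there is no isomorphism: `G (pair 1 n) = b n` is an even point
of level `n` of `M1`, `G (pair 2 n) = τ (b (n + 1))`, `G (pair 3 n) = v n` with `b n = τ (b (n + 1)) + dec (v n)`, and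
`G (pair 4 z)` for the even points `z` of `M2` is a map to `E` which is decreasing for the projection
`z ↦ τ z + dec (v n)`.

* `sound`: let `s` be an isomorphism from `M1` to `M2`, and suppose that `G` does not fail. If `G 0 = k + 1`,
  the bits `4 k, [0]` of `M1` and `M2` are equal by `s` and because the relation `4 k` is full or empty:
  `Fail`. If `G 0 = 0`: the second, third, fourth disjuncts give the relations for `b n`, `a n`, `v n` in
  `M1` (every bit is `0` or `1`); by `s` the points `s (b n)` have the corresponding relations in `M2`, so by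
  the last disjunct `E (G (pair 4 (s (b (n + 1))))) (G (pair 4 (s (b n))))` for all `n`: contradiction to
  `WellFounded E`.
* `complete`: let `M1 = Std x (sysF x) κ θ`, `M2 = Std x' (sysF x') κ' θ'`. If `x ≠ x'` take `G 0 = k + 1` with
  `x k ≠ x' k`. If `x = x'`: `¬ Triv F ξ`, `ξ n = κ n + κ' n` (`iso_std_iff`). `b n = θ⁻¹ (n, 0)`,
  `a n = θ⁻¹ (n, κ n)`, `dec (v n) = κ n`. By `tor_rank` no node `(n, u)`, `ep u = 0`, satisfies
  `Rk (ChT F ξ) (ρ + ω)`, so (`Rk_mono`) `Rk (ChT F ξ) c p → c < ρ + ω → Rk E c e₀`. `greedy` with `α = ℕ × V`,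
  `lev = Prod.fst`, `par (n + 1, u) = (n, push F n u + ξ n)`, `N p ↔ ep p.2 = 0` gives `g`, and
  `G (pair 4 z) = g (θ' z)`. Check that no disjunct of `Fail` holds (`Std_rel1, Std_rel2, Std_rel3`; the
  arities are right, so `KT` gives the truth values).
-/

namespace Pool.Agent.NI

/-- A violated instance of the conditions on a witness of non-isomorphism. -/
def Fail (K1 K2 : ℕ → List ℕ → ℕ → Prop) (E : ℕ → ℕ → Prop) (g : ℕ → ℕ → Prop) : Prop :=
  (∃ k b, g 0 (k + 1) ∧ K1 (4 * k) [0] b ∧ K2 (4 * k) [0] b) ∨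
  (g 0 0 ∧ ∃ n z, g (Nat.pair 1 n) z ∧ K1 (4 * (2 * n) + 1) [z] 0) ∨
  (g 0 0 ∧ ∃ n z a, g (Nat.pair 1 (n + 1)) z ∧ g (Nat.pair 2 n) a ∧ K1 (4 * n + 3) [z, a] 0) ∨
  (g 0 0 ∧ ∃ n z a v, g (Nat.pair 1 n) z ∧ g (Nat.pair 2 n) a ∧ g (Nat.pair 3 n) v ∧
    K1 (4 * v + 2) [a, z] 0) ∨
  (g 0 0 ∧ ∃ n z a w v p q, g (Nat.pair 3 n) v ∧ K2 (4 * (2 * (n + 1)) + 1) [z] 1 ∧
    K2 (4 * n + 3) [z, a] 1 ∧ K2 (4 * v + 2) [a, w] 1 ∧ g (Nat.pair 4 z) q ∧
    g (Nat.pair 4 w) p ∧ ¬ E q p)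

open Classical in
/-- The bits of the atomic diagram of `M`. -/
def KT (M : Str VT) (k : ℕ) (l : List ℕ) (b : ℕ) : Prop :=
  l.length = VT k ∧ b = if M.rel k l then 1 else 0

open Classical in
/-- The real of a structure. -/
noncomputable def xof (M : Str VT) : Rl := fun k => decide (M.rel (4 * k) [0])

theorem Wit_VT0 (p : ℕ) : VT (4 * p) = 1 := by
  unfold VT
  rw [if_pos (by omega)]

theorem Wit_VT1 (p : ℕ) : VT (4 * p + 1) = 1 := by
  unfold VT
  rw [if_pos (by omega)]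

theorem Wit_VT2 (p : ℕ) : VT (4 * p + 2) = 2 := by
  unfold VT
  rw [if_neg (by omega)]

theorem Wit_VT3 (p : ℕ) : VT (4 * p + 3) = 2 := by
  unfold VT
  rw [if_neg (by omega)]

theorem Wit_zero {M : Str VT} {k : ℕ} {l : List ℕ} (hl : l.length = VT k) (h : ¬ KT M k l 0) :
    M.rel k l := by
  by_contra hn
  exact h ⟨hl, by rw [if_neg hn]⟩

theorem Wit_zero' {M : Str VT} {k : ℕ} {l : List ℕ} (h : M.rel k l) : ¬ KT M k l 0 := by
  rintro ⟨-, h2⟩
  rw [if_pos h] at h2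
  omega

theorem Wit_one {M : Str VT} {k : ℕ} {l : List ℕ} (h : M.rel k l) : KT M k l 1 :=
  ⟨M.len k l h, by rw [if_pos h]⟩

theorem Wit_one' {M : Str VT} {k : ℕ} {l : List ℕ} (h : KT M k l 1) : M.rel k l := by
  by_contra hn
  obtain ⟨-, h2⟩ := h
  rw [if_neg hn] at h2
  omega

theorem Wit_dec (p : Prop) (b : Bool) [Decidable p] (h : p ↔ b = true) : decide p = b := by
  cases b <;> simp_all

theorem sound (M1 M2 : Str VT) (h1 : M1 ∈ KD DAll) (h2 : M2 ∈ KD DAll) (hi : Iso M1 M2)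
    (E : ℕ → ℕ → Prop) (hE : WellFounded E) (G : ℕ → ℕ) :
    Fail (KT M1) (KT M2) E (fun i m => G i = m) := by
  by_contra hF
  obtain ⟨x, -, κ, θ, hκ, rfl⟩ := h1
  obtain ⟨x', -, κ', θ', hκ', rfl⟩ := h2
  obtain ⟨s, hs⟩ := hi
  rcases Nat.eq_zero_or_eq_succ_pred (G 0) with h0 | h0
  · have e2 : ∀ n, (Std x (sysF x) κ θ).rel (4 * (2 * n) + 1) [G (Nat.pair 1 n)] := by
      intro n
      refine Wit_zero (by rw [Wit_VT1]; rfl) fun hk => hF ?_
      exact Or.inr (Or.inl ⟨h0, n, _, rfl, hk⟩)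
    have e3 : ∀ n, (Std x (sysF x) κ θ).rel (4 * n + 3) [G (Nat.pair 1 (n + 1)), G (Nat.pair 2 n)] := by
      intro n
      refine Wit_zero (by rw [Wit_VT3]; rfl) fun hk => hF ?_
      exact Or.inr (Or.inr (Or.inl ⟨h0, n, _, _, rfl, rfl, hk⟩))
    have e4 : ∀ n, (Std x (sysF x) κ θ).rel (4 * G (Nat.pair 3 n) + 2)
        [G (Nat.pair 2 n), G (Nat.pair 1 n)] := by
      intro n
      refine Wit_zero (by rw [Wit_VT2]; rfl) fun hk => hF ?_
      exact Or.inr (Or.inr (Or.inr (Or.inl ⟨h0, n, _, _, _, rfl, rfl, rfl, hk⟩)))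
    have e5 : ∀ n, E (G (Nat.pair 4 (s (G (Nat.pair 1 (n + 1)))))) (G (Nat.pair 4 (s (G (Nat.pair 1 n))))) := by
      intro n
      by_contra hn
      refine hF (Or.inr (Or.inr (Or.inr (Or.inr ⟨h0, n, s (G (Nat.pair 1 (n + 1))), s (G (Nat.pair 2 n)),
        s (G (Nat.pair 1 n)), _, _, _, rfl, ?_, ?_, ?_, rfl, rfl, hn⟩))))
      · exact Wit_one ((hs _ _).1 (e2 (n + 1)))
      · exact Wit_one ((hs _ _).1 (e3 n))
      · exact Wit_one ((hs _ _).1 (e4 n))
    exact (wellFounded_iff_isEmpty_descending_chain.1 hE).elim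
      ⟨fun n => G (Nat.pair 4 (s (G (Nat.pair 1 n)))), e5⟩
  · refine hF (Or.inl ⟨(G 0).pred, _, h0, ⟨by rw [Wit_VT0]; rfl, rfl⟩, ⟨by rw [Wit_VT0]; rfl, ?_⟩⟩)
    have h3 : (Std x (sysF x) κ θ).rel (4 * (G 0).pred) [0] ↔
        (Std x' (sysF x') κ' θ').rel (4 * (G 0).pred) [0] := by
      rw [hs, List.map_cons, List.map_nil, Std_rel0, Std_rel0]
    by_cases h4 : (Std x (sysF x) κ θ).rel (4 * (G 0).pred) [0]
    · rw [if_pos h4, if_pos (h3.1 h4)]
    · rw [if_neg h4, if_neg fun h5 => h4 (h3.2 h5)]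

open Ordinal in
theorem complete (D : Set Rl) (M1 M2 : Str VT) (h1 : M1 ∈ KD D) (h2 : M2 ∈ KD D)
    (hi : ¬ Iso M1 M2) (E : ℕ → ℕ → Prop) (ρ : Ordinal.{0})
    (hρ : ∀ p, Rk (ChF (sysF (xof M1))) ρ p → ∀ b, Rk (ChF (sysF (xof M1))) b p)
    (e₀ : ℕ) (he : Rk E (ρ + ω) e₀) :
    ∃ G : ℕ → ℕ, ¬ Fail (KT M1) (KT M2) E (fun i m => G i = m) := by
  obtain ⟨x, -, κ, θ, hκ, rfl⟩ := h1
  obtain ⟨x', -, κ', θ', hκ', rfl⟩ := h2
  have hx : xof (Std x (sysF x) κ θ) = x := by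
    funext k
    exact @Wit_dec _ _ (Classical.propDecidable _) (Std_rel0 x (sysF x) κ θ k 0)
  rw [hx] at hρ
  by_cases hxx : x = x'
  · subst hxx
    rw [iso_std_iff x (sysF x) κ κ' hκ hκ'] at hi
    obtain ⟨F, hF⟩ : ∃ F, F = sysF x := ⟨_, rfl⟩
    rw [← hF] at hρ hi ⊢
    obtain ⟨ξ, hξd⟩ : ∃ ξ : ℕ → V, ξ = fun n => κ n + κ' n := ⟨_, rfl⟩
    have hξ : ∀ n, ep (ξ n) = 0 := by
      intro n
      rw [hξd]
      show ep (κ n + κ' n) = 0
      rw [ep_add, hκ, hκ', add_zero]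
    rw [← hξd] at hi
    have hbd : ∀ p : ℕ × V, ep p.2 = 0 → ¬ Rk (ChT F ξ) (ρ + ω) p := fun p hp h =>
      hi (tor_rank F ξ hξ ρ hρ p hp h)
    obtain ⟨g, hg, -⟩ := greedy (α := ℕ × V) (β := ℕ) Prod.fst
      (fun q => (q.1 - 1, push F (q.1 - 1) q.2 + ξ (q.1 - 1))) (fun q => ep q.2 = 0)
      (by
        intro q hq h0
        refine ⟨?_, ?_⟩
        · show ep (push F (q.1 - 1) q.2 + ξ (q.1 - 1)) = 0
          rw [ep_add, ep_push, hξ, hq, add_zero]
        · show q.1 = q.1 - 1 + 1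
          omega)
      (ChT F ξ)
      (by
        intro q hq h0
        refine ⟨?_, hq, rfl⟩
        show q.1 = q.1 - 1 + 1
        omega)
      E e₀
      (by
        intro p hp h0
        refine ⟨⟨_, hbd p hp⟩, ?_⟩
        intro c hc
        rcases le_or_gt (ρ + ω) c with h3 | h3
        · exact absurd (Rk_mono _ h3 hc) (hbd p hp)
        · exact Rk_mono _ h3.le he)
    obtain ⟨G, hG⟩ : ∃ G : ℕ → ℕ, G = fun i =>
        if i.unpair.1 = 1 then θ.symm (i.unpair.2, 0)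
        else if i.unpair.1 = 2 then θ.symm (i.unpair.2, κ i.unpair.2)
        else if i.unpair.1 = 3 then dec.symm (κ i.unpair.2)
        else if i.unpair.1 = 4 then g (θ' i.unpair.2) else 0 := ⟨_, rfl⟩
    have hG0 : G 0 = 0 := by
      rw [hG]
      simp
    have hG1 : ∀ n, G (Nat.pair 1 n) = θ.symm (n, 0) := by
      intro n
      rw [hG]
      simp
    have hG2 : ∀ n, G (Nat.pair 2 n) = θ.symm (n, κ n) := by
      intro n
      rw [hG]
      simp
    have hG3 : ∀ n, G (Nat.pair 3 n) = dec.symm (κ n) := by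
      intro n
      rw [hG]
      simp
    have hG4 : ∀ n, G (Nat.pair 4 n) = g (θ' n) := by
      intro n
      rw [hG]
      simp
    refine ⟨G, ?_⟩
    rintro (⟨k, b, h3, -⟩ | ⟨-, n, z, h3, h4⟩ | ⟨-, n, z, a, h3, h4, h5⟩ | ⟨-, n, z, a, v, h3, h4, h5, h6⟩ |
      ⟨-, n, z, a, w, v, p, q, h3, h4, h5, h6, h7, h8, h9⟩)
    · omega
    · rw [hG1] at h3
      subst h3
      refine Wit_zero' ?_ h4
      rw [Std_rel1]
      simp only [Equiv.apply_symm_apply]
      refine ⟨by omega, ?_⟩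
      rw [ep_zero, Nat.mul_mod_right]
      rfl
    · rw [hG1] at h3
      rw [hG2] at h4
      subst h3 h4
      refine Wit_zero' ?_ h5
      rw [Std_rel3, Equiv.apply_symm_apply, Equiv.apply_symm_apply]
      refine ⟨rfl, rfl, ?_⟩
      rw [push_zero, zero_add]
    · rw [hG1] at h3
      rw [hG2] at h4
      rw [hG3] at h5
      subst h3 h4 h5
      refine Wit_zero' ?_ h6
      rw [Std_rel2, Equiv.apply_symm_apply, Equiv.apply_symm_apply, Equiv.apply_symm_apply]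
      refine ⟨rfl, ?_⟩
      rw [V_add_self]
    · rw [hG3] at h3
      rw [hG4] at h7 h8
      subst h3 h7 h8
      have k4 := Wit_one' h4
      have k5 := Wit_one' h5
      have k6 := Wit_one' h6
      rw [Std_rel1] at k4
      rw [Std_rel3] at k5
      rw [Std_rel2] at k6
      simp only [Equiv.apply_symm_apply] at k6
      obtain ⟨m1, m2⟩ := k4
      obtain ⟨m3, m4, m5⟩ := k5
      obtain ⟨m6, m7⟩ := k6
      have m8 : ep (θ' z).2 = 0 := by
        rw [m2, Nat.mul_mod_right]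
        rfl
      have m9 := hg (θ' z) m8 (by rw [m3]; omega)
      apply h9
      have m10 : θ' w = ((θ' z).1 - 1, push F ((θ' z).1 - 1) (θ' z).2 + ξ ((θ' z).1 - 1)) := by
        apply Prod.ext
        · show (θ' w).1 = (θ' z).1 - 1
          rw [m6, m4, m3]
          omega
        · show (θ' w).2 = _
          rw [m7, m5, m3, Nat.add_sub_cancel, hξd, add_assoc, add_comm (κ' n) (κ n)]
      rw [m10]
      exact m9
  · have : ∃ k, x k ≠ x' k := by
      by_contra hn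
      push Not at hn
      exact hxx (funext hn)
    obtain ⟨k, hk⟩ := this
    refine ⟨fun i => if i = 0 then k + 1 else 0, ?_⟩
    rintro (⟨k', b, h3, h4, h5⟩ | ⟨h3, -⟩ | ⟨h3, -⟩ | ⟨h3, -⟩ | ⟨h3, -⟩)
    · simp only [if_true] at h3
      have h6 : k' = k := by omega
      subst h6
      obtain ⟨-, h7⟩ := h4
      obtain ⟨-, h8⟩ := h5
      rw [h7] at h8
      simp only [Std_rel0] at h8
      apply hk
      cases hx1 : x k' <;> cases hx2 : x' k' <;> simp [hx1, hx2] at h8 ⊢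
    all_goals
      simp only [if_true] at h3
      omega

end Pool.Agent.NI
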